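import Pool.Agent.Lib.MP_2619d0_ag.Q7.T6

/-!
Row q7-T21: generic block matrices are invertible
-/

set_option autoImplicit false

namespace MP2619.Q6

open scoped NNReal
open IntermediateField MP2619.R MP2619.N Pool.Agent.Lib.MP_2619d0_ag Pool.Agent.Lib.MP_2619d0_ag.T
  MP2619.Q5

private theorem T21B_det {k0 B I : Type} [Field k0] [Field B] [Algebra k0 B] [Fintype I]
    [DecidableEq I] (A : Matrix I I B)
    (hA : AlgebraicIndependent k0 (fun q : I × I => A q.1 q.2)) : A.det ≠ 0 := by
  intro h1
  have h2 : MvPolynomial.aeval (fun q : I × I => A q.1 q.2)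
      (Matrix.det (Matrix.mvPolynomialX I I k0)) = 0 := by
    rw [AlgHom.map_det]
    have h3 := Matrix.mvPolynomialX_mapMatrix_aeval k0 A
    rw [← h1]
    exact congrArg Matrix.det h3
  exact Matrix.det_mvPolynomialX_ne_zero I k0 (hA.eq_zero_of_aeval_eq_zero _ h2)

private theorem T21B_inj {B M I : Type} [Field B] [Field M] [Algebra B M] [Fintype I]
    [DecidableEq I] (A : Matrix I I B) (hA : A.det ≠ 0) (v : I → M)
    (hv : ∀ a, ∑ b, algebraMap B M (A a b) * v b = 0) : v = 0 := by
  have hdet' : (A.map (algebraMap B M)).det ≠ 0 := by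
    have h1 := RingHom.map_det (algebraMap B M) A
    have h2 : (A.map (algebraMap B M)).det = algebraMap B M A.det := h1.symm
    rw [h2]
    exact (map_ne_zero _).2 hA
  exact Matrix.eq_zero_of_mulVec_eq_zero hdet' (funext hv)

/-- Compare `pt_ne` (Q6/T21.lean). If the block `i` of `T` is not zero and `pt (K.bd G) T` is zero on the block `i`, then `pt G T' = 0` on the block `i` for
`T' j = T j` in the block `i`, `0` otherwise. The square submatrix of `G` on the block `i` (index type `{j // K.bl j = i}`) has algebraically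
independent entries, so its determinant is not zero (`Matrix.det_mvPolynomialX_ne_zero`, as in `pt_ne`), `Matrix.eq_zero_of_mulVec_eq_zero`. -/
theorem pt_neB {k0 B M : Type} [Field k0] [Field B] [Field M] [Algebra k0 B] [Algebra B M]
    {m N s : ℕ} (K : Bk m N s) (G : Fin N → Fin N → B)
    (hG : AlgebraicIndependent k0 (fun q : Fin N × Fin N => G q.1 q.2)) (T : Fin N → M)
    (hT : K.Nz T) : K.Nz (pt (K.bd G) T) := by
  classical
  intro i
  by_contra hcon
  have h0 : ∀ j, K.bl j = i → pt (K.bd G) T j = 0 := by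
    intro j hj
    by_contra h1
    exact hcon ⟨j, hj, h1⟩
  have hdet : (Matrix.of fun a b : {j : Fin N // K.bl j = i} => G a.1 b.1).det ≠ 0 := by
    refine T21B_det (k0 := k0) _ ?_
    have h1 : Function.Injective
        (fun q : {j : Fin N // K.bl j = i} × {j : Fin N // K.bl j = i} =>
          ((q.1.1, q.2.1) : Fin N × Fin N)) := by
      rintro ⟨a, b⟩ ⟨c, d⟩ h
      simp only [Prod.mk.injEq] at h
      exact Prod.ext (Subtype.ext h.1) (Subtype.ext h.2)
    have h2 : AlgebraicIndependent k0
        (fun q : {j : Fin N // K.bl j = i} × {j : Fin N // K.bl j = i} => G q.1.1 q.2.1) :=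
      AlgebraicIndependent.comp hG
        (fun q : {j : Fin N // K.bl j = i} × {j : Fin N // K.bl j = i} =>
          ((q.1.1, q.2.1) : Fin N × Fin N)) h1
    exact h2
  obtain ⟨j, hj, hj0⟩ := hT i
  have h3 : (fun a : {j : Fin N // K.bl j = i} => T a.1) = 0 := by
    refine T21B_inj _ hdet _ fun a => ?_
    have h4 := h0 a.1 a.2
    unfold pt at h4
    have h5 : ∑ b : {j : Fin N // K.bl j = i}, algebraMap B M (G a.1 b.1) * T b.1 =
        ∑ b, algebraMap B M (K.bd G a.1 b) * T b := by
      have h6 : ∑ b : {j : Fin N // K.bl j = i}, algebraMap B M (G a.1 b.1) * T b.1 =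
          ∑ b ∈ Finset.univ.filter (fun b => K.bl b = i), algebraMap B M (G a.1 b) * T b :=
        (Finset.sum_subtype (Finset.univ.filter (fun b => K.bl b = i)) (fun x => by simp)
          (fun b => algebraMap B M (G a.1 b) * T b)).symm
      rw [h6, Finset.sum_filter]
      refine Finset.sum_congr rfl fun b _ => ?_
      unfold Bk.bd
      by_cases h7 : K.bl b = i
      · rw [if_pos h7, if_pos (a.2.trans h7.symm)]
      · rw [if_neg h7, if_neg (fun h8 => h7 (h8.symm.trans a.2)), map_zero, zero_mul]
    show ∑ b : {j : Fin N // K.bl j = i}, algebraMap B M (G a.1 b.1) * T b.1 = 0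
    rw [h5]
    exact h4
  exact hj0 (congrFun h3 ⟨j, hj⟩)

/-- the determinant of the block matrix is not zero: `pt_neB` for the field `B` itself (`Matrix.exists_mulVec_eq_zero_iff`: a non-zero vector `v` with `K.bd G v = 0`
has a non-zero block `i`; apply `pt_neB` to `v` on the block `i` and `1` on the other blocks) -/
theorem det_bd_ne {k0 B : Type} [Field k0] [Field B] [Algebra k0 B]
    {m N s : ℕ} (K : Bk m N s) (G : Fin N → Fin N → B)
    (hG : AlgebraicIndependent k0 (fun q : Fin N × Fin N => G q.1 q.2)) :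
    (Matrix.of (K.bd G)).det ≠ 0 := by
  classical
  intro h
  obtain ⟨v, hv0, hv⟩ := Matrix.exists_mulVec_eq_zero_iff.2 h
  obtain ⟨j0, hj0⟩ := Function.ne_iff.1 hv0
  have hj0' : v j0 ≠ 0 := hj0
  let T : Fin N → B := fun j => if K.bl j = K.bl j0 then v j else 1
  have hT : K.Nz T := by
    intro i
    by_cases h1 : i = K.bl j0
    · refine ⟨j0, h1.symm, ?_⟩
      show (if K.bl j0 = K.bl j0 then v j0 else 1) ≠ 0
      rw [if_pos rfl]
      exact hj0'
    · refine ⟨K.o i, K.bo i, ?_⟩
      show (if K.bl (K.o i) = K.bl j0 then v (K.o i) else 1) ≠ 0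
      rw [if_neg (fun h2 => h1 ((K.bo i).symm.trans h2))]
      exact one_ne_zero
  obtain ⟨j, hj, hj1⟩ := pt_neB (M := B) K G hG T hT (K.bl j0)
  apply hj1
  have h2 := congrFun hv j
  have h3 : ∑ b, K.bd G j b * v b = 0 := h2
  unfold pt
  rw [← h3]
  refine Finset.sum_congr rfl fun b _ => ?_
  show K.bd G j b * (if K.bl b = K.bl j0 then v b else 1) = K.bd G j b * v b
  by_cases h4 : K.bl b = K.bl j0
  · rw [if_pos h4]
  · rw [if_neg h4]
    have h5 : K.bd G j b = 0 := by
      unfold Bk.bd
      rw [if_neg (fun h6 => h4 (h6.symm.trans hj))]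
    rw [h5, zero_mul, zero_mul]

end MP2619.Q6
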