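import Pool.Agent.Lib.MP_2619d0_ag.Q7.T5

/-!
Row q7-T22a: supports at infinity
-/

set_option autoImplicit false

namespace MP2619.Q6

open scoped NNReal
open IntermediateField MP2619.R MP2619.N Pool.Agent.Lib.MP_2619d0_ag Pool.Agent.Lib.MP_2619d0_ag.T
  MP2619.Q5

/-- Compare `supp_inf` (Q6/T22a.lean). `λ = 1 + ε` has a pole. For `j`, `j'` in the same block, `φ (U j) ≠ 0`, `φ (U' j') ≠ 0`: `wt j ≤ wt j'`:
`v(λ)^(wt j) = v(λ^(wt j) U j) = v(c U' j) ≤ v(c)`, `v(c) = v(c U' j') = v(λ^(wt j') U j') ≤ v(λ)^(wt j')`. Put `r i` = the maximal weight (`Finset.sup`) of the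
`j` in the block `i` with `φ (U j) ≠ 0`. -/
theorem supp_infB {M L : Type} [Field M] [Field L] {P : ValuationSubring M} {φ : P →+* L}
    (hφ : ∀ a : P, φ a = 0 ↔ P.valuation (a : M) < 1) {m N s : ℕ} (K : Bk m N s) (ε : M)
    (c : Fin s → M) (hc : ∀ i, c i ≠ 0) (hε : P.valuation ε⁻¹ < 1) (hε0 : ε ≠ 0)
    (U U' : Fin N → P) (hU : ∀ j, c (K.bl j) * (U' j : M) = (1 + ε) ^ (K.wt j) * (U j : M)) :
    ∃ r : Fin s → ℕ, (∀ j, φ (U j) ≠ 0 → K.wt j ≤ r (K.bl j)) ∧
      ∀ j, φ (U' j) ≠ 0 → r (K.bl j) ≤ K.wt j := by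
  classical
  have v1 : ∀ x : P, φ x ≠ 0 → P.valuation (x : M) = 1 := by
    intro x hx
    have h1 : ¬ P.valuation (x : M) < 1 := fun h => hx ((hφ x).2 h)
    exact le_antisymm (P.valuation_le_one x) (not_lt.mp h1)
  have hεv : 1 < P.valuation ε := by
    have h2 : P.valuation ε * P.valuation ε⁻¹ = 1 := by
      rw [← map_mul, mul_inv_cancel₀ hε0, map_one]
    by_contra h3
    push Not at h3
    have h4 : P.valuation ε * P.valuation ε⁻¹ < 1 :=
      lt_of_le_of_lt (mul_le_of_le_one_left zero_le h3) hε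
    exact absurd h2 (ne_of_lt h4)
  have hl : P.valuation (1 + ε) = P.valuation ε := by
    apply Valuation.map_add_eq_of_lt_right
    rw [map_one]
    exact hεv
  have key : ∀ a b : Fin N, K.bl a = K.bl b → φ (U a) ≠ 0 → φ (U' b) ≠ 0 → K.wt a ≤ K.wt b := by
    intro a b hab hUa hUb
    by_contra hlt
    push Not at hlt
    have ea := congrArg P.valuation (hU a)
    have eb := congrArg P.valuation (hU b)
    rw [map_mul, map_mul, map_pow, hl, v1 _ hUa, mul_one] at ea
    rw [map_mul, map_mul, map_pow, hl, v1 _ hUb, mul_one] at eb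
    rw [hab] at ea
    have h5 : P.valuation ε ^ (K.wt a) ≤ P.valuation (c (K.bl b)) := by
      rw [← ea]
      exact mul_le_of_le_one_right' (P.valuation_le_one _)
    have h6 : P.valuation (c (K.bl b)) ≤ P.valuation ε ^ (K.wt b) := by
      rw [eb]
      exact mul_le_of_le_one_right' (P.valuation_le_one _)
    have h7 : P.valuation ε ^ (K.wt b) < P.valuation ε ^ (K.wt a) :=
      pow_lt_pow_right₀ hεv hlt
    exact absurd (le_trans h5 h6) (not_le.mpr h7)
  refine ⟨fun i => (Finset.univ.filter fun j => K.bl j = i ∧ φ (U j) ≠ 0).sup K.wt, ?_, ?_⟩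
  · intro j hj
    exact Finset.le_sup (f := K.wt) (Finset.mem_filter.2 ⟨Finset.mem_univ j, rfl, hj⟩)
  · intro j hj
    refine Finset.sup_le fun a ha => ?_
    obtain ⟨-, h1, h2⟩ := Finset.mem_filter.1 ha
    exact key a j h1 h2 hj

/-- `|{wt ≤ r}| + |{r ≤ wt}| = N + |{wt = r}| ≤ N + s = m + 2 s ≤ 2 (E + s)`; the set `{wt = r}` has at most one element in every block (`K.inj`). -/
theorem supp_card {m N s : ℕ} (K : Bk m N s) (r : Fin s → ℕ) (E : ℕ) (hE : m ≤ 2 * E) :
    (Finset.univ.filter fun j => K.wt j ≤ r (K.bl j)).card ≤ E + s ∨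
      (Finset.univ.filter fun j => r (K.bl j) ≤ K.wt j).card ≤ E + s := by
  classical
  have h1 := Finset.card_union_add_card_inter (Finset.univ.filter fun j => K.wt j ≤ r (K.bl j))
    (Finset.univ.filter fun j => r (K.bl j) ≤ K.wt j)
  have h2 : ((Finset.univ.filter fun j => K.wt j ≤ r (K.bl j)) ∪
      (Finset.univ.filter fun j => r (K.bl j) ≤ K.wt j)).card ≤ N := by
    have := Finset.card_le_univ ((Finset.univ.filter fun j => K.wt j ≤ r (K.bl j)) ∪
      (Finset.univ.filter fun j => r (K.bl j) ≤ K.wt j))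
    rwa [Fintype.card_fin] at this
  have h3 : ((Finset.univ.filter fun j => K.wt j ≤ r (K.bl j)) ∩
      (Finset.univ.filter fun j => r (K.bl j) ≤ K.wt j)).card ≤ s := by
    have h4 : ((Finset.univ.filter fun j => K.wt j ≤ r (K.bl j)) ∩
        (Finset.univ.filter fun j => r (K.bl j) ≤ K.wt j)).card ≤
        (Finset.univ : Finset (Fin s)).card := by
      refine Finset.card_le_card_of_injOn K.bl (fun _ _ => Finset.mem_coe.2 (Finset.mem_univ _)) ?_
      intro a ha b hb hab
      rw [Finset.mem_coe, Finset.mem_inter, Finset.mem_filter, Finset.mem_filter] at ha hb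
      refine K.inj a b hab ?_
      have ea : K.wt a = r (K.bl a) := le_antisymm ha.1.2 ha.2.2
      have eb : K.wt b = r (K.bl b) := le_antisymm hb.1.2 hb.2.2
      rw [ea, eb, hab]
    rwa [Finset.card_univ, Fintype.card_fin] at h4
  have h5 := K.card
  omega

end MP2619.Q6
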