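import Pool.Agent.Lib.MP_2619d0_ag.Q6.TDefs

/-!
# Theorem Q7, products of projective spaces: definitions

`X` has `m + 2` coordinates, the forms have `N = m + s` variables, divided into `s` blocks (the homogeneous coordinates of
`ℙ^{a_1} × … × ℙ^{a_s}`), `t` has `m` entries.
-/

set_option autoImplicit false

namespace MP2619.Q6

open scoped NNReal
open IntermediateField MP2619.R MP2619.N Pool.Agent.Lib.MP_2619d0_ag Pool.Agent.Lib.MP_2619d0_ag.T
  MP2619.Q5

/-- Blocks of coordinates: `bl j` is the block of the coordinate `j`, `wt j` its weight; the weights in a block are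
different, the base coordinate `o i` of the block `i` has weight zero, and the other coordinates are numbered by `Fin m`. -/
structure Bk (m N s : ℕ) where
  bl : Fin N → Fin s
  wt : Fin N → ℕ
  o : Fin s → Fin N
  bo : ∀ i, bl (o i) = i
  wo : ∀ i, wt (o i) = 0
  inj : ∀ j j', bl j = bl j' → wt j = wt j' → j = j'
  ix : {j : Fin N // wt j ≠ 0} ≃ Fin m

namespace Bk

variable {m N s : ℕ} (K : Bk m N s)

/-- the block diagonal part of `G` -/
def bd {R : Type} [Zero R] (G : Fin N → Fin N → R) : Fin N → Fin N → R :=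
  fun i j => if K.bl i = K.bl j then G i j else 0

/-- the point `(1, t)` in every block -/
def T {M : Type} [One M] (t : Fin m → M) : Fin N → M :=
  fun j => if h : K.wt j ≠ 0 then t (K.ix ⟨j, h⟩) else 1

/-- the torus -/
def dg {M : Type} [Field M] (h : M) (T : Fin N → M) : Fin N → M :=
  fun j => (1 + h) ^ (K.wt j) * T j

/-- the point `G diag((1 + h)^j) (1, t)` -/
def pA {R M : Type} [Field R] [Field M] [Algebra R M] (G : Fin N → Fin N → R) (t : Fin m → M)
    (h : M) : Fin N → M := pt (K.bd G) (K.dg h (K.T t))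

/-- multihomogeneous of multidegree `d` -/
def MH {k : Type} [Field k] (f : MvPolynomial (Fin N) k) (d : Fin s → ℕ) : Prop :=
  ∀ e : Fin N →₀ ℕ, MvPolynomial.coeff e f ≠ 0 →
    ∀ i, ∑ j ∈ Finset.univ.filter (fun j => K.bl j = i), e j = d i

/-- the coordinates of a point of the product: no block is zero -/
def Nz {M : Type} [Zero M] (p : Fin N → M) : Prop := ∀ i, ∃ j, K.bl j = i ∧ p j ≠ 0

/-- the field generated by the ratios of coordinates in the same block -/
noncomputable def rt (k : Type) {M : Type} [Field k] [Field M] [Algebra k M] (p : Fin N → M) :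
    IntermediateField k M := adjoin k {z : M | ∃ i j, K.bl i = K.bl j ∧ z = p i / p j}

/-- division in every block by the coordinate `J i` -/
def nm {M : Type} [Field M] (J : Fin s → Fin N) (p : Fin N → M) : Fin N → M :=
  fun j => p j / p (J (K.bl j))

/-- at every point of the product some derivative of order at most one of some `f i` is not zero -/
def Mult1 {k : Type} [Field k] {n : ℕ} (f : Fin n → MvPolynomial (Fin N) k) : Prop :=
  ∀ (κ : Type) [Field κ] [Algebra k κ] (P0 : Fin N → κ), K.Nz P0 →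
    ∃ (i : Fin n) (d : Fin N →₀ ℕ), d.degree ≤ 1 ∧
      MvPolynomial.coeff d (MvPolynomial.aeval
        (fun j => MvPolynomial.C (P0 j) + MvPolynomial.X j : Fin N → MvPolynomial (Fin N) κ)
        (f i)) ≠ 0

/-- the same over `ℂ` -/
def MultC {n : ℕ} (f : Fin n → MvPolynomial (Fin N) ℂ) : Prop :=
  ∀ P0 : Fin N → ℂ, K.Nz P0 → ∃ (i : Fin n) (d : Fin N →₀ ℕ), d.degree ≤ 1 ∧
    MvPolynomial.coeff d (MvPolynomial.aeval
      (fun j => MvPolynomial.C (P0 j) + MvPolynomial.X j : Fin N → MvPolynomial (Fin N) ℂ)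
      (f i)) ≠ 0

/-- the statement for the generic point of `Y × 𝔸²` over `ℂ` (row L7: `pr_of_L`) -/
def PrAll (f : Fin (m + 2) → MvPolynomial (Fin N) ℂ) : Prop :=
  ∀ (Ω : Type) [Field Ω] [Algebra ℂ Ω] (t : Fin m → Ω) (α β : Ω),
    AlgebraicIndependent ℂ (Fin.cons α (Fin.cons β t) : Fin (m + 2) → Ω) →
    adjoin ℂ (Set.range (Fin.cons α (Fin.cons β t) : Fin (m + 2) → Ω)) = ⊤ →
    ∀ G : Fin N → Fin N → ℂ, (Matrix.of (K.bd G)).det ≠ 0 →
      ∀ w : ℂ, w ^ 2 + w + 1 = 0 → ∀ a : Fin (m + 2),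
      Pr ℂ (zg w (fun i => α * fe f (pt (K.bd G) (K.T t)) i)
        (fun i => β * fe f (pt (K.bd G) (K.T t)) i) (Pi.single a 1))

section

variable {k0 B M L : Type} [Field k0] [Field B] [Field M] [Field L]
  [Algebra k0 B] [Algebra k0 M] [Algebra B M] [Algebra B L]

/-- The torus path, `ε → 0`: a discrete valuation ring `P` of `M` with residue map `φ`, invariant under the symmetry `σ`.
`x = α f(p)`, `y = β f(p')`, `p = G (1, t)`, `p' = G diag((1 + ε)^j) (1, t)` in every block. -/
structure Esc (f : Fin (m + 2) → MvPolynomial (Fin N) k0)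
    (G : Fin N → Fin N → B) (ε : M) (t : Fin m → M) (α β : M) (σ : M ≃ₐ[B] M)
    (P : ValuationSubring M) (φ : P →+* L) (x y : Fin (m + 2) → P) (w : B) (a : Fin (m + 2)) :
    Prop where
  hom : ∃ d, ∀ i, K.MH (f i) d
  indG : AlgebraicIndependent k0 (fun q : Fin N × Fin N => G q.1 q.2)
  rm : RMap B P φ
  dv : DV P
  e0 : ε ≠ 0
  a0 : α ≠ 0
  b0 : β ≠ 0
  x0 : fe f (K.pA G t 0) ≠ 0
  x_eq : ∀ i, (x i : M) = α * fe f (K.pA G t 0) i
  y_eq : ∀ i, (y i : M) = β * fe f (K.pA G t ε) i
  s_e : σ ε * (1 + ε) = - ε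
  s_t : ∀ l, σ (t l) = (1 + ε) ^ (K.wt (K.ix.symm l).1) * t l
  s_a : σ α = β
  s_b : σ β = α
  s_s : ∀ z, σ (σ z) = z
  eps : P.valuation ε < 1
  sig : ∀ z : M, σ z ∈ P ↔ z ∈ P
  ind : AlgebraicIndependent B (zg w (fun i => φ (x i)) (fun i => φ (y i)) (Pi.single a 1))

end

end Bk

end MP2619.Q6
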