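import Pool.Agent.Lib.MP_2619d0_ag.Q5.G6
import Pool.Agent.Lib.MP_2619d0_ag.Q6.T5
import Pool.Agent.Lib.MP_2619d0_ag.Q6.T9
import Pool.Agent.Lib.MP_2619d0_ag.Q7.TDefs

/-!
Row q7-T5: values of multihomogeneous forms
-/

set_option autoImplicit false

namespace MP2619.Q6

open scoped NNReal
open IntermediateField MP2619.R MP2619.N Pool.Agent.Lib.MP_2619d0_ag Pool.Agent.Lib.MP_2619d0_ag.T
  MP2619.Q5

namespace Bk

variable {m N s : ℕ} (K : Bk m N s)

theorem wt_eq_zero (j : Fin N) (h : K.wt j = 0) : j = K.o (K.bl j) :=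
  K.inj _ _ (K.bo _).symm (h.trans (K.wo _).symm)

theorem o_inj : Function.Injective K.o := fun a b h => by
  rw [← K.bo a, ← K.bo b, h]

include K in
/-- the number of the coordinates -/
theorem card : N = m + s := by
  classical
  have h1 : Fintype.card {j : Fin N // K.wt j ≠ 0} = m := by
    rw [Fintype.card_congr K.ix, Fintype.card_fin]
  have h2 : Fintype.card {j : Fin N // K.wt j = 0} = s := by
    have e : Fin s ≃ {j : Fin N // K.wt j = 0} :=
      ⟨fun i => ⟨K.o i, K.wo i⟩, fun j => K.bl j.1, fun i => K.bo i,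
        fun j => Subtype.ext (K.wt_eq_zero j.1 j.2).symm⟩
    rw [← Fintype.card_congr e, Fintype.card_fin]
  have h3 := Fintype.card_subtype_compl (fun j : Fin N => K.wt j = 0)
  rw [Fintype.card_fin, h2] at h3
  have h4 : Fintype.card {j : Fin N // ¬ K.wt j = 0} = m := h1
  have h5 : s ≤ N := by
    have := Fintype.card_subtype_le (fun j : Fin N => K.wt j = 0)
    rw [h2, Fintype.card_fin] at this
    exact this
  omega

section point

variable {M : Type} [Field M]

theorem T_o (t : Fin m → M) (i : Fin s) : K.T t (K.o i) = 1 := by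
  unfold T
  rw [dif_neg (not_not.2 (K.wo i))]

theorem T_ix (t : Fin m → M) (l : Fin m) : K.T t (K.ix.symm l).1 = t l := by
  unfold T
  rw [dif_pos (K.ix.symm l).2]
  congr 1
  exact K.ix.apply_symm_apply l

theorem T_of (t : Fin m → M) (j : Fin N) (h : K.wt j ≠ 0) : K.T t j = t (K.ix ⟨j, h⟩) := by
  unfold T
  rw [dif_pos h]

theorem Nz_T (t : Fin m → M) : K.Nz (K.T t) := fun i =>
  ⟨K.o i, K.bo i, by rw [K.T_o]; exact one_ne_zero⟩

theorem dg_o (h : M) (T : Fin N → M) (i : Fin s) : K.dg h T (K.o i) = T (K.o i) := by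
  unfold dg
  rw [K.wo, pow_zero, one_mul]

theorem Nz_dg (h : M) (t : Fin m → M) : K.Nz (K.dg h (K.T t)) := fun i =>
  ⟨K.o i, K.bo i, by rw [K.dg_o, K.T_o]; exact one_ne_zero⟩

theorem dg_zero (T : Fin N → M) : K.dg 0 T = T := by
  funext j
  simp [dg]

theorem dg_bsmul (h : M) (c : Fin s → M) (T : Fin N → M) :
    K.dg h (fun j => c (K.bl j) * T j) = fun j => c (K.bl j) * K.dg h T j := by
  funext j
  unfold dg
  ring

theorem dg_dg (h h' : M) (T : Fin N → M) : K.dg h (K.dg h' T) = K.dg (h + h' + h * h') T := by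
  funext j
  unfold dg
  rw [← mul_assoc, ← mul_pow]
  congr 2
  ring

theorem pt_bsmul {R : Type} [Field R] [Algebra R M] (G : Fin N → Fin N → R) (c : Fin s → M)
    (T : Fin N → M) : pt (K.bd G) (fun j => c (K.bl j) * T j) =
      fun i => c (K.bl i) * pt (K.bd G) T i := by
  funext i
  unfold pt
  rw [Finset.mul_sum]
  refine Finset.sum_congr rfl fun j _ => ?_
  unfold bd
  by_cases h : K.bl i = K.bl j
  · rw [if_pos h, h]
    ring
  · rw [if_neg h, map_zero]
    ring

theorem pA_zero {R : Type} [Field R] [Algebra R M] (G : Fin N → Fin N → R) (t : Fin m → M) :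
    K.pA G t 0 = pt (K.bd G) (K.T t) := by
  unfold pA
  rw [K.dg_zero]

end point

section forms

variable {k M : Type} [Field k] [Field M] [Algebra k M] {n : ℕ} (f : Fin n → MvPolynomial (Fin N) k)

theorem fe_bsmul {d : Fin s → ℕ} (hd : ∀ i, K.MH (f i) d) (c : Fin s → M) (p : Fin N → M)
    (i : Fin n) : fe f (fun j => c (K.bl j) * p j) i = (∏ l, c l ^ d l) * fe f p i := by
  unfold fe
  rw [MvPolynomial.aeval_def, MvPolynomial.aeval_def, MvPolynomial.eval₂_eq',
    MvPolynomial.eval₂_eq', Finset.mul_sum]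
  refine Finset.sum_congr rfl fun e he => ?_
  have h1 := hd i e (MvPolynomial.mem_support_iff.1 he)
  have h2 : ∏ j, c (K.bl j) ^ e j = ∏ l, c l ^ d l := by
    rw [← Finset.prod_fiberwise_of_maps_to (s := Finset.univ) (t := Finset.univ) (g := K.bl)
      (fun j _ => Finset.mem_univ _)]
    refine Finset.prod_congr rfl fun l _ => ?_
    rw [← h1 l, ← Finset.prod_pow_eq_pow_sum]
    refine Finset.prod_congr rfl fun j hj => ?_
    rw [(Finset.mem_filter.1 hj).2]
  rw [← h2]
  simp only [mul_pow, Finset.prod_mul_distrib]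
  ring

theorem MH.hom {g : MvPolynomial (Fin N) k} {d : Fin s → ℕ} (h : K.MH g d) :
    g.IsHomogeneous (∑ i, d i) := by
  intro e he
  have h1 : Finsupp.weight (1 : Fin N → ℕ) e = e.degree := by
    rw [Finsupp.degree_eq_weight_one]
    rfl
  rw [h1, Finsupp.degree_eq_sum]
  rw [← Finset.sum_fiberwise_of_maps_to (s := Finset.univ) (t := Finset.univ) (g := K.bl)
    (fun j _ => Finset.mem_univ _)]
  exact Finset.sum_congr rfl fun i _ => h e he i

theorem MH.map {k' : Type} [Field k'] (φ : k →+* k') {g : MvPolynomial (Fin N) k}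
    {d : Fin s → ℕ} (h : K.MH g d) : K.MH (MvPolynomial.map φ g) d := by
  intro e he i
  refine h e (fun h0 => he ?_) i
  rw [MvPolynomial.coeff_map, h0, map_zero]

end forms

section norm

variable {M : Type} [Field M]

/-- normalisation in every block -/
theorem exists_nm (P : ValuationSubring M) (T : Fin N → M) (hT : K.Nz T) :
    ∃ J : Fin s → Fin N, (∀ i, K.bl (J i) = i) ∧ (∀ i, T (J i) ≠ 0) ∧ ∀ j, K.nm J T j ∈ P := by
  have h : ∀ i, ∃ j0, K.bl j0 = i ∧ T j0 ≠ 0 ∧ ∀ j, K.bl j = i → T j / T j0 ∈ P := by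
    intro i
    have h0 : (fun j => if K.bl j = i then T j else 0) ≠ 0 := by
      intro h1
      obtain ⟨j, hj, hj0⟩ := hT i
      have h2 := congrFun h1 j
      simp only [if_pos hj, Pi.zero_apply] at h2
      exact hj0 h2
    obtain ⟨j0, hj0, hP⟩ := exists_norm P _ h0
    have hb : K.bl j0 = i := by
      by_contra h1
      simp only [if_neg h1] at hj0
      exact hj0 rfl
    simp only [if_pos hb] at hj0 hP
    refine ⟨j0, hb, hj0, fun j hj => ?_⟩
    have h1 := hP j
    simpa only [if_pos hj] using h1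
  choose J hJ1 hJ2 hJ3 using h
  exact ⟨J, hJ1, hJ2, fun j => hJ3 _ j rfl⟩

theorem nm_mul (J : Fin s → Fin N) (T : Fin N → M) (hJ0 : ∀ i, T (J i) ≠ 0) (j : Fin N) :
    T (J (K.bl j)) * K.nm J T j = T j := by
  unfold nm
  rw [mul_div_cancel₀ _ (hJ0 _)]

theorem nm_J (J : Fin s → Fin N) (hJ : ∀ i, K.bl (J i) = i) (T : Fin N → M)
    (hJ0 : ∀ i, T (J i) ≠ 0) (i : Fin s) : K.nm J T (J i) = 1 := by
  unfold nm
  rw [hJ, div_self (hJ0 i)]

/-- the point in normalised coordinates -/
theorem pt_dg_nm {R : Type} [Field R] [Algebra R M] (G : Fin N → Fin N → R) (J : Fin s → Fin N)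
    (T : Fin N → M) (hJ0 : ∀ i, T (J i) ≠ 0) (h : M) (j : Fin N) :
    pt (K.bd G) (K.dg h T) j = T (J (K.bl j)) * pt (K.bd G) (K.dg h (K.nm J T)) j := by
  have h1 : T = fun j => T (J (K.bl j)) * K.nm J T j := funext fun j => (K.nm_mul J T hJ0 j).symm
  conv_lhs => rw [h1]
  rw [K.dg_bsmul h (fun i => T (J i)), K.pt_bsmul G (fun i => T (J i))]

/-- the forms in normalised coordinates -/
theorem fe_dg_nm {k R : Type} [Field k] [Field R] [Algebra k M] [Algebra R M] {n : ℕ}
    (f : Fin n → MvPolynomial (Fin N) k) {d : Fin s → ℕ} (hd : ∀ i, K.MH (f i) d)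
    (G : Fin N → Fin N → R) (J : Fin s → Fin N) (T : Fin N → M) (hJ0 : ∀ i, T (J i) ≠ 0) (h : M)
    (i : Fin n) : fe f (pt (K.bd G) (K.dg h T)) i =
      (∏ l, T (J l) ^ d l) * fe f (pt (K.bd G) (K.dg h (K.nm J T))) i := by
  have h1 : pt (K.bd G) (K.dg h T) = fun j => T (J (K.bl j)) *
      pt (K.bd G) (K.dg h (K.nm J T)) j := funext (K.pt_dg_nm G J T hJ0 h)
  rw [h1]
  exact K.fe_bsmul f hd (fun i => T (J i)) _ i

end norm

theorem exists_dv {k κ : Type} [Field k] [Field κ] [Algebra k κ] {n : ℕ}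
    {f : Fin n → MvPolynomial (Fin N) k} (hm : K.Mult1 f) (P0 : Fin N → κ) (hP : K.Nz P0)
    (hz : fe f P0 = 0) : ∃ i0, dv f i0 P0 ≠ 0 := by
  obtain ⟨i, d, hd, hc⟩ := hm κ P0 hP
  rw [← MvPolynomial.aeval_map_algebraMap κ] at hc
  obtain ⟨h0, h1⟩ := coeff_shift P0 (MvPolynomial.map (algebraMap k κ) (f i))
  have hd' : d = 0 ∨ ∃ i0, d = Finsupp.single i0 1 := by
    by_cases h : d = 0
    · exact Or.inl h
    · right
      obtain ⟨i0, hi0⟩ := Finsupp.ne_iff.1 h
      rw [Finsupp.coe_zero, Pi.zero_apply] at hi0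
      refine ⟨i0, ?_⟩
      have h2 : d.degree = ∑ j, d j := by
        rw [Finsupp.degree_eq_sum]
      rw [h2] at hd
      ext j
      rw [Finsupp.single_apply]
      have h3 := Finset.add_sum_erase Finset.univ (fun j => d j) (Finset.mem_univ i0)
      split_ifs with h4
      · subst h4
        omega
      · have h5 : d j ≤ ∑ x ∈ Finset.univ.erase i0, d x :=
          Finset.single_le_sum (f := fun x => d x) (fun _ _ => Nat.zero_le _)
            (Finset.mem_erase.2 ⟨fun h6 => h4 h6.symm, Finset.mem_univ j⟩)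
        omega
  rcases hd' with rfl | ⟨i0, rfl⟩
  · exfalso
    apply hc
    rw [h0, MvPolynomial.aeval_map_algebraMap]
    exact congrFun hz i
  · refine ⟨i0, fun h2 => hc ?_⟩
    rw [h1 i0, MvPolynomial.pderiv_map, MvPolynomial.aeval_map_algebraMap]
    exact congrFun h2 i

end Bk

end MP2619.Q6
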