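import Pool.Agent.Lib.MP_2619d0_ag.Q6.T6
import Pool.Agent.Lib.MP_2619d0_ag.Q7.T5

/-!
Row q7-T6: ratios
-/

set_option autoImplicit false

namespace MP2619.Q6

open scoped NNReal
open IntermediateField MP2619.R MP2619.N Pool.Agent.Lib.MP_2619d0_ag Pool.Agent.Lib.MP_2619d0_ag.T
  MP2619.Q5

namespace Bk

variable {m N s : ℕ} (K : Bk m N s) {k L : Type} [Field k] [Field L] [Algebra k L]

theorem div_mem_rt (p : Fin N → L) (i j : Fin N) (h : K.bl i = K.bl j) : p i / p j ∈ K.rt k p :=
  subset_adjoin _ _ ⟨i, j, h, rfl⟩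

theorem nm_mem_rt (J : Fin s → Fin N) (hJ : ∀ i, K.bl (J i) = i) (p : Fin N → L) (j : Fin N) :
    K.nm J p j ∈ K.rt k p := K.div_mem_rt p _ _ (hJ _).symm

theorem rt_le (p : Fin N → L) (E : IntermediateField k L)
    (h : ∀ i j, K.bl i = K.bl j → p i / p j ∈ E) : K.rt k p ≤ E := by
  unfold rt
  rw [IntermediateField.adjoin_le_iff]
  rintro _ ⟨i, j, hij, rfl⟩
  exact h i j hij

theorem rt_bsmul_le (c : Fin s → L) (p : Fin N → L) :
    K.rt k (fun j => c (K.bl j) * p j) ≤ K.rt k p := by
  refine K.rt_le _ _ fun i j hij => ?_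
  by_cases h0 : c (K.bl j) = 0
  · have h1 : c (K.bl j) * p j = 0 := by rw [h0, zero_mul]
    rw [h1, div_zero]
    exact zero_mem _
  · rw [hij, mul_div_mul_left _ _ h0]
    exact K.div_mem_rt p _ _ hij

/-- coordinates normalised in every block: `q j = p j / p (J (bl j))` (or `q j = p j = 0` if the block of `p` is zero); `p = c q` with
`c i = p (J i)` (or `1`), so `f (p) = c^d f (q)` and all `q j` are in `rt` -/
theorem rat_fe_le {n : ℕ} (f : Fin n → MvPolynomial (Fin N) k) {d : Fin s → ℕ}
    (hd : ∀ i, K.MH (f i) d) (p : Fin N → L) : rat k (fe f p) ≤ K.rt k p := by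
  classical
  have h : ∀ i : Fin s, ∃ c : L, c ≠ 0 ∧ ∀ j, K.bl j = i → p j / c ∈ K.rt k p := by
    intro i
    by_cases h0 : ∃ j0, K.bl j0 = i ∧ p j0 ≠ 0
    · obtain ⟨j0, hj0, hp⟩ := h0
      exact ⟨p j0, hp, fun j hj => K.div_mem_rt p _ _ (hj.trans hj0.symm)⟩
    · refine ⟨1, one_ne_zero, fun j hj => ?_⟩
      have h1 : p j = 0 := by
        by_contra h2
        exact h0 ⟨j, hj, h2⟩
      rw [h1, zero_div]
      exact zero_mem _
  choose c hc0 hc using h
  have h1 : p = fun j => c (K.bl j) * (p j / c (K.bl j)) := by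
    funext j
    rw [mul_div_cancel₀ _ (hc0 _)]
  have h2 : fe f p = fun i => (∏ l, c l ^ d l) * fe f (fun j => p j / c (K.bl j)) i := by
    funext i
    conv_lhs => rw [h1]
    exact K.fe_bsmul f hd c _ i
  rw [h2]
  refine (rat_smul_le _ _).trans ?_
  have h3 : ∀ i, fe f (fun j => p j / c (K.bl j)) i ∈ K.rt k p :=
    fun i => fe_mem f _ _ (fun j => hc _ j rfl) i
  conv_lhs => unfold rat
  rw [IntermediateField.adjoin_le_iff]
  rintro _ ⟨i, l, rfl⟩
  exact div_mem (h3 i) (h3 l)

/-- linear images -/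
theorem rt_pt_le (G : Fin N → Fin N → k) (p : Fin N → L) :
    K.rt k (pt (K.bd G) p) ≤ K.rt k p := by
  classical
  refine K.rt_le _ _ fun a b hab => ?_
  by_cases h0 : ∃ j0, K.bl j0 = K.bl b ∧ p j0 ≠ 0
  · obtain ⟨j0, hj0, hp⟩ := h0
    have key : ∀ a, K.bl a = K.bl b → pt (K.bd G) p a / p j0 ∈ K.rt k p := by
      intro a ha
      unfold pt
      rw [Finset.sum_div]
      refine sum_mem fun j _ => ?_
      unfold bd
      by_cases h : K.bl a = K.bl j
      · rw [if_pos h, mul_div_assoc]
        exact mul_mem (IntermediateField.algebraMap_mem _ _)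
          (K.div_mem_rt p _ _ (h.symm.trans (ha.trans hj0.symm)))
      · rw [if_neg h, map_zero, zero_mul, zero_div]
        exact zero_mem _
    rw [← div_div_div_cancel_right₀ hp]
    exact div_mem (key a hab) (key b rfl)
  · have h1 : pt (K.bd G) p b = 0 := by
      unfold pt
      refine Finset.sum_eq_zero fun j _ => ?_
      unfold bd
      by_cases h : K.bl b = K.bl j
      · have h2 : p j = 0 := by
          by_contra h3
          exact h0 ⟨j, h.symm, h3⟩
        rw [h2, mul_zero]
      · rw [if_neg h, map_zero, zero_mul]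
    rw [h1, div_zero]
    exact zero_mem _

/-- `rt k p` is generated by the `p j / p (J i)`, `j` in the block `i`, `j ≠ J i`, where `J i` is a coordinate of the block `i` with
`p (J i) ≠ 0` (if there is one; otherwise any, for example `o i`): `N - s = m` elements (`K.card`, `J` injective). -/
theorem trdeg_rt_le (p : Fin N → L) : Algebra.trdeg k (K.rt k p) ≤ m := by
  classical
  have h : ∀ i : Fin s, ∃ j0, K.bl j0 = i ∧ (p j0 = 0 → ∀ j, K.bl j = i → p j = 0) := by
    intro i
    by_cases h0 : ∃ j0, K.bl j0 = i ∧ p j0 ≠ 0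
    · obtain ⟨j0, hj0, hp⟩ := h0
      exact ⟨j0, hj0, fun h1 => absurd h1 hp⟩
    · refine ⟨K.o i, K.bo i, fun _ j hj => ?_⟩
      by_contra h2
      exact h0 ⟨j, hj, h2⟩
  choose J hJ hJ0 using h
  have hJi : Function.Injective J := fun a b hab => by rw [← hJ a, ← hJ b, hab]
  let S : Finset L := (Finset.univ \ Finset.univ.image J).image fun j => p j / p (J (K.bl j))
  have hS : S.card ≤ m := by
    refine Finset.card_image_le.trans ?_
    rw [Finset.card_sdiff_of_subset (Finset.subset_univ _), Finset.card_image_of_injective _ hJi,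
      Finset.card_univ, Finset.card_univ, Fintype.card_fin, Fintype.card_fin]
    have := K.card
    omega
  have hle : K.rt k p ≤ adjoin k (S : Set L) := by
    have h1 : ∀ j, p j / p (J (K.bl j)) ∈ adjoin k (S : Set L) := by
      intro j
      by_cases hj : j ∈ Finset.univ.image J
      · obtain ⟨i, -, rfl⟩ := Finset.mem_image.1 hj
        rw [hJ]
        by_cases h2 : p (J i) = 0
        · rw [h2, div_zero]
          exact zero_mem _
        · rw [div_self h2]
          exact one_mem _
      · refine subset_adjoin _ _ ?_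
        rw [Finset.mem_coe]
        exact Finset.mem_image.2 ⟨j, Finset.mem_sdiff.2 ⟨Finset.mem_univ _, hj⟩, rfl⟩
    refine K.rt_le _ _ fun i j hij => ?_
    by_cases h2 : p (J (K.bl j)) = 0
    · rw [hJ0 _ h2 j rfl, div_zero]
      exact zero_mem _
    · have h3 := div_mem (h1 i) (h1 j)
      rw [hij, div_div_div_cancel_right₀ h2] at h3
      exact h3
  have h4 : Algebra.trdeg k (K.rt k p) ≤ Algebra.trdeg k (adjoin k (S : Set L)) :=
    _root_.trdeg_le_of_injective (IntermediateField.inclusion hle)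
      (IntermediateField.inclusion hle).injective
  refine h4.trans ((trdeg_adjoin_finset S).trans ?_)
  exact_mod_cast hS

end Bk

end MP2619.Q6
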