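import Pool.Agent.Lib.MP_2619d0_ag.Q7.T5

/-!
Row q7-B0: block structures exist
-/

set_option autoImplicit false

namespace MP2619.Q6

open scoped NNReal
open IntermediateField MP2619.R MP2619.N Pool.Agent.Lib.MP_2619d0_ag Pool.Agent.Lib.MP_2619d0_ag.T
  MP2619.Q5

/-- the weight: the number of the earlier elements of the block -/
private def B0B_wt {N s : ℕ} (b : Fin N → Fin s) (j : Fin N) : ℕ :=
  (Finset.univ.filter (fun j' : Fin N => b j' = b j ∧ j' < j)).card

private theorem B0B_wt_lt {N s : ℕ} (b : Fin N → Fin s) {j j' : Fin N} (h : b j = b j')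
    (hlt : j < j') : B0B_wt b j < B0B_wt b j' := by
  unfold B0B_wt
  apply Finset.card_lt_card
  rw [Finset.ssubset_iff_of_subset]
  · refine ⟨j, ?_, ?_⟩
    · simp [h, hlt]
    · simp
  · intro i hi
    simp only [Finset.mem_filter, Finset.mem_univ, true_and] at hi ⊢
    exact ⟨hi.1.trans h, hi.2.trans hlt⟩

private theorem B0B_inj {N s : ℕ} (b : Fin N → Fin s) (j j' : Fin N) (h : b j = b j')
    (hw : B0B_wt b j = B0B_wt b j') : j = j' := by
  rcases lt_trichotomy j j' with h1 | h1 | h1
  · exact absurd hw (B0B_wt_lt b h h1).ne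
  · exact h1
  · exact absurd hw.symm (B0B_wt_lt b h.symm h1).ne

private theorem B0B_ex {N s : ℕ} (b : Fin N → Fin s) (hb : Function.Surjective b) (i : Fin s) :
    ∃ j : Fin N, b j = i ∧ B0B_wt b j = 0 := by
  classical
  have hne : (Finset.univ.filter (fun j : Fin N => b j = i)).Nonempty := by
    obtain ⟨j, hj⟩ := hb i
    exact ⟨j, by simp [hj]⟩
  obtain ⟨j, hj, hmin⟩ := Finset.exists_min_image _ (fun j => j) hne
  simp only [Finset.mem_filter, Finset.mem_univ, true_and] at hj hmin
  refine ⟨j, hj, ?_⟩
  unfold B0B_wt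
  rw [Finset.card_eq_zero, Finset.filter_eq_empty_iff]
  rintro j' - ⟨h1, h2⟩
  exact absurd h2 (not_lt.mpr (hmin j' (h1.trans hj)))

/-- `o i` = the smallest `j` with `b j = i`, `wt j` = the number of the `j' < j` with `b j' = b j` (in a block these numbers are different, and zero exactly for the smallest
element). `{j // wt j ≠ 0}` has `N - s = m` elements (the `j` with `wt j = 0` are the `o i`): `Fintype.equivFinOfCardEq`. -/
theorem exists_Bk {m N s : ℕ} (hN : N = m + s) (b : Fin N → Fin s)
    (hb : Function.Surjective b) : ∃ K : Bk m N s, K.bl = b := by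
  classical
  choose o ho hw using B0B_ex b hb
  have hc0 : Fintype.card {j : Fin N // B0B_wt b j = 0} = s := by
    have e : {j : Fin N // B0B_wt b j = 0} ≃ Fin s :=
      { toFun := fun j => b j.1
        invFun := fun i => ⟨o i, hw i⟩
        left_inv := by
          rintro ⟨j, hj⟩
          apply Subtype.ext
          exact B0B_inj b _ _ (ho (b j)) ((hw (b j)).trans hj.symm)
        right_inv := fun i => ho i }
    rw [Fintype.card_congr e, Fintype.card_fin]
  have hc : Fintype.card {j : Fin N // B0B_wt b j ≠ 0} = m := by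
    have h := Fintype.card_subtype_compl (fun j : Fin N => B0B_wt b j = 0)
    rw [hc0, Fintype.card_fin] at h
    have h2 : Fintype.card {j : Fin N // B0B_wt b j ≠ 0}
        = Fintype.card {j : Fin N // ¬ B0B_wt b j = 0} := rfl
    rw [h2, h]
    omega
  exact ⟨{ bl := b, wt := B0B_wt b, o := o, bo := ho, wo := hw, inj := B0B_inj b,
           ix := Fintype.equivFinOfCardEq hc }, rfl⟩

end MP2619.Q6
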