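import Pool.Agent.Lib.MP_2619d0_ag.Q6.L7
import Pool.Agent.Lib.MP_2619d0_ag.Q7.T5

/-!
Row Q7-L7: the main term for products of projective spaces
-/

set_option autoImplicit false

namespace MP2619.Q6

open MvPolynomial MP2619.R MP2619.N Pool.Agent.Lib.MP_2619d0_ag
  Pool.Agent.Lib.MP_2619d0_ag.T MP2619.T MP2619.Q5

universe u

open scoped IntermediateField.algebraAdjoinAdjoin in
private theorem L7B_trdeg {k : Type} {L : Type u} [Field k] [Field L] [Algebra k L] (S : Set L) :
    Algebra.trdeg k (IntermediateField.adjoin k S) ≤ Cardinal.mk S := by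
  have h1 : Algebra.trdeg k (Algebra.adjoin k S) ≤ Cardinal.mk S := by
    have h2 : Function.Surjective (MvPolynomial.aeval (fun s : S =>
        (⟨s.1, Algebra.subset_adjoin s.2⟩ : Algebra.adjoin k S)) :
          MvPolynomial S k →ₐ[k] Algebra.adjoin k S) := by
      rw [← AlgHom.range_eq_top, ← Algebra.adjoin_range_eq_range_aeval, eq_top_iff]
      rintro ⟨y, hy⟩ _
      have h3 : (Algebra.adjoin k (Set.range fun s : S =>
        (⟨s.1, Algebra.subset_adjoin s.2⟩ : Algebra.adjoin k S))).map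
          (Algebra.adjoin k S).val = Algebra.adjoin k S := by
        rw [AlgHom.map_adjoin]
        congr 1
        ext z
        constructor
        · rintro ⟨_, ⟨s, rfl⟩, rfl⟩
          exact s.2
        · intro hz
          exact ⟨_, ⟨⟨z, hz⟩, rfl⟩, rfl⟩
      have h4 := hy
      rw [← h3] at h4
      obtain ⟨y', hy', hyy⟩ := h4
      have : y' = ⟨y, hy⟩ := Subtype.ext hyy
      rw [← this]
      exact hy'
    have h3 := trdeg_le_of_surjective _ h2
    rwa [MvPolynomial.trdeg_of_isDomain, Cardinal.lift_id'.{0, u}] at h3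
  have h2 := trdeg_add_eq k (Algebra.adjoin k S) (A := IntermediateField.adjoin k S)
  have h3 : Algebra.trdeg (Algebra.adjoin k S) (IntermediateField.adjoin k S) = 0 := by
    rw [trdeg_eq_zero_iff]
    infer_instance
  rw [h3, add_zero] at h2
  rw [← h2]
  exact h1

namespace Bk

/-- scaling of the factors -/
theorem mh_smul {m N s : ℕ} (K : Bk m N s) {k : Type} {M : Type u} [Field k] [Field M]
    [Algebra k M] {e : Fin s → ℕ} {f : MvPolynomial (Fin N) k} (hf : K.MH f e) (c : Fin s → M)
    (v : Fin N → M) :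
    aeval (fun j => c (K.bl j) * v j) f = (∏ i, c i ^ e i) * aeval v f := by
  classical
  rw [aeval_def, eval₂_eq', aeval_def, eval₂_eq', Finset.mul_sum]
  refine Finset.sum_congr rfl fun d hd => ?_
  have h1 : ∏ j, (c (K.bl j) * v j) ^ d j = (∏ i, c i ^ e i) * ∏ j, v j ^ d j := by
    have h2 : ∏ j, (c (K.bl j) * v j) ^ d j = (∏ j, c (K.bl j) ^ d j) * ∏ j, v j ^ d j := by
      rw [← Finset.prod_mul_distrib]
      exact Finset.prod_congr rfl fun q _ => mul_pow _ _ _
    rw [h2]
    congr 1
    rw [← Finset.prod_fiberwise_of_maps_to (g := K.bl) (t := Finset.univ)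
      (fun j _ => Finset.mem_univ _)]
    refine Finset.prod_congr rfl fun i _ => ?_
    rw [← hf d (mem_support_iff.1 hd) i, ← Finset.prod_pow_eq_pow_sum]
    refine Finset.prod_congr rfl fun j hj => ?_
    rw [(Finset.mem_filter.1 hj).2]
  rw [h1]
  ring

/-- the coordinate `o i0` of a point with generic image is not zero -/
theorem coord_ne {D N s : ℕ} (K : Bk (D + 2) N s) (ha : ∀ i, ∃ j, K.bl j = i ∧ K.wt j ≠ 0)
    {F : MvPolynomial (Fin (D + 4)) ℂ} (hF : VG F)
    {e : Fin s → ℕ} (f : Fin (D + 4) → MvPolynomial (Fin N) ℂ) (hd : ∀ i, K.MH (f i) e)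
    {L : Type u} [Field L] [Algebra ℂ L] (p : Fin N → L) (hx : HG F (fun j => aeval p (f j)))
    (i0 : Fin s) : p (K.o i0) ≠ 0 := by
  classical
  intro h0
  -- the pivots
  have hpiv : ∀ i : Fin s, ∃ k : Fin N, K.bl k = i ∧ (p k = 0 → ∀ l, K.bl l = i → p l = 0) ∧
      (i = i0 → k ≠ K.o i0) := by
    intro i
    by_cases h1 : ∃ k, K.bl k = i ∧ p k ≠ 0
    · obtain ⟨k, hki, hk⟩ := h1
      refine ⟨k, hki, fun h2 => absurd h2 hk, ?_⟩
      rintro rfl rfl
      exact hk h0
    · push Not at h1
      obtain ⟨j, hj, hj1⟩ := ha i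
      refine ⟨j, hj, fun _ => h1, ?_⟩
      rintro rfl rfl
      exact hj1 (K.wo _)
  choose κ hκ0 hκ1 hκ2 using hpiv
  let c : Fin s → L := fun i => if p (κ i) = 0 then 1 else p (κ i)
  let v : Fin N → L := fun q => p q / c (K.bl q)
  have hc : ∀ i, c i ≠ 0 := by
    intro i
    by_cases h1 : p (κ i) = 0
    · simp only [c, if_pos h1]
      exact one_ne_zero
    · simp only [c, if_neg h1]
      exact h1
  have hpv : p = fun q => c (K.bl q) * v q := by
    funext q
    exact (mul_div_cancel₀ _ (hc (K.bl q))).symm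
  have hval : (fun j => aeval p (f j)) = fun j => (∏ i, c i ^ e i) * aeval v (f j) := by
    funext j
    conv_lhs => rw [hpv]
    exact K.mh_smul (hd j) c v
  have hcc : ∏ i, c i ^ e i ≠ 0 := Finset.prod_ne_zero_iff.2 fun i _ => pow_ne_zero _ (hc i)
  -- the generators
  let Q : Finset (Fin N) := (Finset.univ \ insert (K.o i0) (Finset.univ.image κ))
  have hcard : Q.card = D + 1 := by
    have h1 : K.o i0 ∉ Finset.univ.image κ := by
      intro h2
      rw [Finset.mem_image] at h2
      obtain ⟨i, -, h3⟩ := h2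
      have h4 : i = i0 := by
        rw [← hκ0 i, h3, K.bo]
      exact hκ2 _ h4 h3
    have hinj : Function.Injective κ := fun i j h => by
      rw [← hκ0 i, ← hκ0 j, h]
    rw [Finset.card_sdiff_of_subset (Finset.subset_univ _), Finset.card_insert_of_notMem h1,
      Finset.card_image_of_injective _ hinj, Finset.card_univ,
      Finset.card_univ, Fintype.card_fin, Fintype.card_fin]
    have h2 := K.card
    omega
  have hmem : ∀ q : Fin N, v q ∈ IntermediateField.adjoin ℂ (v '' (Q : Set (Fin N))) := by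
    intro q
    by_cases hq : q ∈ Q
    · exact IntermediateField.subset_adjoin _ _ ⟨q, hq, rfl⟩
    · have h1 : q ∈ insert (K.o i0) (Finset.univ.image κ) := by
        by_contra h2
        exact hq (Finset.mem_sdiff.2 ⟨Finset.mem_univ _, h2⟩)
      rcases Finset.mem_insert.1 h1 with h2 | h2
      · have h3 : v q = 0 := by
          show p q / _ = 0
          rw [h2, h0, zero_div]
        rw [h3]
        exact zero_mem _
      · rw [Finset.mem_image] at h2
        obtain ⟨i, -, rfl⟩ := h2
        by_cases h3 : p (κ i) = 0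
        · have h4 : v (κ i) = 0 := by
            show p (κ i) / _ = 0
            rw [h3, zero_div]
          rw [h4]
          exact zero_mem _
        · have h4 : v (κ i) = 1 := by
            show p (κ i) / (if p (κ (K.bl (κ i))) = 0 then 1 else p (κ (K.bl (κ i)))) = 1
            rw [hκ0, if_neg h3, div_self h3]
          rw [h4]
          exact one_mem _
  have hval2 : ∀ j, aeval v (f j) ∈ IntermediateField.adjoin ℂ (v '' (Q : Set (Fin N))) := by
    intro j
    have h1 : aeval v (f j) = algebraMap (IntermediateField.adjoin ℂ (v '' (Q : Set (Fin N)))) L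
        (aeval (fun q => (⟨v q, hmem q⟩ : IntermediateField.adjoin ℂ (v '' (Q : Set (Fin N))))) (f j)) :=
      MvPolynomial.aeval_algebraMap_apply L
        (fun q => (⟨v q, hmem q⟩ : IntermediateField.adjoin ℂ (v '' (Q : Set (Fin N))))) (f j)
    rw [h1]
    exact (aeval (fun q => (⟨v q, hmem q⟩ : IntermediateField.adjoin ℂ (v '' (Q : Set (Fin N)))))
      (f j)).2
  have hle : ratioField (fun j => aeval p (f j)) ≤
      IntermediateField.adjoin ℂ (v '' (Q : Set (Fin N))) := by
    rw [hval, ratioField_smul' _ hcc]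
    unfold ratioField
    rw [IntermediateField.adjoin_le_iff]
    rintro _ ⟨i, j, rfl⟩
    exact div_mem (hval2 i) (hval2 j)
  have htr : ((D + 2 : ℕ) : Cardinal.{u}) ≤ Cardinal.mk (v '' (Q : Set (Fin N))) :=
    le_trans (le_trans (MP2619.Q3.trdeg_ge (m := D + 2) hF _ hx)
      (trdeg_le_of_injective (IntermediateField.inclusion hle)
        (IntermediateField.inclusion_injective hle))) (L7B_trdeg _)
  have h3 : Cardinal.mk (v '' (Q : Set (Fin N))) ≤ ((D + 1 : ℕ) : Cardinal.{u}) := by
    have h4 := Cardinal.mk_image_le_lift (f := v) (s := (Q : Set (Fin N)))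
    rw [Cardinal.lift_id'.{0, u}] at h4
    refine h4.trans ?_
    rw [Finset.coe_sort_coe, Cardinal.mk_coe_finset, hcard]
    simp
  have h4 := htr.trans h3
  have h5 : D + 2 ≤ D + 1 := by exact_mod_cast h4
  omega

/-- the weights of the factors -/
private def wt7 {m N s : ℕ} (K : Bk m N s) (i : Fin s) : Fin N → ℕ :=
  fun q => if K.bl q = i then 1 else 0

private theorem wt7_eq {m N s : ℕ} (K : Bk m N s) (i : Fin s) (d : Fin N →₀ ℕ) :
    Finsupp.weight (wt7 K i) d = ∑ j ∈ Finset.univ.filter (fun j => K.bl j = i), d j := by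
  classical
  rw [Finsupp.weight_apply, Finsupp.sum_fintype _ _ (fun q => by simp), Finset.sum_filter]
  refine Finset.sum_congr rfl fun k _ => ?_
  simp [wt7]

private theorem mh_iff {m N s : ℕ} (K : Bk m N s) {k : Type} [Field k] {e : Fin s → ℕ}
    {f : MvPolynomial (Fin N) k} :
    K.MH f e ↔ ∀ i, IsWeightedHomogeneous (wt7 K i) f (e i) := by
  constructor
  · intro h i d hd
    rw [wt7_eq]
    exact h d hd i
  · intro h d hd i
    rw [← wt7_eq]
    exact h i hd

/-- a linear substitution in every factor -/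
theorem mh_lin {m N s : ℕ} (K : Bk m N s) {k : Type} [Field k] {e : Fin s → ℕ}
    {f : MvPolynomial (Fin N) k} (hf : K.MH f e) (G : Fin N → Fin N → k) :
    K.MH (aeval (fun j => ∑ l, C (K.bd G j l) * X l : Fin N → MvPolynomial (Fin N) k) f) e := by
  classical
  rw [mh_iff]
  intro i
  rw [aeval_def, eval₂_eq']
  refine IsWeightedHomogeneous.sum _ _ _ fun d hd => ?_
  have h1 : IsWeightedHomogeneous (wt7 K i)
      (∏ q : Fin N, (∑ l, C (K.bd G q l) * X l : MvPolynomial (Fin N) k) ^ d q)
      (∑ q : Fin N, d q • wt7 K i q) := by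
    refine IsWeightedHomogeneous.prod _ _ _ fun q _ => IsWeightedHomogeneous.pow ?_ _
    refine IsWeightedHomogeneous.sum _ _ _ fun l _ => ?_
    by_cases hl : K.bl q = K.bl l
    · have h2 := (isWeightedHomogeneous_C (wt7 K i) (K.bd G q l)).mul
        (isWeightedHomogeneous_X k (wt7 K i) l)
      rw [zero_add] at h2
      have h3 : wt7 K i l = wt7 K i q := by
        unfold wt7
        rw [hl]
      rw [h3] at h2
      exact h2
    · have h2 : K.bd G q l = 0 := by
        unfold bd
        rw [if_neg hl]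
      rw [h2, C_0, zero_mul]
      exact isWeightedHomogeneous_zero _ _ _
  have h2 : ∑ q : Fin N, d q • wt7 K i q = e i := by
    rw [← hf d (mem_support_iff.1 hd) i, ← wt7_eq, Finsupp.weight_apply,
      Finsupp.sum_fintype _ _ (fun q => by simp)]
  rw [h2] at h1
  have h3 := (isWeightedHomogeneous_C (wt7 K i) (coeff d f)).mul h1
  rw [zero_add] at h3
  exact h3

private theorem mh_hom {m N s : ℕ} (K : Bk m N s) {k : Type} [Field k] {e : Fin s → ℕ}
    {f : MvPolynomial (Fin N) k} (hf : K.MH f e) : f.IsHomogeneous (∑ i, e i) := by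
  classical
  intro d hd
  rw [Finsupp.weight_apply, Finsupp.sum_fintype _ _ (fun q => by simp),
    ← Finset.sum_fiberwise_of_maps_to (g := K.bl) (t := Finset.univ)
      (fun j _ => Finset.mem_univ _)]
  refine Finset.sum_congr rfl fun i _ => ?_
  rw [← hf d hd i]
  simp

/-- Row Q7-L7: reduction to `pr_of_L` (Q6/L7) by homogenisation of `φ (G (1, t))`. -/
theorem prAll_of_L {D N s : ℕ} (K : Bk (D + 2) N s) (ha : ∀ i, ∃ j, K.bl j = i ∧ K.wt j ≠ 0)
    {F : MvPolynomial (Fin (D + 4)) ℂ} (hF : VG F)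
    {e : Fin s → ℕ} (f : Fin (D + 4) → MvPolynomial (Fin N) ℂ) (hd : ∀ i, K.MH (f i) e)
    (h0 : aeval f F = 0) {L : Type u} [Field L] [Algebra ℂ L] (p : Fin N → L)
    (hx : HG F (fun j => aeval p (f j)))
    (hodd : Odd (Module.finrank (ratioField (fun j => aeval p (f j))) L)) : K.PrAll f := by
  classical
  intro Ω _ _ t α β hv hgen G hG w hw b
  -- the linear substitution
  let lin : Fin N → MvPolynomial (Fin N) ℂ := fun j => ∑ l, C (K.bd G j l) * X l
  let f1 : Fin (D + 4) → MvPolynomial (Fin N) ℂ := fun i => aeval lin (f i)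
  have hd1 : ∀ i, K.MH (f1 i) e := fun i => K.mh_lin (hd i) G
  -- the inverse matrix
  obtain ⟨Gi, hGi⟩ : ∃ Gi : Fin N → Fin N → ℂ, Matrix.of (K.bd G) * Matrix.of Gi = 1 :=
    ⟨fun j k => (Matrix.of (K.bd G))⁻¹ j k, Matrix.mul_nonsing_inv _ (Ne.isUnit hG)⟩
  let p1 : Fin N → L := fun q => ∑ k, algebraMap ℂ L (Gi q k) * p k
  have hlp : ∀ j, aeval p1 (lin j) = p j := by
    intro j
    change aeval p1 (∑ l, C (K.bd G j l) * X l) = _
    rw [map_sum]
    have h1 : ∀ l, aeval p1 (C (K.bd G j l) * X l) =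
        ∑ k, algebraMap ℂ L (K.bd G j l * Gi l k) * p k := by
      intro l
      rw [map_mul, aeval_C, aeval_X]
      change algebraMap ℂ L (K.bd G j l) * ∑ k, algebraMap ℂ L (Gi l k) * p k = _
      rw [Finset.mul_sum]
      refine Finset.sum_congr rfl fun k _ => ?_
      rw [map_mul, mul_assoc]
    simp only [h1]
    rw [Finset.sum_comm]
    have h2 : ∀ k, ∑ l, algebraMap ℂ L (K.bd G j l * Gi l k) * p k =
        algebraMap ℂ L ((1 : Matrix (Fin N) (Fin N) ℂ) j k) * p k := by
      intro k
      rw [← Finset.sum_mul, ← map_sum]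
      congr 2
      rw [← hGi, Matrix.mul_apply]
      rfl
    simp only [h2, Matrix.one_apply]
    rw [Finset.sum_eq_single j]
    · rw [if_pos rfl, map_one, one_mul]
    · intro k _ hk
      rw [if_neg (Ne.symm hk), map_zero, zero_mul]
    · intro h
      exact absurd (Finset.mem_univ j) h
  have hf1 : ∀ i, aeval p1 (f1 i) = aeval p (f i) := by
    intro i
    change aeval p1 (aeval lin (f i)) = _
    rw [MvPolynomial.comp_aeval_apply]
    simp only [hlp]
  have hx1 : HG F (fun j => aeval p1 (f1 j)) := by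
    simp only [hf1]
    exact hx
  have hc0 : ∀ i, p1 (K.o i) ≠ 0 := fun i => K.coord_ne ha hF f1 hd1 p1 hx1 i
  -- homogenisation
  let sub : Fin N → MvPolynomial (Fin (D + 3)) ℂ := fun j =>
    if h : K.wt j ≠ 0 then X (K.ix ⟨j, h⟩).succ else X 0
  have hsub : ∀ q, (sub q).IsHomogeneous 1 := by
    intro j
    by_cases h : K.wt j ≠ 0
    · simp only [sub, dif_pos h]
      exact isHomogeneous_X _ _
    · simp only [sub, dif_neg h]
      exact isHomogeneous_X _ _
  let f2 : Fin (D + 4) → MvPolynomial (Fin (D + 3)) ℂ := fun i => aeval sub (f1 i)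
  have hd2 : ∀ i, (f2 i).IsHomogeneous (∑ i, e i) := by
    intro i
    have h1 := (mh_hom K (hd1 i)).aeval sub hsub
    rwa [one_mul] at h1
  have h02 : aeval f2 F = 0 := by
    have h1 : aeval f1 F = 0 := by
      change aeval (fun i => aeval lin (f i)) F = 0
      rw [← MvPolynomial.comp_aeval_apply, h0, map_zero]
    change aeval (fun i => aeval sub (f1 i)) F = 0
    rw [← MvPolynomial.comp_aeval_apply, h1, map_zero]
  let r : Fin (D + 2) → L := fun l =>
    (p1 (K.o (K.bl (K.ix.symm l).1)))⁻¹ * p1 (K.ix.symm l).1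
  let p2 : Fin (D + 3) → L := Fin.cons 1 r
  have hsp : ∀ j, aeval p2 (sub j) = (p1 (K.o (K.bl j)))⁻¹ * p1 j := by
    intro j
    by_cases h : K.wt j ≠ 0
    · simp only [sub, dif_pos h, aeval_X]
      change r (K.ix ⟨j, h⟩) = _
      simp only [r, Equiv.symm_apply_apply]
    · simp only [sub, dif_neg h, aeval_X]
      change (1 : L) = _
      have h1 := K.wt_eq_zero j (not_not.1 h)
      rw [← h1]
      refine (inv_mul_cancel₀ ?_).symm
      rw [h1]
      exact hc0 _
  have hf2 : ∀ i, aeval p2 (f2 i) = (∏ i, (p1 (K.o i))⁻¹ ^ e i) * aeval p (f i) := by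
    intro i
    change aeval p2 (aeval sub (f1 i)) = _
    rw [MvPolynomial.comp_aeval_apply]
    simp only [hsp]
    rw [K.mh_smul (hd1 i) (fun i => (p1 (K.o i))⁻¹) p1, hf1]
  have hcc : ∏ i, (p1 (K.o i))⁻¹ ^ e i ≠ 0 :=
    Finset.prod_ne_zero_iff.2 fun i _ => pow_ne_zero _ (inv_ne_zero (hc0 i))
  have hx2 : HG F (fun j => aeval p2 (f2 j)) := by
    have h1 : (fun j => aeval p2 (f2 j)) =
        (∏ i, (p1 (K.o i))⁻¹ ^ e i) • (fun j => aeval p (f j)) := funext hf2
    rw [h1]
    exact HG_smul hx _ hcc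
  have hodd2 : Odd (Module.finrank (ratioField (fun j => aeval p2 (f2 j))) L) := by
    have h1 : (fun j => aeval p2 (f2 j)) =
        fun j => (∏ i, (p1 (K.o i))⁻¹ ^ e i) * (fun j => aeval p (f j)) j := funext hf2
    rw [h1, ratioField_smul' _ hcc]
    exact hodd
  have h := pr_of_L hF f2 hd2 h02 p2 hx2 hodd2 t α β hv hgen
    (fun i j => (1 : Matrix (Fin (D + 3)) (Fin (D + 3)) ℂ) i j) (by
      have h1 : (Matrix.of fun i j => (1 : Matrix (Fin (D + 3)) (Fin (D + 3)) ℂ) i j) = 1 := rfl
      rw [h1, Matrix.det_one]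
      exact one_ne_zero) w hw b
  have hpt : pt (fun i j => (1 : Matrix (Fin (D + 3)) (Fin (D + 3)) ℂ) i j)
      (Fin.cons 1 t : Fin (D + 3) → Ω) = Fin.cons 1 t := by
    funext i
    unfold pt
    simp only [Matrix.one_apply]
    rw [Finset.sum_eq_single i]
    · rw [if_pos rfl, map_one, one_mul]
    · intro k _ hk
      rw [if_neg (Ne.symm hk), map_zero, zero_mul]
    · intro h
      exact absurd (Finset.mem_univ i) h
  have hfe : ∀ i, fe f2 (Fin.cons 1 t : Fin (D + 3) → Ω) i = fe f (pt (K.bd G) (K.T t)) i := by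
    intro i
    change aeval (Fin.cons 1 t : Fin (D + 3) → Ω) (aeval sub (aeval lin (f i))) =
      aeval (pt (K.bd G) (K.T t)) (f i)
    rw [MvPolynomial.comp_aeval_apply, MvPolynomial.comp_aeval_apply]
    congr 2
    funext j
    change aeval _ (∑ l, C (K.bd G j l) * X l) = ∑ l, algebraMap ℂ Ω (K.bd G j l) * K.T t l
    rw [map_sum]
    refine Finset.sum_congr rfl fun l _ => ?_
    rw [map_mul, aeval_C, aeval_X]
    congr 1
    by_cases h : K.wt l ≠ 0
    · simp only [sub, dif_pos h, aeval_X]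
      rw [K.T_of t l h]
      rfl
    · simp only [sub, dif_neg h, aeval_X]
      unfold T
      rw [dif_neg h]
      rfl
  rw [hpt] at h
  simp only [hfe] at h
  exact h

end Bk

end MP2619.Q6
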