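import Pool.Agent.Lib.MP_2619d0_ag.Q6.N5
import Pool.Agent.Lib.MP_2619d0_ag.Q7.L7

/-!
Row Q7-N5: total degree at most four.
-/

set_option autoImplicit false

namespace MP2619.Q6

open MvPolynomial MP2619.R MP2619.N Pool.Agent.Lib.MP_2619d0_ag
  Pool.Agent.Lib.MP_2619d0_ag.T MP2619.T MP2619.Q5

universe u

open scoped IntermediateField.algebraAdjoinAdjoin in
private theorem N5B_trdeg {k : Type} {L : Type u} [Field k] [Field L] [Algebra k L] (S : Set L) :
    Algebra.trdeg k (IntermediateField.adjoin k S) ≤ Cardinal.mk S := by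
  have h1 : Algebra.trdeg k (Algebra.adjoin k S) ≤ Cardinal.mk S := by
    have h2 : Function.Surjective (MvPolynomial.aeval (fun s : S =>
        (⟨s.1, Algebra.subset_adjoin s.2⟩ : Algebra.adjoin k S)) :
          MvPolynomial S k →ₐ[k] Algebra.adjoin k S) := by
      rw [← AlgHom.range_eq_top, ← Algebra.adjoin_range_eq_range_aeval, eq_top_iff]
      rintro ⟨y, hy⟩ _
      have h3 : (Algebra.adjoin k (Set.range fun s : S =>
        (⟨s.1, Algebra.subset_adjoin s.2⟩ : Algebra.adjoin k S))).map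
          (Algebra.adjoin k S).val = Algebra.adjoin k S := by
        rw [AlgHom.map_adjoin]
        congr 1
        ext z
        constructor
        · rintro ⟨_, ⟨s, rfl⟩, rfl⟩
          exact s.2
        · intro hz
          exact ⟨_, ⟨⟨z, hz⟩, rfl⟩, rfl⟩
      have h4 := hy
      rw [← h3] at h4
      obtain ⟨y', hy', hyy⟩ := h4
      have : y' = ⟨y, hy⟩ := Subtype.ext hyy
      rw [← this]
      exact hy'
    have h3 := trdeg_le_of_surjective _ h2
    rwa [MvPolynomial.trdeg_of_isDomain, Cardinal.lift_id'.{0, u}] at h3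
  have h2 := trdeg_add_eq k (Algebra.adjoin k S) (A := IntermediateField.adjoin k S)
  have h3 : Algebra.trdeg (Algebra.adjoin k S) (IntermediateField.adjoin k S) = 0 := by
    rw [trdeg_eq_zero_iff]
    infer_instance
  rw [h3, add_zero] at h2
  rw [← h2]
  exact h1

/-- `final` without the factor `𝔸^r` -/
private theorem N5B_final {D : ℕ} (hD : 1 ≤ D) {N e : ℕ} {F : MvPolynomial (Fin (D + 4)) ℂ}
    (hF : VG F) {E L : Type u}
    [Field E] [Field L] [Algebra ℂ E] [Algebra ℂ L] [Algebra E L] [IsScalarTower ℂ E L]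
    (φ : Fin (D + 4) → MvPolynomial (Fin N) E) (hφ : ∀ j, (φ j).IsHomogeneous e)
    (h0 : aeval φ F = 0) (he : e ≤ 2) (p : Fin N → L) (hx : HG F (fun j => aeval p (φ j)))
    (hE : Algebra.trdeg ℂ E < ((D + 2 : ℕ) : Cardinal.{u})) :
    ¬ Odd (Module.finrank (ratioField (fun j => aeval p (φ j))) L) := by
  have hNS : MP2619.N.NoSum.{u} F := MP2619.N.noSum (n := D + 4) (by omega) hF
  have h1 := MP2619.Q3.final (m := D + 2) (r := 0) (Nat.le_add_left 1 (D + 1)) hF
    (MP2619.N.thirdOdd_of_noSum (m := D + 2) (Nat.le_add_left 1 (D + 1)) hF hNS) φ hφ h0 (Or.inl he) p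
    (fun j => aeval p (φ j)) rfl hx hE Fin.elim0
    (algebraicIndependent_empty_type_iff.2 (FaithfulSMul.algebraMap_injective _ _))
  have h2 : IntermediateField.adjoin (ratioField (fun j => aeval p (φ j)))
      (Set.range (Fin.elim0 : Fin 0 → L)) = ⊥ := by
    rw [Set.range_eq_empty, IntermediateField.adjoin_empty]
  rw [h2, IntermediateField.finrank_bot'] at h1
  exact h1

namespace Bk

/-- one of the degrees is at most two -/
theorem quad {D N s : ℕ} (hD : 1 ≤ D) (K : Bk (D + 2) N s)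
    (ha : ∀ i, ∃ j, K.bl j = i ∧ K.wt j ≠ 0)
    {F : MvPolynomial (Fin (D + 4)) ℂ} (hF : VG F)
    {e : Fin s → ℕ} (f : Fin (D + 4) → MvPolynomial (Fin N) ℂ) (hd : ∀ i, K.MH (f i) e)
    (h0 : aeval f F = 0) {L : Type u} [Field L] [Algebra ℂ L] (p : Fin N → L)
    (hx : HG F (fun j => aeval p (f j))) (i0 : Fin s) (hi0 : e i0 ≤ 2) :
    ¬ Odd (Module.finrank (ratioField (fun j => aeval p (f j))) L) := by
  classical
  have hc0 := K.coord_ne ha hF f hd p hx
  let v : Fin N → L := fun j => (p (K.o (K.bl j)))⁻¹ * p j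
  let Q : Finset (Fin N) := Finset.univ.filter fun j => K.bl j ≠ i0 ∧ K.wt j ≠ 0
  have hQ : Q.card ≤ D + 1 := by
    obtain ⟨j0, hj0, hj1⟩ := ha i0
    have h1 : Q ⊆ (Finset.univ.filter fun j => K.wt j ≠ 0).erase j0 := by
      intro j hj
      have h2 := (Finset.mem_filter.1 hj).2
      refine Finset.mem_erase.2 ⟨?_, Finset.mem_filter.2 ⟨Finset.mem_univ _, h2.2⟩⟩
      rintro rfl
      exact h2.1 hj0
    have h2 : (Finset.univ.filter fun j => K.wt j ≠ 0).card = D + 2 := by
      rw [← Fintype.card_subtype, Fintype.card_congr K.ix, Fintype.card_fin]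
    have h3 := Finset.card_le_card h1
    have hmem0 : j0 ∈ Finset.univ.filter (fun j => K.wt j ≠ 0) :=
      Finset.mem_filter.2 ⟨Finset.mem_univ _, hj1⟩
    rw [Finset.card_erase_of_mem hmem0, h2] at h3
    omega
  let E : IntermediateField ℂ L := IntermediateField.adjoin ℂ (v '' (Q : Set (Fin N)))
  have hmem : ∀ j, K.bl j ≠ i0 → v j ∈ E := by
    intro j hj
    by_cases h1 : K.wt j = 0
    · have h2 : v j = 1 := by
        have h3 := K.wt_eq_zero j h1
        show (p (K.o (K.bl j)))⁻¹ * p j = 1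
        rw [← h3]
        refine inv_mul_cancel₀ ?_
        rw [h3]
        exact hc0 _
      rw [h2]
      exact one_mem _
    · exact IntermediateField.subset_adjoin _ _
        ⟨j, Finset.mem_filter.2 ⟨Finset.mem_univ _, hj, h1⟩, rfl⟩
  have hE : Algebra.trdeg ℂ E < ((D + 2 : ℕ) : Cardinal.{u}) := by
    refine lt_of_le_of_lt (N5B_trdeg _) ?_
    have h3 : Cardinal.mk (v '' (Q : Set (Fin N))) ≤ ((D + 1 : ℕ) : Cardinal.{u}) := by
      have h4 := Cardinal.mk_image_le_lift (f := v) (s := (Q : Set (Fin N)))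
      rw [Cardinal.lift_id'.{0, u}] at h4
      refine h4.trans ?_
      rw [Finset.coe_sort_coe, Cardinal.mk_coe_finset, Cardinal.lift_natCast]
      exact_mod_cast hQ
    refine lt_of_le_of_lt h3 ?_
    exact_mod_cast (by omega : D + 1 < D + 2)
  let sub : Fin N → MvPolynomial (Fin N) E := fun j =>
    if h : K.bl j ≠ i0 then C ⟨v j, hmem j h⟩ else X j
  let φ : Fin (D + 4) → MvPolynomial (Fin N) E := fun i => aeval sub (f i)
  have hφ : ∀ i, (φ i).IsHomogeneous (e i0) := by
    intro i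
    change (aeval sub (f i)).IsHomogeneous (e i0)
    rw [aeval_def, eval₂_eq']
    refine IsHomogeneous.sum _ _ _ fun d hdi => ?_
    have h1 : (∏ j : Fin N, sub j ^ d j).IsHomogeneous
        (∑ j : Fin N, if K.bl j = i0 then d j else 0) := by
      refine IsHomogeneous.prod _ _ _ fun j _ => ?_
      by_cases h : K.bl j ≠ i0
      · simp only [sub, dif_pos h, if_neg h]
        rw [← C_pow]
        exact isHomogeneous_C _ _
      · have h2 := (isHomogeneous_X E j).pow (d j)
        rw [one_mul] at h2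
        simp only [sub, dif_neg h, if_pos (not_not.1 h)]
        exact h2
    rw [← Finset.sum_filter, hd i d (mem_support_iff.1 hdi) i0] at h1
    have h3 := (isHomogeneous_C (Fin N) (algebraMap ℂ E (coeff d (f i)))).mul h1
    rw [zero_add] at h3
    exact h3
  have hφ0 : aeval φ F = 0 := by
    change aeval (fun i => aeval sub (f i)) F = 0
    rw [← MvPolynomial.comp_aeval_apply, h0, map_zero]
  have hev : ∀ i, aeval v (φ i) = (∏ i, (p (K.o i))⁻¹ ^ e i) * aeval p (f i) := by
    intro i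
    have h1 : ((aeval v : MvPolynomial (Fin N) E →ₐ[E] L).restrictScalars ℂ).comp
        (aeval sub : MvPolynomial (Fin N) ℂ →ₐ[ℂ] MvPolynomial (Fin N) E) =
        (aeval v : MvPolynomial (Fin N) ℂ →ₐ[ℂ] L) := by
      apply MvPolynomial.algHom_ext
      intro j
      by_cases h : K.bl j ≠ i0
      · simp only [AlgHom.coe_comp, Function.comp_apply, aeval_X, sub, dif_pos h,
          AlgHom.coe_restrictScalars', algHom_C]
        rfl
      · simp only [AlgHom.coe_comp, Function.comp_apply, aeval_X, sub, dif_neg h,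
          AlgHom.coe_restrictScalars']
    have h2 : aeval v (φ i) = aeval v (f i) := DFunLike.congr_fun h1 (f i)
    rw [h2]
    exact K.mh_smul (hd i) (fun i => (p (K.o i))⁻¹) p
  have hcc : ∏ i, (p (K.o i))⁻¹ ^ e i ≠ 0 :=
    Finset.prod_ne_zero_iff.2 fun i _ => pow_ne_zero _ (inv_ne_zero (hc0 i))
  have hx' : (fun i => aeval v (φ i)) =
      fun i => (∏ i, (p (K.o i))⁻¹ ^ e i) * (fun j => aeval p (f j)) i := funext hev
  have hHG : HG F (fun i => aeval v (φ i)) := by
    rw [hx']
    exact HG_smul hx _ hcc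
  have h1 := N5B_final hD hF φ hφ hφ0 hi0 v hHG hE
  rw [hx', ratioField_smul' _ hcc] at h1
  exact h1

/-- the total degree is at most four and some base point is multiple -/
theorem low {D N s : ℕ} (hD : 1 ≤ D) (K : Bk (D + 2) N s)
    (ha : ∀ i, ∃ j, K.bl j = i ∧ K.wt j ≠ 0)
    {F : MvPolynomial (Fin (D + 4)) ℂ} (hF : VG F)
    {e : Fin s → ℕ} (f : Fin (D + 4) → MvPolynomial (Fin N) ℂ) (hd : ∀ i, K.MH (f i) e)
    (he : ∑ i, e i ≤ 4) (h0 : aeval f F = 0) (hm : ¬ K.MultC f) {L : Type u} [Field L]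
    [Algebra ℂ L] (p : Fin N → L) (hx : HG F (fun j => aeval p (f j))) :
    ¬ Odd (Module.finrank (ratioField (fun j => aeval p (f j))) L) := by
  classical
  by_cases h2 : ∃ i, e i ≤ 2
  · obtain ⟨i, hi⟩ := h2
    exact K.quad hD ha hF f hd h0 p hx i hi
  push Not at h2
  have hN := K.card
  have hs1 : s = 1 := by
    rcases Nat.lt_or_ge s 1 with h3 | h3
    · have h4 : s = 0 := by omega
      subst h4
      have h5 : 0 < N := by omega
      exact (K.bl ⟨0, h5⟩).elim0
    · by_contra h4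
      have h5 : ∑ i : Fin s, 3 ≤ ∑ i, e i := Finset.sum_le_sum fun i _ => h2 i
      simp at h5
      omega
  subst hs1
  subst hN
  have hd' : ∀ i, (f i).IsHomogeneous (∑ i, e i) := by
    intro i d hdi
    rw [Finsupp.weight_apply, Finsupp.sum_fintype _ _ (fun q => by simp),
      ← Finset.sum_fiberwise_of_maps_to (g := K.bl) (t := Finset.univ)
        (fun j _ => Finset.mem_univ _)]
    refine Finset.sum_congr rfl fun l _ => ?_
    rw [← hd i d hdi l]
    simp
  refine deg4 hD hF f he hd' h0 ?_ p hx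
  intro hmc
  apply hm
  intro P0 hP0
  refine hmc P0 ?_
  rintro rfl
  obtain ⟨j, -, hj⟩ := hP0 0
  exact hj rfl

end Bk

end MP2619.Q6
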