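import Pool.Agent.Lib.MP_2619d0_ag.Q7.TDefs

/-!
Row q7-N5a: from the complex numbers to all extensions (Nullstellensatz)
-/

set_option autoImplicit false

namespace MP2619.Q6

open scoped NNReal
open IntermediateField MP2619.R MP2619.N Pool.Agent.Lib.MP_2619d0_ag Pool.Agent.Lib.MP_2619d0_ag.T
  MP2619.Q5

private theorem N5aB_map {N : ℕ} {k A B : Type} [Field k] [CommRing A] [CommRing B] [Algebra k A]
    [Algebra k B] (φ : A →ₐ[k] B) (P : Fin N → A) (p : MvPolynomial (Fin N) k) :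
    MvPolynomial.map (φ : A →+* B) (MvPolynomial.aeval
      (fun j => MvPolynomial.C (P j) + MvPolynomial.X j : Fin N → MvPolynomial (Fin N) A) p) =
      MvPolynomial.aeval
        (fun j => MvPolynomial.C (φ (P j)) + MvPolynomial.X j : Fin N → MvPolynomial (Fin N) B)
        p := by
  have h : (MvPolynomial.mapAlgHom φ).comp (MvPolynomial.aeval
      (fun j => MvPolynomial.C (P j) + MvPolynomial.X j : Fin N → MvPolynomial (Fin N) A)) =
      (MvPolynomial.aeval
        (fun j => MvPolynomial.C (φ (P j)) + MvPolynomial.X j : Fin N → MvPolynomial (Fin N) B) :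
        MvPolynomial (Fin N) k →ₐ[k] MvPolynomial (Fin N) B) := by
    apply MvPolynomial.algHom_ext
    intro j
    simp [MvPolynomial.mapAlgHom_apply]
  exact DFunLike.congr_fun h p

private theorem N5aB_hom {k A : Type} [Field k] [CommRing A] [Nontrivial A] [Algebra k A]
    [Algebra.FiniteType k A] [Algebra k ℂ] : Nonempty (A →ₐ[k] ℂ) := by
  obtain ⟨m, hm⟩ := Ideal.exists_maximal A
  let _ : Field (A ⧸ m) := Ideal.Quotient.field m
  have hft : Algebra.FiniteType k (A ⧸ m) :=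
    Algebra.FiniteType.of_surjective (Ideal.Quotient.mkₐ k m) (Ideal.Quotient.mkₐ_surjective k m)
  have hfin : Module.Finite k (A ⧸ m) := finite_of_finite_type_of_isJacobsonRing k (A ⧸ m)
  have halg : Algebra.IsAlgebraic k (A ⧸ m) := Algebra.IsAlgebraic.of_finite k (A ⧸ m)
  exact ⟨(IsAlgClosed.lift : (A ⧸ m) →ₐ[k] ℂ).comp (Ideal.Quotient.mkₐ k m)⟩

/-- Copy of `mult1_of_C` (Q6/N5a.lean). `K.Nz P0`: choose `J i` in the block `i` with `P0 (J i) ≠ 0`; the algebra `A` is generated by the `P0 j` and the `(P0 (J i))⁻¹`. -/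
theorem mult1_of_CB {m N s : ℕ} (K : Bk m N s) {k0 : Type} [Field k0] [Algebra k0 ℂ] {n : ℕ}
    (f0 : Fin n → MvPolynomial (Fin N) k0)
    (h : K.MultC (fun i => MvPolynomial.map (algebraMap k0 ℂ) (f0 i))) : K.Mult1 f0 := by
  classical
  intro κ _ _ P0 hP0
  choose J hJ hJ0 using hP0
  let A : Subalgebra k0 κ := Algebra.adjoin k0 (Set.range P0 ∪ Set.range fun i => (P0 (J i))⁻¹)
  have hP : ∀ j, P0 j ∈ A := fun j => Algebra.subset_adjoin (Or.inl ⟨j, rfl⟩)
  have hQ : ∀ i, (P0 (J i))⁻¹ ∈ A := fun i => Algebra.subset_adjoin (Or.inr ⟨i, rfl⟩)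
  have hft : Algebra.FiniteType k0 A :=
    A.fg_iff_finiteType.1 (Subalgebra.fg_def.2
      ⟨_, (Set.finite_range P0).union (Set.finite_range _), rfl⟩)
  obtain ⟨g⟩ : Nonempty (A →ₐ[k0] ℂ) := N5aB_hom
  let PA : Fin N → A := fun j => ⟨P0 j, hP j⟩
  have hP1 : K.Nz (fun j => g (PA j)) := by
    intro i
    refine ⟨J i, hJ i, fun h0 => ?_⟩
    have h1 : PA (J i) * (⟨(P0 (J i))⁻¹, hQ i⟩ : A) = 1 := Subtype.ext (mul_inv_cancel₀ (hJ0 i))
    have h2 := congrArg g h1
    rw [map_mul, map_one, show g (PA (J i)) = 0 from h0, zero_mul] at h2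
    exact zero_ne_one h2
  obtain ⟨i, m, hm, hc⟩ := h _ hP1
  refine ⟨i, m, hm, fun h0 => hc ?_⟩
  have e1 := N5aB_map g PA (f0 i)
  have e2 := N5aB_map A.val PA (f0 i)
  have h1 : MvPolynomial.coeff m (MvPolynomial.aeval
      (fun j => MvPolynomial.C (PA j) + MvPolynomial.X j : Fin N → MvPolynomial (Fin N) A)
      (f0 i)) = 0 := by
    have h2 := congrArg (MvPolynomial.coeff m) e2
    rw [MvPolynomial.coeff_map] at h2
    exact Subtype.ext (h2.trans h0)
  rw [MvPolynomial.aeval_map_algebraMap, ← e1, MvPolynomial.coeff_map, h1, map_zero]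

end MP2619.Q6
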