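import Pool.Agent.Lib.MP_2619d0_ag.Q7.M13
import Pool.Agent.Lib.MP_2619d0_ag.Q6.RE
import Pool.Agent.Lib.MP_2619d0_ag.Q7.L7
import Pool.Agent.Lib.MP_2619d0_ag.Q7.N5a
import Pool.Agent.Lib.MP_2619d0_ag.Q7.N5

/-!
# Theorem Q7: parametrisations of a very general cubic of even dimension by products of projective spaces
-/

set_option autoImplicit false

namespace MP2619.Q6

open MvPolynomial MP2619.R MP2619.N Pool.Agent.Lib.MP_2619d0_ag
  Pool.Agent.Lib.MP_2619d0_ag.T MP2619.T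

universe u

theorem q7_final {q N s : ℕ} (K : Bk (2 * q + 2 + 2) N s)
    (ha : ∀ i, ∃ j, K.bl j = i ∧ K.wt j ≠ 0)
    {F : MvPolynomial (Fin (2 * q + 2 + 4)) ℂ} (hF : VG F)
    (f : Fin (2 * q + 2 + 4) → MvPolynomial (Fin N) ℂ)
    {e : Fin s → ℕ} (hd : ∀ i, K.MH (f i) e) (h0 : aeval f F = 0)
    (hc : (∃ i, e i ≤ 2) ∨ ∑ i, e i ≤ 4 ∨ K.MultC f)
    {L : Type u} [Field L] [Algebra ℂ L] (p : Fin N → L)
    (hx : HG F (fun j => aeval p (f j))) :
    ¬ Odd (Module.finrank (ratioField (fun j => aeval p (f j))) L) := by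
  intro hodd
  rcases hc with ⟨i, hi⟩ | hc
  · exact K.quad (by omega) ha hF f hd h0 p hx i hi hodd
  by_cases hm : K.MultC f
  · have hf : ∃ i, f i ≠ 0 := by
      obtain ⟨i, m, -, h⟩ := hm (fun _ => 1) (fun i => ⟨K.o i, K.bo i, one_ne_zero⟩)
      exact ⟨i, fun h1 => h (by rw [h1, map_zero, coeff_zero])⟩
    exact q7_core (mm := 2 * q + 2 + 2) K (RE_holds q) (by omega) (q + 2) (by omega) hF f hd hf h0
      hm (fun k0 _ _ f0 h => mult1_of_CB K f0 h) (K.prAll_of_L ha hF f hd h0 p hx hodd)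
  · exact K.low (by omega) ha hF f hd (hc.resolve_right hm) h0 hm p hx hodd

end MP2619.Q6
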