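import Pool.Agent.Lib.MP_2619d0_ag.Q6.M11
import Pool.Agent.Lib.MP_2619d0_ag.Q7.T6

/-!
Row q7-M11: the data of the paths
-/

set_option autoImplicit false

namespace MP2619.Q6

open scoped NNReal
open IntermediateField MP2619.R MP2619.N Pool.Agent.Lib.MP_2619d0_ag Pool.Agent.Lib.MP_2619d0_ag.T
  MP2619.Q5

private theorem M11B_smul {k M σ : Type} [Fintype σ] [Field k] [Field M] [Algebra k M] {d : ℕ}
    (F : MvPolynomial σ k) (hd : F.IsHomogeneous d) (c : M) (p : σ → M) :
    MvPolynomial.aeval (fun j => c * p j) F = c ^ d * MvPolynomial.aeval p F := by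
  rw [MvPolynomial.aeval_def, MvPolynomial.aeval_def, MvPolynomial.eval₂_eq',
    MvPolynomial.eval₂_eq', Finset.mul_sum]
  refine Finset.sum_congr rfl fun m hm => ?_
  have h1 : m.degree = d := by
    by_contra h
    exact (MvPolynomial.mem_support_iff.1 hm) (hd.coeff_eq_zero h)
  have h2 : ∏ j, c ^ m j = c ^ d := by
    rw [Finset.prod_pow_eq_pow_sum, ← h1, Finsupp.degree_eq_sum]
  rw [← h2]
  simp only [mul_pow, Finset.prod_mul_distrib]
  ring

/-- `F0 (f) = 0` as a polynomial: evaluate at `p`, and use the homogeneity (copy of `eq_fe` in Q6/M11.lean, any number of variables). -/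
theorem eq_feB {m N : ℕ} {k M : Type} [Field k] [Field M] [Algebra k M]
    (F0 : MvPolynomial (Fin (m + 2)) k) {e : ℕ} (h3 : F0.IsHomogeneous e)
    (f : Fin (m + 2) → MvPolynomial (Fin N) k)
    (h0 : MvPolynomial.aeval f F0 = 0) (p : Fin N → M) (α : M) :
    MvPolynomial.aeval (fun i => α * fe f p i) F0 = 0 := by
  rw [M11B_smul F0 h3]
  have h1 := MvPolynomial.comp_aeval_apply (R := k) f (MvPolynomial.aeval p) F0
  rw [h0, map_zero] at h1
  have h2 : MvPolynomial.aeval (fe f p) F0 = 0 := h1.symm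
  rw [h2, mul_zero]

private theorem M11B_pt {m N s : ℕ} (K : Bk m N s) {B : Type} [Field B] (G : Fin N → Fin N → B)
    (a : Fin N) : pt (K.bd G) (K.T (fun _ => (0 : B))) a = G a (K.o (K.bl a)) := by
  unfold pt
  rw [Finset.sum_eq_single (K.o (K.bl a))]
  · rw [K.T_o, mul_one]
    unfold Bk.bd
    rw [if_pos (K.bo _).symm]
    rfl
  · intro j _ hj
    by_cases hb : K.bl a = K.bl j
    · have hw : K.wt j ≠ 0 := by
        intro h
        apply hj
        rw [hb]
        exact K.wt_eq_zero j h
      rw [K.T_of _ j hw, mul_zero]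
    · unfold Bk.bd
      rw [if_neg hb, map_zero, zero_mul]
  · intro h
    exact absurd (Finset.mem_univ _) h

/-- A non-zero multihomogeneous form does not vanish at `G (1, t)`, `t` algebraically independent. As `fe_ne` in Q6/M11.lean: the point `q` over the polynomial
ring `MvPolynomial (Fin m) B`, `q a = ∑ j, C (K.bd G a j) * K.T X j`; specialise `t ↦ 0`: the point `a ↦ G a (K.o (K.bl a))` (`K.T 0 = 1` at the `K.o i`, `0` elsewhere), whose `N`
coordinates are algebraically independent over `k0`. -/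
theorem fe_neB {m N s : ℕ} (K : Bk m N s) {k0 B M : Type} [Field k0] [Field B] [Field M]
    [Algebra k0 B] [Algebra B M]
    [Algebra k0 M] [IsScalarTower k0 B M] (f : Fin (m + 2) → MvPolynomial (Fin N) k0)
    (hf : ∃ i, f i ≠ 0) (G : Fin N → Fin N → B)
    (hG : AlgebraicIndependent k0 (fun q : Fin N × Fin N => G q.1 q.2)) (t : Fin m → M)
    (ht : AlgebraicIndependent B t) : fe f (pt (K.bd G) (K.T t)) ≠ 0 := by
  obtain ⟨i, hi⟩ := hf
  intro h0
  -- the point over the polynomial ring
  let q : Fin N → MvPolynomial (Fin m) B := fun a =>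
    ∑ j, MvPolynomial.C (K.bd G a j) *
      (K.T (MvPolynomial.X : Fin m → MvPolynomial (Fin m) B)) j
  have hev : ∀ (N' : Type) [Field N'] [Algebra B N'] [Algebra k0 N'] [IsScalarTower k0 B N']
      (s' : Fin m → N'), MvPolynomial.aeval s' (MvPolynomial.aeval q (f i)) =
        MvPolynomial.aeval (pt (K.bd G) (K.T s')) (f i) := by
    intro N' _ _ _ _ s'
    have h1 := MvPolynomial.comp_aeval_apply (R := k0) q
      ((MvPolynomial.aeval s' : MvPolynomial (Fin m) B →ₐ[B] N').restrictScalars k0) (f i)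
    rw [AlgHom.restrictScalars_apply] at h1
    rw [h1]
    congr 2
    funext a
    rw [AlgHom.restrictScalars_apply]
    simp only [q, pt, map_sum, map_mul]
    refine Finset.sum_congr rfl fun j _ => ?_
    rw [MvPolynomial.aeval_C]
    congr 1
    by_cases hw : K.wt j ≠ 0
    · unfold Bk.T
      rw [dif_pos hw, dif_pos hw, MvPolynomial.aeval_X]
    · unfold Bk.T
      rw [dif_neg hw, dif_neg hw, map_one]
  have hD : MvPolynomial.aeval q (f i) = 0 := by
    apply ht
    rw [map_zero, hev M t]
    exact congrFun h0 i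
  have h1 := hev B (fun _ => 0)
  rw [hD, map_zero] at h1
  have h2 : pt (K.bd G) (K.T (fun _ => (0 : B))) = fun a => G a (K.o (K.bl a)) := by
    funext a
    exact M11B_pt K G a
  rw [h2] at h1
  apply hi
  have h3 : AlgebraicIndependent k0 (fun a : Fin N => G a (K.o (K.bl a))) :=
    hG.comp (fun a : Fin N => ((a, K.o (K.bl a)) : Fin N × Fin N))
      (fun a b hab => (Prod.mk.inj hab).1)
  apply h3
  rw [map_zero]
  exact h1.symm

end MP2619.Q6
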