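import Pool.Agent.Lib.MP_2619d0_ag.Q5.G2
import Pool.Agent.Lib.MP_2619d0_ag.Q7.T6

/-!
Row q7-T3: general position
-/

set_option autoImplicit false

namespace MP2619.Q6

open scoped NNReal
open IntermediateField MP2619.R MP2619.N Pool.Agent.Lib.MP_2619d0_ag Pool.Agent.Lib.MP_2619d0_ag.T
  MP2619.Q5

/-- A field generated by a set is algebraic over the algebra generated by the set. -/
private theorem T3B_alg {K N : Type} [Field K] [Field N] [Algebra K N] (S : Set N) :
    Algebra.IsAlgebraic (Algebra.adjoin K ((fun x : adjoin K S => (x : N)) ⁻¹' S)) (adjoin K S) := by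
  have key : ∀ r ∈ Algebra.adjoin K S, ∃ r' ∈ Algebra.adjoin K
      ((fun x : adjoin K S => (x : N)) ⁻¹' S), (r' : N) = r := by
    intro r hr
    have h1 : (Algebra.adjoin K ((fun x : adjoin K S => (x : N)) ⁻¹' S)).map (adjoin K S).val =
        Algebra.adjoin K S := by
      rw [AlgHom.map_adjoin]
      congr 1
      ext y
      constructor
      · rintro ⟨x, hx, rfl⟩
        exact hx
      · intro hy
        exact ⟨⟨y, subset_adjoin K S hy⟩, hy, rfl⟩
    rw [← h1] at hr
    obtain ⟨r', hr', h2⟩ := hr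
    exact ⟨r', hr', h2⟩
  refine ⟨fun x => ?_⟩
  obtain ⟨r, hr, s, hs, hx⟩ := mem_adjoin_iff_div.1 x.2
  obtain ⟨r', hr', h1⟩ := key r hr
  obtain ⟨s', hs', h2⟩ := key s hs
  have h3 : x = r' * s'⁻¹ := by
    apply Subtype.ext
    push_cast
    rw [hx, h1, h2, div_eq_mul_inv]
  rw [h3]
  have h4 : IsAlgebraic (Algebra.adjoin K ((fun x : adjoin K S => (x : N)) ⁻¹' S)) r' :=
    isAlgebraic_algebraMap (⟨r', hr'⟩ : Algebra.adjoin K ((fun x : adjoin K S => (x : N)) ⁻¹' S))
  have h5 : IsAlgebraic (Algebra.adjoin K ((fun x : adjoin K S => (x : N)) ⁻¹' S)) s' :=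
    isAlgebraic_algebraMap (⟨s', hs'⟩ : Algebra.adjoin K ((fun x : adjoin K S => (x : N)) ⁻¹' S))
  exact h4.mul h5.inv

private theorem T3B_trdeg {K N : Type} [Field K] [Field N] [Algebra K N] {ι : Type} [Fintype ι]
    (s : ι → N) : Algebra.trdeg K (adjoin K (Set.range s)) ≤ (Fintype.card ι : ℕ) := by
  have := T3B_alg (K := K) (Set.range s)
  refine (Algebra.IsAlgebraic.trdeg_le_cardinalMk (R := K) (A := adjoin K (Set.range s))
    ((fun x : adjoin K (Set.range s) => (x : N)) ⁻¹' (Set.range s))).trans ?_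
  have h1 : Cardinal.mk ↑((fun x : adjoin K (Set.range s) => (x : N)) ⁻¹' (Set.range s)) ≤
      Cardinal.mk (Set.range s) :=
    Cardinal.mk_preimage_of_injective _ _ Subtype.val_injective
  refine h1.trans (Cardinal.mk_range_le.trans ?_)
  rw [Cardinal.mk_fintype]

private theorem T3B_add {k K L : Type} [Field k] [Field K] [Field L] [Algebra k K] [Algebra K L]
    [Algebra k L] [IsScalarTower k K L] :
    Algebra.trdeg k K + Algebra.trdeg K L = Algebra.trdeg k L :=
  trdeg_add_eq k K

private theorem T3B_basis {k0 B N : Type} [Field k0] [Field B] [Field N] [Algebra k0 B]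
    [Algebra B N] [Algebra k0 N] (K0 : IntermediateField k0 N) (m : ℕ)
    (hn : ¬ Algebra.trdeg B (adjoin B (K0 : Set N)) ≤ m) :
    ∃ b : Fin (m + 1) → K0, AlgebraicIndependent B (fun i => (b i : N)) := by
  have := T3B_alg (K := B) (K0 : Set N)
  obtain ⟨u, hu, hb⟩ := exists_isTranscendenceBasis_subset (R := B)
    (A := adjoin B (K0 : Set N))
    ((fun x : adjoin B (K0 : Set N) => (x : N)) ⁻¹' (K0 : Set N))
  have h1 := hb.cardinalMk_eq_trdeg
  have h2 : ((m + 1 : ℕ) : Cardinal) ≤ Cardinal.mk u := by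
    rw [h1]
    rw [not_le] at hn
    have := Order.succ_le_of_lt hn
    rw [Cardinal.succ_natCast] at this
    exact_mod_cast this
  have h3 : Cardinal.mk (Fin (m + 1)) ≤ Cardinal.mk u := by
    simpa using h2
  obtain ⟨e⟩ := h3
  refine ⟨fun i => ⟨(e i).1.1, hu (e i).2⟩, ?_⟩
  have h4 := (hb.1.comp e e.injective).map' (f := (adjoin B (K0 : Set N)).val) Subtype.val_injective
  exact h4

variable {k0 B L : Type} [Field k0] [Field B] [Field L] [Algebra k0 B] [Algebra B L]
  [Algebra k0 L] [IsScalarTower k0 B L]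

/-- Copy of `GP2` (Q6/T3.lean) with blocks. Suppose not: there are `δ + 1` elements `b` of `K0` algebraically independent over `B`
(`T3_basis`); `(b, G)` (`δ + 1 + N²` elements) is algebraically independent over `k0`. For every block `i` choose `l i` in the block with
`(pt (K.bd G) c) (l i) ≠ 0` (`hP0`) and `j0 i ∈ S` in the block with `c (j0 i) ≠ 0` (otherwise `pt (K.bd G) c = 0` on the block). Put
`Q a = pt (K.bd G) c a / pt (K.bd G) c (l (bl a)) ∈ K0` (`hr`), `ĉ j = c j / pt (K.bd G) c (l (bl j))`. All `b` and all `G a j` are in the field generated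
over `K0` by the `ĉ j`, `j ∈ S` (`≤ δ + s` elements) and the `G a j` with `j ≠ j0 (bl a)` (`N² - N` elements):
`G a (j0 (bl a)) = (Q a - ∑ G a j ĉ j) / ĉ (j0 (bl a))`, the sum over the `j ≠ j0` in the block of `a`. So
`δ + 1 + N² ≤ m + (δ + s) + (N² - N)`, a contradiction to `N = m + s` (`K.card`). -/
theorem GP2B {m N s : ℕ} (K : Bk m N s) (K0 : IntermediateField k0 L)
    (h : Algebra.trdeg k0 K0 ≤ m) (G : Fin N → Fin N → B)
    (hG : AlgebraicIndependent k0 (fun q : Fin N × Fin N => G q.1 q.2))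
    (c : Fin N → L) (hP0 : K.Nz (pt (K.bd G) c))
    (hr : ∀ i j, K.bl i = K.bl j → pt (K.bd G) c i / pt (K.bd G) c j ∈ K0) (δ : ℕ)
    (S : Finset (Fin N)) (hS : S.card ≤ δ + s) (h0 : ∀ j, j ∉ S → c j = 0) :
    Algebra.trdeg B (adjoin B (K0 : Set L)) ≤ δ := by
  classical
  by_contra hn
  obtain ⟨b, hb⟩ := T3B_basis K0 δ (by exact_mod_cast hn)
  choose l hbl hl using hP0
  have hj : ∀ i : Fin s, ∃ j, K.bl j = i ∧ c j ≠ 0 := by
    intro i
    by_contra hc
    push Not at hc
    apply hl i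
    unfold pt
    refine Finset.sum_eq_zero fun j _ => ?_
    by_cases hj : K.bl j = i
    · rw [hc j hj, mul_zero]
    · have h1 : K.bd G (l i) j = 0 := by
        unfold Bk.bd
        rw [if_neg]
        rw [hbl i]
        exact fun h => hj h.symm
      rw [h1, map_zero, zero_mul]
  choose j0 hj0 hc0 using hj
  set f : {q : Fin N × Fin N // q.2 ≠ j0 (K.bl q.1)} ⊕ S → L := Sum.elim
    (fun p => algebraMap B L (G p.1.1 p.1.2)) (fun a => c a.1 / pt (K.bd G) c (l (K.bl a.1))) with hf
  set E := adjoin K0 (Set.range f) with hE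
  have hfE : ∀ x, f x ∈ E := fun x => subset_adjoin K0 _ ⟨x, rfl⟩
  have hd : ∀ j, c j / pt (K.bd G) c (l (K.bl j)) ∈ E := by
    intro j
    by_cases hjS : j ∈ S
    · exact hfE (Sum.inr ⟨j, hjS⟩)
    · rw [h0 j hjS, zero_div]
      exact E.zero_mem
  have hK : ∀ x : K0, (x : L) ∈ E := fun x => E.algebraMap_mem x
  have hGa : ∀ i j, j ≠ j0 (K.bl i) → algebraMap B L (G i j) ∈ E :=
    fun i j h => hfE (Sum.inl ⟨(i, j), h⟩)
  have hG0 : ∀ i, algebraMap B L (G i (j0 (K.bl i))) ∈ E := by
    intro i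
    have hb0 : K.bd G i (j0 (K.bl i)) = G i (j0 (K.bl i)) := by
      unfold Bk.bd
      rw [if_pos (hj0 _).symm]
    have h1 : pt (K.bd G) c i = algebraMap B L (G i (j0 (K.bl i))) * c (j0 (K.bl i)) +
        ∑ j ∈ Finset.univ.erase (j0 (K.bl i)), algebraMap B L (K.bd G i j) * c j := by
      unfold pt
      rw [← Finset.add_sum_erase _ _ (Finset.mem_univ (j0 (K.bl i))), hb0]
    have h2 : algebraMap B L (G i (j0 (K.bl i))) = (pt (K.bd G) c i / pt (K.bd G) c (l (K.bl i)) -
        ∑ j ∈ Finset.univ.erase (j0 (K.bl i)), algebraMap B L (K.bd G i j) *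
          (c j / pt (K.bd G) c (l (K.bl i)))) /
          (c (j0 (K.bl i)) / pt (K.bd G) c (l (K.bl i))) := by
      rw [eq_div_iff (div_ne_zero (hc0 _) (hl _)), h1, eq_sub_iff_add_eq]
      rw [add_div, Finset.sum_div, mul_div_assoc]
      congr 1
      refine Finset.sum_congr rfl fun a _ => ?_
      rw [mul_div_assoc]
    rw [h2]
    refine E.div_mem (E.sub_mem (hK ⟨_, hr i (l (K.bl i)) (hbl _).symm⟩)
      (sum_mem fun j hj => ?_)) ?_
    · by_cases hij : K.bl i = K.bl j
      · have h3 : K.bd G i j = G i j := by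
          unfold Bk.bd
          rw [if_pos hij]
        rw [h3, hij]
        refine E.mul_mem (hGa i j ?_) (hd j)
        exact (Finset.mem_erase.1 hj).1
      · have h3 : K.bd G i j = 0 := by
          unfold Bk.bd
          rw [if_neg hij]
        rw [h3, map_zero, zero_mul]
        exact E.zero_mem
    · have h3 := hd (j0 (K.bl i))
      rwa [hj0] at h3
  have hGL : ∀ i j, algebraMap B L (G i j) ∈ E := by
    intro i j
    by_cases hij : j = j0 (K.bl i)
    · rw [hij]
      exact hG0 i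
    · exact hGa i j hij
  have hu := hG.sumElim_comp hb
  set u : Fin (δ + 1) ⊕ (Fin N × Fin N) → E :=
    Sum.elim (fun i => ⟨(b i : L), hK (b i)⟩)
    (fun q => ⟨algebraMap B L (G q.1 q.2), hGL q.1 q.2⟩) with hudef
  have hu' : AlgebraicIndependent k0 u := by
    refine AlgebraicIndependent.of_comp (E.val.restrictScalars k0) ?_
    convert hu using 1
    funext x
    rcases x with x | x <;> rfl
  have h28 := hu'.cardinalMk_le_trdeg
  set e := Fintype.card {q : Fin N × Fin N // q.2 ≠ j0 (K.bl q.1)} with he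
  have hcard : e + N ≤ N * N := by
    have h1 := Fintype.card_subtype_compl (fun q : Fin N × Fin N => q.2 = j0 (K.bl q.1))
    have h2 : N ≤ Fintype.card {q : Fin N × Fin N // q.2 = j0 (K.bl q.1)} := by
      have h3 := Fintype.card_le_of_injective
        (fun i : Fin N => (⟨(i, j0 (K.bl i)), rfl⟩ : {q : Fin N × Fin N // q.2 = j0 (K.bl q.1)}))
        (fun i i' h => congrArg (fun q => q.1.1) h)
      simpa using h3
    have h4 := Fintype.card_subtype_le (fun q : Fin N × Fin N => q.2 = j0 (K.bl q.1))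
    have h5 : e = Fintype.card {q : Fin N × Fin N // ¬ q.2 = j0 (K.bl q.1)} := rfl
    rw [h5, h1]
    simp only [Fintype.card_prod, Fintype.card_fin] at h4 ⊢
    omega
  have h23 : Algebra.trdeg K0 E ≤ ((e + (δ + s) : ℕ) : Cardinal) := by
    have h1 := T3B_trdeg (K := K0) f
    have h2 : Fintype.card ({q : Fin N × Fin N // q.2 ≠ j0 (K.bl q.1)} ⊕ S) ≤ e + (δ + s) := by
      rw [Fintype.card_sum, Fintype.card_coe]
      omega
    exact h1.trans (by exact_mod_cast h2)
  have hadd := T3B_add (k := k0) (K := K0) (L := E)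
  have h3 : Cardinal.mk (Fin (δ + 1) ⊕ (Fin N × Fin N)) =
      ((δ + 1 + N * N : ℕ) : Cardinal) := by
    rw [Cardinal.mk_fintype]
    simp only [Fintype.card_sum, Fintype.card_prod, Fintype.card_fin]
  rw [h3, ← hadd] at h28
  have h4 : Algebra.trdeg k0 K0 + Algebra.trdeg K0 E ≤
      ((m : ℕ) : Cardinal) + ((e + (δ + s) : ℕ) : Cardinal) :=
    add_le_add (by exact_mod_cast h) h23
  have h5 := h28.trans h4
  have h6 : δ + 1 + N * N ≤ m + (e + (δ + s)) := by exact_mod_cast h5
  have h7 := K.card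
  omega

end MP2619.Q6
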