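import Pool.Agent.Lib.MP_2619d0_ag.Q5.G1
import Pool.Agent.Lib.MP_2619d0_ag.Q7.T3
import Pool.Agent.Lib.MP_2619d0_ag.Q7.T21
import Pool.Agent.Lib.MP_2619d0_ag.Q7.T22a

/-!
Row q7-T22: the torus path at infinity
-/

set_option autoImplicit false

namespace MP2619.Q6

open scoped NNReal
open IntermediateField MP2619.R MP2619.N Pool.Agent.Lib.MP_2619d0_ag Pool.Agent.Lib.MP_2619d0_ag.T
  MP2619.Q5

variable {k0 B M L : Type} [Field k0] [Field B] [Field M] [Field L] [Algebra k0 B] [Algebra k0 M]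
  [Algebra k0 L] [Algebra B M] [Algebra B L] [IsScalarTower k0 B M] [IsScalarTower k0 B L]
  {P : ValuationSubring M} {φ : P →+* L} {m N s : ℕ}

private theorem T22B_mono {B L : Type} [Field B] [Field L] [Algebra B L]
    {E F : IntermediateField B L} (h : E ≤ F) : Algebra.trdeg B E ≤ Algebra.trdeg B F :=
  trdeg_le_of_injective (IntermediateField.inclusion h)
    (IntermediateField.inclusion_injective h)

/-- the quotient of residues is a residue of the quotient -/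
private theorem T22B_quot {k M L : Type} [Field k] [Field M] [Field L] [Algebra k M] [Algebra k L]
    {P : ValuationSubring M} {φ : P →+* L} (rm : RMap k P φ) (a b : P) (hb : φ b ≠ 0) :
    ∃ c : P, (c : M) = (a : M) / (b : M) ∧ φ c = φ a / φ b := by
  have hb1 : P.valuation (b : M) = 1 :=
    le_antisymm (P.valuation_le_one b) (not_lt.1 fun h => hb ((rm.zero b).2 h))
  have hb0 : (b : M) ≠ 0 := by
    intro h
    rw [h, map_zero] at hb1
    exact zero_ne_one hb1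
  have hm : (a : M) / (b : M) ∈ P := by
    rw [← ValuationSubring.valuation_le_one_iff, map_div₀, hb1, div_one]
    exact P.valuation_le_one a
  refine ⟨⟨(a : M) / (b : M), hm⟩, rfl, ?_⟩
  rw [eq_div_iff hb, ← map_mul]
  congr 1
  apply Subtype.ext
  exact div_mul_cancel₀ (a : M) hb0

private theorem T22B_main (K : Bk m N s) (f : Fin (m + 2) → MvPolynomial (Fin N) k0)
    {d : Fin s → ℕ} (hd : ∀ i, K.MH (f i) d) (G : Fin N → Fin N → B)
    (hG : AlgebraicIndependent k0 (fun q : Fin N × Fin N => G q.1 q.2))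
    (rm0 : RMap k0 P φ) (rm : RMap B P φ) (T : Fin N → M) (l : Fin s → M) (hl : ∀ i, l i ≠ 0)
    (U : Fin N → P) (hT : ∀ j, T j = l (K.bl j) * (U j : M)) (J : Fin s → Fin N)
    (hJb : ∀ i, K.bl (J i) = i)
    (hJ : ∀ i, φ (U (J i)) ≠ 0) (E : ℕ) (S : Finset (Fin N)) (hS : S.card ≤ E + s)
    (h0 : ∀ j, j ∉ S → φ (U j) = 0) (γ : M) (z : Fin (m + 2) → P)
    (hz : ∀ i, (z i : M) = γ * fe f (pt (K.bd G) T) i) :
    Algebra.trdeg B (rat B (fun i => φ (z i))) ≤ E := by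
  obtain ⟨q, hqM, hqN⟩ : ∃ q : Fin N → P,
      (∀ i, (q i : M) = pt (K.bd G) (fun j => (U j : M)) i) ∧
      ∀ i, φ (q i) = pt (K.bd G) (fun j => φ (U j)) i := by
    choose q h1 h2 using fun i => pt_res rm (K.bd G) U i
    exact ⟨q, h1, h2⟩
  have hp : ∀ i, pt (K.bd G) T i = l (K.bl i) * (q i : M) := by
    intro i
    have h1 : T = fun j => l (K.bl j) * (U j : M) := funext hT
    rw [h1, K.pt_bsmul G l (fun j => (U j : M)), hqM]
  have hK : Algebra.trdeg k0 (resI rm0 (K.rt k0 (pt (K.bd G) T))) ≤ m :=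
    trdeg_resI rm0 (K.rt k0 (pt (K.bd G) T)) m (K.trdeg_rt_le (pt (K.bd G) T))
  have hc : K.Nz (fun j => φ (U j)) := fun i => ⟨J i, hJb i, hJ i⟩
  have hP0 : K.Nz (pt (K.bd G) (fun j => φ (U j))) := pt_neB K G hG _ hc
  have hr : ∀ i j, K.bl i = K.bl j →
      pt (K.bd G) (fun j => φ (U j)) i / pt (K.bd G) (fun j => φ (U j)) j ∈
      resI rm0 (K.rt k0 (pt (K.bd G) T)) := by
    intro i j hij
    by_cases hj : pt (K.bd G) (fun j => φ (U j)) j = 0
    · rw [hj, div_zero]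
      exact (resI rm0 (K.rt k0 (pt (K.bd G) T))).zero_mem
    · rw [← hqN j] at hj
      obtain ⟨a, ha1, ha2⟩ := T22B_quot rm0 (q i) (q j) hj
      rw [mem_resI]
      refine ⟨a, ?_, ?_⟩
      · have h1 : (a : M) = pt (K.bd G) T i / pt (K.bd G) T j := by
          rw [ha1, hp i, hp j, hij, mul_div_mul_left _ _ (hl _)]
        rw [h1]
        exact K.div_mem_rt _ _ _ hij
      · rw [ha2, hqN i, hqN j]
  have h2 := GP2B K (resI rm0 (K.rt k0 (pt (K.bd G) T))) hK G hG (fun j => φ (U j)) hP0 hr E S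
    hS h0
  refine (T22B_mono ?_).trans h2
  refine (rat_base (k0 := k0) fun i => φ (z i)).trans (adjoin.mono B _ _ ?_)
  have hE : rat k0 (fun i => (z i : M)) ≤ K.rt k0 (pt (K.bd G) T) := by
    have h3 : (fun i => (z i : M)) = fun i => γ * fe f (pt (K.bd G) T) i := funext hz
    rw [h3]
    exact (rat_smul_le γ (fe f (pt (K.bd G) T))).trans (K.rat_fe_le f hd (pt (K.bd G) T))
  exact rat_resI rm0 z (K.rt k0 (pt (K.bd G) T)) hE

/-- the vector normalised in every block -/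
private theorem T22B_norm (K : Bk m N s) (rm : RMap B P φ) (T : Fin N → M) (hT : K.Nz T) :
    ∃ (l : Fin s → M) (U : Fin N → P) (J : Fin s → Fin N), (∀ i, l i ≠ 0) ∧
      (∀ j, T j = l (K.bl j) * (U j : M)) ∧ (∀ i, K.bl (J i) = i) ∧ ∀ i, φ (U (J i)) ≠ 0 := by
  obtain ⟨J, hJb, hJ0, hP⟩ := K.exists_nm P T hT
  refine ⟨fun i => T (J i), fun j => ⟨K.nm J T j, hP j⟩, J, hJ0, ?_, hJb, ?_⟩
  · intro j
    exact (K.nm_mul J T hJ0 j).symm
  · intro i
    have h1 : (⟨K.nm J T (J i), hP (J i)⟩ : P) = 1 := Subtype.ext (K.nm_J J hJb T hJ0 i)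
    show φ ⟨K.nm J T (J i), hP (J i)⟩ ≠ 0
    rw [h1, map_one]
    exact one_ne_zero

/-- Copy of `path_inf` (Q6/T22.lean). `T = K.T t`, `T' = K.dg ε T`. `K.exists_nm`: `J`, `J'`, `U = K.nm J T`, `U' = K.nm J' T'` in `P`, residues `τ`, `τ'` with a non-zero
coordinate in every block; `c i = T' (J' i) / T (J i)` in `supp_infB`: `r`. `supp_card`: the first or the second case. `P0 = pt (K.bd G) τ`, `K.Nz P0` (`pt_neB`).
First case: `resI rm0 (K.rt k0 p)`, `p = pt (K.bd G) T` (`K.pA_zero`), has `trdeg ≤ m` (`trdeg_resI`, `K.trdeg_rt_le`) and contains the ratios of `P0` in the blocks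
(`pt_res`, `K.pt_dg_nm` with `h = 0`); `GP2B` with `S = {j | wt j ≤ r (bl j)}`, `δ = E`; `rat B x̄ ≤ adjoin B K` (`rat_resI`, `K.rat_fe_le`, `rat_base`, `rat_smul_le`).
Second case: the same for `y`, `p' = pt (K.bd G) T'`, `S = {j | r (bl j) ≤ wt j}`. -/
theorem path_infB (K : Bk m N s) (f : Fin (m + 2) → MvPolynomial (Fin N) k0) {d : Fin s → ℕ}
    (hd : ∀ i, K.MH (f i) d) (G : Fin N → Fin N → B)
    (hG : AlgebraicIndependent k0 (fun q : Fin N × Fin N => G q.1 q.2))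
    (rm0 : RMap k0 P φ) (rm : RMap B P φ) (ε : M) (hε0 : ε ≠ 0)
    (hε : P.valuation ε⁻¹ < 1) (t : Fin m → M) (α β : M) (x y : Fin (m + 2) → P)
    (hx : ∀ i, (x i : M) = α * fe f (K.pA G t 0) i)
    (hy : ∀ i, (y i : M) = β * fe f (K.pA G t ε) i) (E : ℕ) (hE : m ≤ 2 * E) :
    Algebra.trdeg B (rat B (fun i => φ (x i))) ≤ E ∨
      Algebra.trdeg B (rat B (fun i => φ (y i))) ≤ E := by
  obtain ⟨l, U, J, hl, hU, hJb, hJ⟩ := T22B_norm K rm (K.T t) (K.Nz_T t)
  obtain ⟨l', U', J', hl', hU', hJb', hJ'⟩ := T22B_norm K rm (K.dg ε (K.T t)) (K.Nz_dg ε t)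
  obtain ⟨r, hr1, hr2⟩ := supp_infB (φ := φ) rm.zero K ε (fun i => l' i / l i)
    (fun i => div_ne_zero (hl' i) (hl i)) hε hε0 U U' (fun j => by
      have h1 := hU' j
      have h2 : K.dg ε (K.T t) j = (1 + ε) ^ (K.wt j) * K.T t j := rfl
      rw [h2, hU j] at h1
      show l' (K.bl j) / l (K.bl j) * (U' j : M) = _
      rw [div_mul_eq_mul_div, div_eq_iff (hl _), ← h1]
      ring)
  have hx' : ∀ i, (x i : M) = α * fe f (pt (K.bd G) (K.T t)) i := by
    intro i
    rw [hx i, K.pA_zero]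
  rcases supp_card K r E hE with h | h
  · left
    refine T22B_main K f hd G hG rm0 rm (K.T t) l hl U hU J hJb hJ E
      (Finset.univ.filter fun j => K.wt j ≤ r (K.bl j)) h ?_ α x hx'
    intro j hj
    by_contra h2
    exact hj (Finset.mem_filter.2 ⟨Finset.mem_univ j, hr1 j h2⟩)
  · right
    refine T22B_main K f hd G hG rm0 rm (K.dg ε (K.T t)) l' hl' U' hU' J' hJb' hJ' E
      (Finset.univ.filter fun j => r (K.bl j) ≤ K.wt j) h ?_ β y hy
    intro j hj
    by_contra h2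
    exact hj (Finset.mem_filter.2 ⟨Finset.mem_univ j, hr2 j h2⟩)

end MP2619.Q6
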