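import Pool.Agent.Lib.MP_2619d0_ag.Q7.M7
import Pool.Agent.Lib.MP_2619d0_ag.Q7.M8a
import Pool.Agent.Lib.MP_2619d0_ag.Q7.M12a
import Pool.Agent.Lib.MP_2619d0_ag.Q7.M11
import Pool.Agent.Lib.MP_2619d0_ag.Q6.M3

/-!
Row q7-M12: the contradiction
-/

set_option autoImplicit false

namespace MP2619.Q6

open scoped NNReal
open IntermediateField MP2619.R MP2619.N Pool.Agent.Lib.MP_2619d0_ag Pool.Agent.Lib.MP_2619d0_ag.T
  MP2619.Q5

variable {m N s : ℕ} {F : MvPolynomial (Fin (m + 2)) ℂ} {J : Type} {z : Exp3 (m + 2) ⊕ J → ℂ}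
  {A : Type} [Field A] [CharZero A] [Algebra ℂ A] {u l : Fin (m + 2) → A}
  {v2 : Valuation ℚ ℝ≥0} {V : Valuation A ℝ≥0}

private theorem M12B_frac (n : ℕ) (k : Type) [Field k] :
    ∃ (M : Type) (_ : Field M) (_ : Algebra k M) (v : Fin n → M), AlgebraicIndependent k v ∧
      adjoin k (Set.range v) = ⊤ := by
  refine ⟨FractionRing (MvPolynomial (Fin n) k), inferInstance, inferInstance,
    fun i => algebraMap (MvPolynomial (Fin n) k) (FractionRing (MvPolynomial (Fin n) k))
      (MvPolynomial.X i), ?_, ?_⟩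
  · have h := (MvPolynomial.algebraicIndependent_X (Fin n) k).map'
      (f := IsScalarTower.toAlgHom k (MvPolynomial (Fin n) k)
        (FractionRing (MvPolynomial (Fin n) k)))
      (IsFractionRing.injective (MvPolynomial (Fin n) k)
        (FractionRing (MvPolynomial (Fin n) k)))
    exact h
  · set v : Fin n → FractionRing (MvPolynomial (Fin n) k) :=
      fun i => algebraMap (MvPolynomial (Fin n) k) (FractionRing (MvPolynomial (Fin n) k))
        (MvPolynomial.X i) with hv
    have h1 : ∀ a : MvPolynomial (Fin n) k,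
        algebraMap (MvPolynomial (Fin n) k) (FractionRing (MvPolynomial (Fin n) k)) a ∈
          adjoin k (Set.range v) := by
      intro a
      induction a using MvPolynomial.induction_on with
      | C c =>
        have h2 : algebraMap (MvPolynomial (Fin n) k) (FractionRing (MvPolynomial (Fin n) k))
            (MvPolynomial.C c) = algebraMap k _ c := by
          rw [IsScalarTower.algebraMap_apply k (MvPolynomial (Fin n) k)
            (FractionRing (MvPolynomial (Fin n) k))]
          rfl
        rw [h2]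
        exact IntermediateField.algebraMap_mem _ _
      | add p q hp hq => rw [map_add]; exact add_mem hp hq
      | mul_X p i hp =>
        rw [map_mul]
        exact mul_mem hp (subset_adjoin _ _ ⟨i, rfl⟩)
    refine eq_top_iff.2 fun x _ => ?_
    obtain ⟨a, b, _, rfl⟩ := IsFractionRing.div_surjective (A := MvPolynomial (Fin n) k) x
    exact div_mem (h1 a) (h1 b)

/-- Copy of `q5_abs` (Q5/M12.lean), simpler: one datum `x = α f(pA G t 0)`, `y = β f(pA G t ε)`. `M` = a field with `v = (α, β, t)`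
algebraically independent over `k1` and generating (`FractionRing (MvPolynomial (Fin (m + 2)) k1)`); take it as an unspecified type (`obtain`),
with the algebra structures over `k0`, `B` given by composition through `k1`, and over `A` and `ℂ` too. `Dat` by `dat_path`, `eq_fe`; `fe_ne`.
`path_even` (`hB'`): `gc V w u x y` is even. `path_zero` (`hB`) with `hodd` from `main_odd` (`X i = f(pA G t 0) i`, `α`, `β` as elements of the
adjoin) and `pr_E`: it is odd. -/
theorem q7_abs (K : Bk m N s) (hR : RE (m + 2)) (hm3 : 3 ≤ m) (E : ℕ) (hE : m = 2 * E) (S : St F z u l v2 V)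
    (k1 : IntermediateField (Qz z) ℂ)
    (hk1 : FiniteDimensional (Qz z) k1) {k0 B : Type} [Field k0] [Field B]
    [Algebra k0 B] [Algebra k0 k1] [Algebra B k1] [IsScalarTower k0 B k1] (w0 : k0)
    (hw : w0 ^ 2 + w0 + 1 = 0)
    (f : Fin (m + 2) → MvPolynomial (Fin N) k0) {d : Fin s → ℕ} (hd : ∀ i, K.MH (f i) d)
    (hf : ∃ i, f i ≠ 0) (hmu : K.Mult1 f) (F0 : MvPolynomial (Fin (m + 2)) k0)
    (hF0 : MvPolynomial.map ((algebraMap k1 ℂ).comp (algebraMap k0 k1)) F0 = F)
    (h0 : MvPolynomial.aeval f F0 = 0) (j : J) (ε : k1) (hε0 : ε ≠ 0) (hB : BE z k1 B ε j)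
    (hB' : BE z k1 B ε⁻¹ j) (G : Fin N → Fin N → B)
    (hG : AlgebraicIndependent k0 (fun q : Fin N × Fin N => G q.1 q.2))
    (hPr : K.PrAll fun i => MvPolynomial.map ((algebraMap k1 ℂ).comp (algebraMap k0 k1)) (f i)) :
    False := by
  obtain ⟨M, iF, iA, v, hv, hgen⟩ := M12B_frac (m + 2) k1
  -- algebra structures
  let _ : Algebra k0 M := ((algebraMap k1 M).comp (algebraMap k0 k1)).toAlgebra
  let _ : Algebra B M := ((algebraMap k1 M).comp (algebraMap B k1)).toAlgebra
  let _ : Algebra B A := ((algebraMap k1 A).comp (algebraMap B k1)).toAlgebra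
  let _ : Algebra B ℂ := ((algebraMap k1 ℂ).comp (algebraMap B k1)).toAlgebra
  have t1 : IsScalarTower k0 k1 M := IsScalarTower.of_algebraMap_eq fun _ => rfl
  have t2 : IsScalarTower B k1 M := IsScalarTower.of_algebraMap_eq fun _ => rfl
  have t5 : IsScalarTower B k1 A := IsScalarTower.of_algebraMap_eq fun _ => rfl
  have t7 : IsScalarTower k0 B M := IsScalarTower.of_algebraMap_eq fun c => by
    show algebraMap k1 M (algebraMap k0 k1 c) = algebraMap k1 M (algebraMap B k1 (algebraMap k0 B c))
    rw [← IsScalarTower.algebraMap_apply k0 B k1]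
  -- the generators
  obtain ⟨α, hα⟩ : ∃ α : M, α = v 0 := ⟨_, rfl⟩
  obtain ⟨β, hβ⟩ : ∃ β : M, β = v 1 := ⟨_, rfl⟩
  obtain ⟨t, ht⟩ : ∃ t : Fin m → M, t = fun j => v j.succ.succ := ⟨_, rfl⟩
  have hcons : (Fin.cons α (Fin.cons β t) : Fin (m + 2) → M) = v := by
    rw [hα, hβ, ht]
    funext i
    refine Fin.cases rfl (fun i => ?_) i
    refine Fin.cases rfl (fun i => ?_) i
    rfl
  have hv' := hv
  have hgen' := hgen
  rw [← hcons] at hv' hgen'
  have htk : AlgebraicIndependent k1 t := by
    have h1 := hv.comp (fun j : Fin m => j.succ.succ)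
      (fun a b hab => Fin.succ_injective _ (Fin.succ_injective _ hab))
    rw [ht]
    exact h1
  have htB : AlgebraicIndependent B t := htk.restrictScalars (algebraMap B k1).injective
  have hvB : AlgebraicIndependent B (Fin.cons α (Fin.cons β t) : Fin (m + 2) → M) :=
    hv'.restrictScalars (algebraMap B k1).injective
  -- the root of unity
  obtain ⟨w, hww⟩ : ∃ w : k1, w = algebraMap k0 k1 w0 := ⟨_, rfl⟩
  have hwk : w ^ 2 + w + 1 = 0 := by
    have h1 := congrArg (algebraMap k0 k1) hw
    rw [map_add, map_add, map_pow, map_one, map_zero, ← hww] at h1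
    exact h1
  have hwB : algebraMap B k1 (algebraMap k0 B w0) = w := by
    rw [← IsScalarTower.algebraMap_apply, hww]
  have hwB2 : (algebraMap k0 B w0) ^ 2 + algebraMap k0 B w0 + 1 = 0 := by
    have h1 := congrArg (algebraMap k0 B) hw
    rw [map_add, map_add, map_pow, map_one, map_zero] at h1
    exact h1
  -- the form
  have hinj : Function.Injective ((algebraMap k1 ℂ).comp (algebraMap k0 k1)) :=
    RingHom.injective _
  have h3 : F0.IsHomogeneous 3 := by
    intro e hm0
    refine S.ctx.hom ?_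
    rw [← hF0, MvPolynomial.coeff_map]
    exact fun h1 => hm0 (hinj (h1.trans (map_zero _).symm))
  have hcomp : (algebraMap B ℂ).comp (algebraMap k0 B) =
      (algebraMap k1 ℂ).comp (algebraMap k0 k1) := by
    ext c
    show algebraMap k1 ℂ (algebraMap B k1 (algebraMap k0 B c)) =
      algebraMap k1 ℂ (algebraMap k0 k1 c)
    rw [← IsScalarTower.algebraMap_apply k0 B k1]
  have hFB : MvPolynomial.map ((algebraMap k1 ℂ).comp (algebraMap B k1))
      (MvPolynomial.map (algebraMap k0 B) F0) = F := by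
    rw [MvPolynomial.map_map, ← hF0]
    exact congrArg (fun q => MvPolynomial.map q F0) hcomp
  -- the points
  have hptG : pt (K.bd G) (K.T t) = K.pA G t 0 := (K.pA_zero G t).symm
  have hf0 : fe f (K.pA G t 0) ≠ 0 := by
    rw [← hptG]
    exact fe_neB K f hf G hG t htB
  let x : Fin (m + 2) → M := fun i => α * fe f (K.pA G t 0) i
  let y : Fin (m + 2) → M := fun i => β * fe f (K.pA G t (algebraMap k1 M ε)) i
  have hD : Dat F z k1 w x y := dat_path k1 hk1 w hwk F0 hF0 v hv hgen x y
    (eq_feB F0 h3 f h0 _ _) (eq_feB F0 h3 f h0 _ _)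
  -- the path at infinity
  have e1 : Even (gc V w u x y (Pi.single 0 1)) :=
    path_evenB K hR hm3 E hE S k1 w ε hε0 j hB' (algebraMap k0 B w0) hwB f ⟨d, hd⟩ G hG t α β x y
      (fun _ => rfl) (fun _ => rfl) hD 0
  -- the path at zero
  have e4 : Odd (gc V w u x y (Pi.single 0 1)) := by
    refine path_zeroB K hm3 S k1 hk1 w ε j hB hB' (algebraMap k0 B w0) hwB f ⟨d, hd⟩ hmu F0 h3 h0 hFB
      G hG t α β hv' hgen' hf0 x y (fun _ => rfl) (fun _ => rfl) hD 0 (fun x0 y0 hx0 hy0 => ?_)
    have hαm : α ∈ adjoin B (Set.range (Fin.cons α (Fin.cons β t) : Fin (m + 2) → M)) :=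
      subset_adjoin _ _ ⟨0, rfl⟩
    have hβm : β ∈ adjoin B (Set.range (Fin.cons α (Fin.cons β t) : Fin (m + 2) → M)) :=
      subset_adjoin _ _ ⟨1, rfl⟩
    have htm : ∀ j, t j ∈ adjoin B (Set.range (Fin.cons α (Fin.cons β t) : Fin (m + 2) → M)) :=
      fun j => subset_adjoin _ _ ⟨j.succ.succ, rfl⟩
    have hpm : ∀ j, K.pA G t 0 j ∈
        adjoin B (Set.range (Fin.cons α (Fin.cons β t) : Fin (m + 2) → M)) := by
      intro j
      rw [← hptG]
      refine sum_mem fun q _ => mul_mem ?_ ?_
      · exact IntermediateField.algebraMap_mem _ _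
      · by_cases h : K.wt q = 0
        · rw [K.wt_eq_zero q h, K.T_o]
          exact one_mem _
        · rw [K.T_of t q h]
          exact htm _
    have hXm : ∀ i, fe f (K.pA G t 0) i ∈
        adjoin B (Set.range (Fin.cons α (Fin.cons β t) : Fin (m + 2) → M)) := fun i =>
      fe_mem f ((adjoin B
        (Set.range (Fin.cons α (Fin.cons β t) : Fin (m + 2) → M))).restrictScalars k0) _ hpm i
    obtain ⟨X, hX⟩ : ∃ X : Fin (m + 2) →
        adjoin B (Set.range (Fin.cons α (Fin.cons β t) : Fin (m + 2) → M)),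
        ∀ i, (X i : M) = fe f (K.pA G t 0) i := ⟨fun i => ⟨_, hXm i⟩, fun _ => rfl⟩
    have hx0' : x0 = fun i => (⟨α, hαm⟩ : adjoin B _) * X i := by
      funext i
      apply Subtype.ext
      rw [hx0 i]
      show _ = α * (X i : M)
      rw [hX i]
    have hy0' : y0 = fun i => (⟨β, hβm⟩ : adjoin B _) * X i := by
      funext i
      apply Subtype.ext
      rw [hy0 i]
      show _ = β * (X i : M)
      rw [hX i]
    have hp := pr_EB K f (by rw [hcomp]; exact hPr) G hG (algebraMap k0 B w0) hwB2 t α β hvB 0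
      x0 y0 hx0 hy0
    rw [hx0', hy0'] at hp ⊢
    refine main_odd S k1 (algebraMap k0 B w0) hwB2 X _ _
      (MvPolynomial.map (algebraMap k0 B) F0) hFB ?_ 0 hp
    apply Subtype.ext
    have h5 := eq_feB F0 h3 f h0 (K.pA G t (0 : M)) 1
    have h6 : (fun i => (1 : M) * fe f (K.pA G t 0) i) = fun i => (X i : M) := by
      funext i
      rw [one_mul, hX i]
    rw [h6] at h5
    have h7 : ((MvPolynomial.aeval X (MvPolynomial.map (algebraMap k0 B) F0) :
        adjoin B (Set.range (Fin.cons α (Fin.cons β t) : Fin (m + 2) → M))) : M) =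
        MvPolynomial.aeval (fun i => (X i : M)) (MvPolynomial.map (algebraMap k0 B) F0) :=
      MvPolynomial.comp_aeval_apply X
        (adjoin B (Set.range (Fin.cons α (Fin.cons β t) : Fin (m + 2) → M))).val
        (MvPolynomial.map (algebraMap k0 B) F0)
    rw [h7, MvPolynomial.aeval_map_algebraMap, h5]
    rfl
  exact (Nat.not_even_iff_odd.2 e4) e1

end MP2619.Q6
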