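import Pool.Agent.Lib.MP_2619d0_ag.Q6.M9
import Pool.Agent.Lib.MP_2619d0_ag.Q6.M9b
import Pool.Agent.Lib.MP_2619d0_ag.Q7.M12

/-!
Row q7-M13: products of projective spaces, simple base points
-/

set_option autoImplicit false

namespace MP2619.Q6

open MP2619.Q5

variable {mm : ℕ}

open scoped NNReal
open IntermediateField MP2619.R MP2619.N Pool.Agent.Lib.MP_2619d0_ag Pool.Agent.Lib.MP_2619d0_ag.T

private theorem M13B_alg {K L : Type} [Field K] [Field L] [Algebra K ℂ] [Algebra L ℂ]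
    (h : ∀ b : K, ∃ c : L, algebraMap L ℂ c = algebraMap K ℂ b) {a : ℂ} (ha : IsAlgebraic K a) :
    IsAlgebraic L a := by
  obtain ⟨p, hp0, hp⟩ := ha
  have h1 : p.map (algebraMap K ℂ) ∈ Polynomial.lifts (algebraMap L ℂ) := by
    rw [Polynomial.lifts_iff_coeff_lifts]
    intro m
    rw [Polynomial.coeff_map]
    exact h _
  obtain ⟨q, hq⟩ := (Polynomial.mem_lifts _).1 h1
  refine ⟨q, ?_, ?_⟩
  · intro h0
    rw [h0, Polynomial.map_zero] at hq
    exact hp0 ((Polynomial.map_eq_zero _).1 hq.symm)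
  · rw [Polynomial.aeval_def, ← Polynomial.eval_map, hq, Polynomial.eval_map,
      ← Polynomial.aeval_def, hp]

private theorem M13B_ind {K L : Type} [Field K] [Field L] [Algebra K ℂ] [Algebra L ℂ] [Algebra K L]
    [IsScalarTower K L ℂ] {ι : Type} (x : ι → L)
    (h : AlgebraicIndependent K (fun i => algebraMap L ℂ (x i))) : AlgebraicIndependent K x :=
  AlgebraicIndependent.of_comp (IsScalarTower.toAlgHom K L ℂ) h

private theorem M13B_gen {B k : Type} [Field B] [Field k] [Algebra B ℂ] [Algebra k ℂ] [Algebra B k]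
    [IsScalarTower B k ℂ] (e : k)
    (h : ∀ c : k, algebraMap k ℂ c ∈ adjoin B ({algebraMap k ℂ e} : Set ℂ)) :
    adjoin B {e} = ⊤ := by
  rw [eq_top_iff]
  intro c _
  have h1 := h c
  have h2 : (adjoin B {e}).map (IsScalarTower.toAlgHom B k ℂ) =
      adjoin B ({algebraMap k ℂ e} : Set ℂ) := by
    rw [adjoin_map, Set.image_singleton]
    rfl
  rw [← h2] at h1
  obtain ⟨c', hc', h3⟩ := h1
  have h4 : c' = c := (algebraMap k ℂ).injective h3
  rw [← h4]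
  exact hc'

private theorem M13B_inv {B k : Type} [Field B] [Field k] [Algebra B k] (e : k)
    (h : adjoin B {e} = ⊤) : adjoin B {e⁻¹} = ⊤ := by
  rw [eq_top_iff, ← h, adjoin_simple_le_iff]
  have h1 := (adjoin B {e⁻¹}).inv_mem (mem_adjoin_simple_self B e⁻¹)
  rwa [inv_inv] at h1

private theorem M13B_lift {K : Type} [Field K] [Algebra K ℂ] {n : ℕ} (p : MvPolynomial (Fin n) ℂ)
    (h : ∀ m, ∃ c : K, algebraMap K ℂ c = MvPolynomial.coeff m p) :
    ∃ q : MvPolynomial (Fin n) K, MvPolynomial.map (algebraMap K ℂ) q = p := by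
  have h1 : p ∈ Set.range (MvPolynomial.map (σ := Fin n) (algebraMap K ℂ)) := by
    rw [MvPolynomial.mem_range_map_iff_coeffs_subset]
    intro x hx
    rw [Finset.mem_coe, MvPolynomial.mem_coeffs_iff] at hx
    obtain ⟨m, hm, rfl⟩ := hx
    exact h m
  exact h1

private theorem M13B_root : ∃ w : ℂ, w ^ 2 + w + 1 = 0 := by
  obtain ⟨r, hr⟩ := IsAlgClosed.exists_pow_nat_eq (-3 : ℂ) (n := 2) (by norm_num)
  refine ⟨(-1 + r) / 2, ?_⟩
  linear_combination (1 / 4) * hr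

private theorem M13B_fin {n m : ℕ} (f : Fin n → MvPolynomial (Fin m) ℂ) (w : ℂ) :
    ∃ cof : Set ℂ, cof.Finite ∧ w ∈ cof ∧ ∀ i d, MvPolynomial.coeff d (f i) ∈ cof := by
  classical
  refine ⟨insert w (insert 0 (⋃ i, (((f i).support.image fun d => MvPolynomial.coeff d (f i) :
    Finset ℂ) : Set ℂ))), ?_, Set.mem_insert _ _, ?_⟩
  · refine Set.Finite.insert _ (Set.Finite.insert _ ?_)
    exact Set.finite_iUnion fun i => Finset.finite_toSet _
  · intro i d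
    by_cases h : MvPolynomial.coeff d (f i) = 0
    · rw [h]
      exact Or.inr (Or.inl rfl)
    · refine Or.inr (Or.inr (Set.mem_iUnion.2 ⟨i, ?_⟩))
      rw [Finset.mem_coe, Finset.mem_image]
      exact ⟨d, MvPolynomial.mem_support_iff.2 h, rfl⟩

section M13B

variable {J : Type} (z : Exp3 (mm + 2) ⊕ J → ℂ) (cof : Set ℂ)

private theorem M13B_mem (T : Set J) (j : J) (hj : j ∉ T) : z (Sum.inr j) ∈ FK z cof T := by
  unfold FK
  refine subset_adjoin _ _ (Or.inl ⟨Sum.inr j, fun j' hj' h => hj ?_, rfl⟩)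
  rw [Sum.inr_injective h]
  exact hj'

private theorem M13B_inl (T : Set J) (d : Exp3 (mm + 2)) : z (Sum.inl d) ∈ FK z cof T := by
  unfold FK
  exact subset_adjoin _ _ (Or.inl ⟨Sum.inl d, fun j' _ h => Sum.inl_ne_inr h, rfl⟩)

private theorem M13B_cof (T : Set J) (c : ℂ) (hc : c ∈ cof) : c ∈ FK z cof T := by
  unfold FK
  exact subset_adjoin _ _ (Or.inr hc)

private theorem M13B_z1 (s : Exp3 (mm + 2) ⊕ J) : z s ∈ FK1 z cof :=
  (FK1 z cof).algebraMap_mem ⟨z s, subset_adjoin _ _ (Set.mem_range_self _)⟩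

private theorem M13B_anti {T T' : Set J} (h : T ⊆ T') (c : ℂ)
    (hc : IsAlgebraic (adjoin ℚ (z '' {s | ∀ j ∈ T', s ≠ Sum.inr j})) c) :
    IsAlgebraic (adjoin ℚ (z '' {s | ∀ j ∈ T, s ≠ Sum.inr j})) c := by
  refine M13B_alg (fun b => ⟨⟨b.1, ?_⟩, rfl⟩) hc
  refine adjoin.mono ℚ _ _ (Set.image_mono ?_) b.2
  intro s hs j hj
  exact hs j (h hj)

private theorem M13B_coeff {F : MvPolynomial (Fin (mm + 2)) ℂ} {A : Type} [Field A] [Algebra ℂ A]
    {u l : Fin (mm + 2) → A} (h : Ctx F z u l) (T : Set J) (d : Fin (mm + 2) →₀ ℕ) :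
    MvPolynomial.coeff d F ∈ FK z cof T := by
  classical
  by_cases hd : d.degree = 3
  · rw [h.cf ⟨d, hd⟩]
    refine add_mem ?_ (mul_mem (ofNat_mem _ 2) (M13B_inl z cof T _))
    split_ifs
    · exact one_mem _
    · exact zero_mem _
  · have h1 : MvPolynomial.coeff d F = 0 := by
      by_contra hne
      exact hd (by
        rw [Finsupp.degree_eq_weight_one]
        exact h.hom hne)
    rw [h1]
    exact zero_mem _

private theorem M13B_alg1 (T' : Set J)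
    (hga : ∀ c ∈ cof, IsAlgebraic (adjoin ℚ (z '' {s | ∀ j ∈ T', s ≠ Sum.inr j})) c) (j : J)
    (hj : j ∈ T') (b : ℂ) (hb : b ∈ FK z cof ({j} : Set J)) :
    IsAlgebraic (adjoin ℚ (z '' {s | s ≠ Sum.inr j})) b := by
  have hset : {s : Exp3 (mm + 2) ⊕ J | ∀ j' ∈ ({j} : Set J), s ≠ Sum.inr j'} = {s | s ≠ Sum.inr j} := by
    ext s
    simp
  have h1 := FK_alg z cof {j} (fun c hc => M13B_anti z (Set.singleton_subset_iff.2 hj) c (hga c hc))
    b hb
  rw [hset] at h1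
  exact h1

end M13B

section M13Bb

/-- the inclusions -/
private noncomputable def M13B_i {K K' : IntermediateField ℚ ℂ} (h : K ≤ K') : K →+* K' :=
  (inclusion h).toRingHom

variable {J : Type} {z : Exp3 (mm + 2) ⊕ J → ℂ}

private noncomputable def M13B_i1 {K : IntermediateField ℚ ℂ} {k1 : IntermediateField (Qz z) ℂ}
    (h : ∀ c ∈ K, c ∈ k1) : K →+* k1 :=
  (algebraMap K ℂ).codRestrict k1 fun c => h _ c.2

private theorem M13B_BE (K : IntermediateField ℚ ℂ) (k1 : IntermediateField (Qz z) ℂ) (j : J)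
    [Algebra K k1] [IsScalarTower K k1 ℂ]
    (ha : ∀ b ∈ K, IsAlgebraic (adjoin ℚ (z '' {s | s ≠ Sum.inr j})) b)
    (hg : ∀ c ∈ k1, c ∈ adjoin K ({z (Sum.inr j)} : Set ℂ)) (e : k1)
    (he : (e : ℂ) = z (Sum.inr j)) : BE z k1 K e j := by
  have hb : ∀ b : K, ((algebraMap K k1 b : k1) : ℂ) = b := fun b =>
    (IsScalarTower.algebraMap_apply K k1 ℂ b).symm
  refine ⟨fun b => ?_, M13B_gen e fun c => ?_, Or.inl he⟩
  · rw [hb b]
    exact ha b b.2
  · have h1 := hg c c.2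
    rw [← he] at h1
    exact h1

private theorem M13B_main {N s : ℕ} (K : Bk mm N s) (hR : RE (mm + 2)) (hm3 : 3 ≤ mm) (E : ℕ) (hE : mm = 2 * E)
    {F : MvPolynomial (Fin (mm + 2)) ℂ} {A : Type} [Field A] [CharZero A]
    [Algebra ℂ A] {u l : Fin (mm + 2) → A} {v2 : Valuation ℚ ℝ≥0} {V : Valuation A ℝ≥0}
    (S : St F z u l v2 V) (w : ℂ) (hw : w ^ 2 + w + 1 = 0)
    (f : Fin (mm + 2) → MvPolynomial (Fin N) ℂ)
    {d : Fin s → ℕ} (hd : ∀ i, K.MH (f i) d) (hf : ∃ i, f i ≠ 0)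
    (h0 : MvPolynomial.aeval f F = 0) (hm : K.MultC f)
    (hmult : ∀ (k0 : Type) [Field k0] [Algebra k0 ℂ]
      (f0 : Fin (mm + 2) → MvPolynomial (Fin N) k0),
      K.MultC (fun i => MvPolynomial.map (algebraMap k0 ℂ) (f0 i)) → K.Mult1 f0)
    (hPr : K.PrAll f) (K0 KE : IntermediateField ℚ ℂ) (k1 : IntermediateField (Qz z) ℂ)
    (hfin : FiniteDimensional (Qz z) k1) (h0E : K0 ≤ KE)
    (hE1 : ∀ c ∈ KE, c ∈ k1) (hw0 : w ∈ K0)
    (hf0 : ∀ i m, MvPolynomial.coeff m (f i) ∈ K0) (hF0 : ∀ m, MvPolynomial.coeff m F ∈ K0)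
    (je : J) (gG : Fin N × Fin N → J)
    (aE : ∀ b ∈ KE, IsAlgebraic (adjoin ℚ (z '' {s | s ≠ Sum.inr je})) b)
    (gE : ∀ c ∈ k1, c ∈ adjoin KE ({z (Sum.inr je)} : Set ℂ)) (mE : z (Sum.inr je) ∈ k1)
    (mG : ∀ q, z (Sum.inr (gG q)) ∈ KE)
    (iG : AlgebraicIndependent K0 fun q => z (Sum.inr (gG q))) : False := by
  classical
  let i2 : Algebra K0 KE := (M13B_i h0E).toAlgebra
  let i5 : Algebra K0 k1 := (M13B_i1 fun c hc => hE1 c (h0E hc)).toAlgebra
  let i7 : Algebra KE k1 := (M13B_i1 hE1).toAlgebra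
  have t3 : IsScalarTower K0 KE k1 := IsScalarTower.of_algebraMap_eq fun _ => rfl
  have t6 : IsScalarTower K0 KE ℂ := IsScalarTower.of_algebraMap_eq fun _ => rfl
  have t9 : IsScalarTower KE k1 ℂ := IsScalarTower.of_algebraMap_eq fun _ => rfl
  have hcomp : (algebraMap k1 ℂ).comp (algebraMap K0 k1) = algebraMap K0 ℂ := rfl
  -- the polynomials
  have hl : ∀ i, ∃ q : MvPolynomial (Fin N) K0, MvPolynomial.map (algebraMap K0 ℂ) q = f i :=
    fun i => M13B_lift (f i) fun m => ⟨⟨_, hf0 i m⟩, rfl⟩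
  choose f0 hff0 using hl
  obtain ⟨F0, hFF0⟩ : ∃ q : MvPolynomial (Fin (mm + 2)) K0,
      MvPolynomial.map (algebraMap K0 ℂ) q = F :=
    M13B_lift F fun m => ⟨⟨_, hF0 m⟩, rfl⟩
  have hff : (fun i => MvPolynomial.map (algebraMap K0 ℂ) (f0 i)) = f := funext hff0
  have hd0 : ∀ i, K.MH (f0 i) d := by
    intro i m hm1
    refine hd i m ?_
    rw [← hff0 i, MvPolynomial.coeff_map]
    exact fun h1 => hm1 ((map_eq_zero _).1 h1)
  have hne : ∃ i, f0 i ≠ 0 := by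
    obtain ⟨i, hi⟩ := hf
    refine ⟨i, fun h1 => hi ?_⟩
    rw [← hff0 i, h1, map_zero]
  have hmm : K.Mult1 f0 := hmult K0 f0 (by rw [hff]; exact hm)
  have h00 : MvPolynomial.aeval f0 F0 = 0 := by
    apply MvPolynomial.map_injective (algebraMap K0 ℂ) (algebraMap K0 ℂ).injective
    rw [MvPolynomial.aeval_eq_bind₁, MvPolynomial.map_bind₁, hff, hFF0, map_zero,
      ← MvPolynomial.aeval_eq_bind₁]
    exact h0
  have hz0 : ∀ s, z s ≠ 0 := fun s => S.ctx.tb.1.ne_zero s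
  have bE := M13B_BE KE k1 je aE gE (⟨z (Sum.inr je), mE⟩ : k1) rfl
  refine q7_abs K hR hm3 E hE S k1 hfin (k0 := K0) (B := KE)
    ⟨w, hw0⟩ (Subtype.ext hw) f0 hd0 hne hmm F0 (by rw [hcomp]; exact hFF0) h00
    je ⟨z (Sum.inr je), mE⟩ (fun h1 => hz0 _ (congrArg Subtype.val h1)) bE
    ⟨bE.alg, M13B_inv _ bE.gen, Or.inr rfl⟩
    (fun i j => ⟨z (Sum.inr (gG (i, j))), mG _⟩) (M13B_ind _ iG) ?_
  rw [hcomp, hff]
  exact hPr

end M13Bb

/-- `exists_ctx` (N/A1), `exists_two`, `exists_wt` (N/T2): `St`. `w` a root of `X^2 + X + 1` in `ℂ`, `cof` = `w` and the coefficients of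
the `f i`. `exists_params` for the parameters: the entries of `G`, and `ε`. `k0 = FK z cof (range g)`, `B = FK z cof {g ε}`,
`k1 = FK1 z cof`, all maps are inclusions in `ℂ`. `q6_abs`. -/
theorem q7_core {N s : ℕ} (K : Bk mm N s) (hR : RE (mm + 2)) (hm3 : 3 ≤ mm) (E : ℕ) (hE : mm = 2 * E)
    {F : MvPolynomial (Fin (mm + 2)) ℂ} (hF : VG F)
    (f : Fin (mm + 2) → MvPolynomial (Fin N) ℂ) {d : Fin s → ℕ} (hd : ∀ i, K.MH (f i) d)
    (hf : ∃ i, f i ≠ 0) (h0 : MvPolynomial.aeval f F = 0) (hm : K.MultC f)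
    (hmult : ∀ (k0 : Type) [Field k0] [Algebra k0 ℂ]
      (f0 : Fin (mm + 2) → MvPolynomial (Fin N) k0),
      K.MultC (fun i => MvPolynomial.map (algebraMap k0 ℂ) (f0 i)) → K.Mult1 f0)
    (hPr : K.PrAll f) : False := by
  classical
  obtain ⟨J, z, A, iF, iC, iA, u, l, hC⟩ := exists_ctx hF
  have hcl := hC.closed
  obtain ⟨v2, h2⟩ := exists_two
  obtain ⟨V, hV⟩ := exists_wt (k := ℚ) (zeta z u l) (zeta_ind hC) (zeta_alg hC) v2 (fun _ => 1)
    (fun _ => one_pos)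
  obtain ⟨w, hw⟩ := M13B_root
  obtain ⟨cof, hcf, hcw, hcc⟩ := M13B_fin f w
  obtain ⟨g0, hg0, hga0⟩ := exists_params z hC.tb cof hcf (N * N + 1)
  obtain ⟨σ⟩ : Nonempty ((Fin N × Fin N) ⊕ Unit ≃ Fin (N * N + 1)) :=
    ⟨Fintype.equivFinOfCardEq (by simp)⟩
  obtain ⟨g, hgdef⟩ : ∃ g : (Fin N × Fin N) ⊕ Unit → J, g = g0 ∘ σ := ⟨_, rfl⟩
  have hg : Function.Injective g := by
    rw [hgdef]
    exact hg0.comp σ.injective
  have hrange : Set.range g = Set.range g0 := by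
    rw [hgdef]
    exact σ.surjective.range_comp g0
  rw [← hrange] at hga0
  have hEG : ({g (Sum.inr ())} : Set J) ⊆ Set.range g := by
    rintro s rfl
    exact Set.mem_range_self _
  have hnE : ∀ q, g (Sum.inl q) ∉ ({g (Sum.inr ())} : Set J) := fun q hq =>
    Sum.inl_ne_inr (hg hq)
  exact M13B_main K hR hm3 E hE ⟨hC, h2, hV⟩ w hw f hd hf h0 hm hmult hPr (FK z cof (Set.range g))
    (FK z cof {g (Sum.inr ())}) (FK1 z cof) (FK1_fin z hC.tb cof hcf)
    (FK_anti z cof hEG) (FK_le1 z cof _)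
    (M13B_cof z cof _ _ hcw) (fun i m => M13B_cof z cof _ _ (hcc i m))
    (fun m => M13B_coeff z cof hC _ m) (g (Sum.inr ())) (fun q => g (Sum.inl q))
    (M13B_alg1 z cof _ hga0 _ (Set.mem_range_self _))
    (FK_gen z cof _) (M13B_z1 z cof _)
    (fun q => M13B_mem z cof _ _ (hnE q))
    (FK_ind z hC.tb cof (Set.range g) hga0 (fun q : Fin N × Fin N => g (Sum.inl q))
      (hg.comp Sum.inl_injective) fun q => Set.mem_range_self _)

end MP2619.Q6
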