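import Pool.Agent.Lib.MP_2619d0_ag.Q6.M6b

/-!
Row q7-M6b: the symmetry with arbitrary weights
-/

set_option autoImplicit false

namespace MP2619.Q6

open scoped NNReal
open IntermediateField MP2619.R MP2619.N Pool.Agent.Lib.MP_2619d0_ag Pool.Agent.Lib.MP_2619d0_ag.T
  MP2619.Q5

private theorem M6bB_gen {B N : Type} [Field B] [Field N] [Algebra B N] {n : ℕ} (f v : Fin n → N)
    (hv : AlgebraicIndependent B v) (hvf : ∀ i, v i ∈ adjoin B (Set.range f)) :
    AlgebraicIndependent B f := by
  set L : IntermediateField B N := adjoin B (Set.range f) with hL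
  let g : Fin n → L := fun i => ⟨f i, subset_adjoin B _ (Set.mem_range_self i)⟩
  have halg : Algebra.IsAlgebraic (Algebra.adjoin B (Set.range g)) L := by
    refine ⟨?_⟩
    rintro ⟨z, hz⟩
    induction hz using adjoin_induction with
    | mem z hz =>
      obtain ⟨i, rfl⟩ := hz
      exact isAlgebraic_algebraMap (⟨g i, Algebra.subset_adjoin (Set.mem_range_self i)⟩ :
        Algebra.adjoin B (Set.range g))
    | algebraMap c =>
      exact isAlgebraic_algebraMap (algebraMap B (Algebra.adjoin B (Set.range g)) c)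
    | add x y hx hy h1 h2 => exact h1.add h2
    | inv x hx h1 => exact h1.inv
    | mul x y hx hy h1 h2 => exact h1.mul h2
  let v' : Fin n → L := fun i => ⟨v i, hvf i⟩
  have hv' : AlgebraicIndependent B v' := AlgebraicIndependent.of_comp L.val hv
  have hb := Algebra.IsAlgebraic.isTranscendenceBasis_of_le_trdeg_of_finite B g
    (by simpa using hv'.cardinalMk_le_trdeg)
  exact hb.1.map' (f := L.val) L.val.injective

private theorem M6bB_frac {B M : Type} [Field B] [Field M] [Algebra B M] {n : ℕ} (r : Fin n → M)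
    (hr : AlgebraicIndependent B r) (h : adjoin B (Set.range r) = ⊤) :
    ∃ g : FractionRing (MvPolynomial (Fin n) B) ≃ₐ[B] M,
      ∀ i, g (algebraMap (MvPolynomial (Fin n) B) _ (MvPolynomial.X i)) = r i := by
  refine ⟨(hr.aevalEquivField.trans (IntermediateField.equivOfEq h)).trans
    IntermediateField.topEquiv, fun i => ?_⟩
  have h1 : ((hr.aevalEquivField (algebraMap (MvPolynomial (Fin n) B) _ (MvPolynomial.X i)) :
      IntermediateField.adjoin B (Set.range r)) : M) = MvPolynomial.aeval r (MvPolynomial.X i) :=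
    hr.aevalEquivField_algebraMap_apply_coe (MvPolynomial.X i)
  rw [MvPolynomial.aeval_X] at h1
  exact h1

private theorem M6bB_equiv {B M : Type} [Field B] [Field M] [Algebra B M] {n : ℕ}
    (r r' : Fin n → M) (hr : AlgebraicIndependent B r)
    (hr' : AlgebraicIndependent B r') (h : adjoin B (Set.range r) = ⊤)
    (h' : adjoin B (Set.range r') = ⊤) :
    ∃ e : M ≃ₐ[B] M, ∀ i, e (r i) = r' i := by
  obtain ⟨g, hg⟩ := M6bB_frac r hr h
  obtain ⟨g', hg'⟩ := M6bB_frac r' hr' h'
  refine ⟨g.symm.trans g', fun i => ?_⟩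
  rw [AlgEquiv.trans_apply, ← hg i, AlgEquiv.symm_apply_apply, hg' i]

/-- Copy of `exists_sigma` (Q6/M6b.lean) with the weights `e j` instead of `j + 1`. -/
theorem exists_sigmaB {m : ℕ} {B M : Type} [Field B] [Field M] [Algebra B M] (e : Fin m → ℕ)
    (ε : M) (t : Fin m → M) (α β : M)
    (hind : AlgebraicIndependent B (Fin.cons ε (Fin.cons α (Fin.cons β t)) : Fin (m + 3) → M))
    (hgen : adjoin B (Set.range (Fin.cons ε (Fin.cons α (Fin.cons β t)) : Fin (m + 3) → M)) = ⊤) :
    ∃ σ : M ≃ₐ[B] M, σ ε * (1 + ε) = - ε ∧ (∀ j, σ (t j) = (1 + ε) ^ (e j) * t j) ∧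
      σ α = β ∧ σ β = α ∧ ∀ z, σ (σ z) = z := by
  classical
  obtain ⟨v, hv⟩ : ∃ v : Fin (m + 3) → M, v = Fin.cons ε (Fin.cons α (Fin.cons β t)) := ⟨_, rfl⟩
  rw [← hv] at hind hgen
  have v0 : v 0 = ε := by rw [hv]; rfl
  have v1 : v 1 = α := by rw [hv]; rfl
  have v2 : v 2 = β := by rw [hv]; rfl
  have v3 : ∀ j : Fin m, v j.succ.succ.succ = t j := by intro j; rw [hv]; rfl
  have h1ε : 1 + ε ≠ 0 := by
    intro h0
    have htr : Transcendental B ε := by
      have := hind.transcendental 0
      rwa [v0] at this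
    apply htr
    have : ε = algebraMap B M (-1) := by
      rw [map_neg, map_one]; linear_combination h0
    rw [this]
    exact isAlgebraic_algebraMap _
  obtain ⟨w, hw⟩ : ∃ w : Fin (m + 3) → M, w = Fin.cons (-ε / (1 + ε)) (Fin.cons β (Fin.cons α
    (fun j : Fin m => (1 + ε) ^ (e j) * t j))) := ⟨_, rfl⟩
  have w0 : w 0 = -ε / (1 + ε) := by rw [hw]; rfl
  have w1 : w 1 = β := by rw [hw]; rfl
  have w2 : w 2 = α := by rw [hw]; rfl
  have w3 : ∀ j : Fin m, w j.succ.succ.succ = (1 + ε) ^ (e j) * t j := by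
    intro j; rw [hw]; rfl
  have hwL : ∀ i, w i ∈ adjoin B (Set.range w) :=
    fun i => subset_adjoin B _ (Set.mem_range_self i)
  have e1 : 1 + w 0 = (1 + ε)⁻¹ := by
    rw [w0]; field_simp; ring
  have hinv : (1 + ε) ∈ adjoin B (Set.range w) := by
    have : (1 + ε) = (1 + w 0)⁻¹ := by rw [e1, inv_inv]
    rw [this]
    exact inv_mem (add_mem (one_mem _) (hwL 0))
  have hε : ε ∈ adjoin B (Set.range w) := by
    have : ε = (1 + ε) - 1 := by ring
    rw [this]
    exact sub_mem hinv (one_mem _)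
  have hmem : ∀ i, v i ∈ adjoin B (Set.range w) := by
    intro i
    refine Fin.cases ?_ (fun i => ?_) i
    · rw [v0]; exact hε
    · refine Fin.cases ?_ (fun i => ?_) i
      · change v 1 ∈ _
        rw [v1, ← w2]; exact hwL 2
      · refine Fin.cases ?_ (fun j => ?_) i
        · change v 2 ∈ _
          rw [v2, ← w1]; exact hwL 1
        · rw [v3]
          have h2 : t j = w j.succ.succ.succ * ((1 + ε) ^ (e j))⁻¹ := by
            rw [w3]
            field_simp
          rw [h2]
          exact mul_mem (hwL _) (inv_mem (pow_mem hinv _))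
  have hwind : AlgebraicIndependent B w := M6bB_gen w v hind hmem
  have hwgen : adjoin B (Set.range w) = ⊤ := by
    rw [eq_top_iff, ← hgen, adjoin_le_iff]
    rintro _ ⟨i, rfl⟩
    exact hmem i
  obtain ⟨σ, hσ⟩ := M6bB_equiv v w hind hwind hgen hwgen
  have s0 : σ ε = -ε / (1 + ε) := by rw [← v0, hσ, w0, v0]
  have s1 : σ α = β := by rw [← v1, hσ, w1]
  have s2 : σ β = α := by rw [← v2, hσ, w2]
  have s3 : ∀ j, σ (t j) = (1 + ε) ^ (e j) * t j := by
    intro j; rw [← v3, hσ, w3, v3]
  have s01 : σ (1 + ε) = (1 + ε)⁻¹ := by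
    rw [map_add, map_one, s0]; field_simp; ring
  have hcomp : ∀ i, σ (σ (v i)) = v i := by
    intro i
    refine Fin.cases ?_ (fun i => ?_) i
    · have h5 : σ (σ (1 + ε)) = 1 + ε := by rw [s01, map_inv₀, s01, inv_inv]
      rw [map_add, map_one, map_add, map_one] at h5
      rw [v0]
      exact add_left_cancel h5
    · refine Fin.cases ?_ (fun i => ?_) i
      · change σ (σ (v 1)) = v 1
        rw [v1, s1, s2]
      · refine Fin.cases ?_ (fun j => ?_) i
        · change σ (σ (v 2)) = v 2
          rw [v2, s2, s1]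
        · rw [v3, s3, map_mul, map_pow, s01, s3, ← mul_assoc, ← mul_pow, inv_mul_cancel₀ h1ε,
            one_pow, one_mul]
  refine ⟨σ, ?_, s3, s1, s2, ?_⟩
  · rw [s0]; field_simp
  · intro z
    have hz : z ∈ adjoin B (Set.range v) := by rw [hgen]; exact mem_top
    induction hz using adjoin_induction with
    | mem z hz =>
      obtain ⟨i, rfl⟩ := hz
      exact hcomp i
    | algebraMap c => rw [AlgEquiv.commutes, AlgEquiv.commutes]
    | add x y hx hy h1 h2 => rw [map_add, map_add, h1, h2]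
    | inv x hx h1 => rw [map_inv₀, map_inv₀, h1]
    | mul x y hx hy h1 h2 => rw [map_mul, map_mul, h1, h2]

end MP2619.Q6
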