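import Pool.Agent.Lib.MP_2619d0_ag.Q5.G1
import Pool.Agent.Lib.MP_2619d0_ag.Q5.G2
import Pool.Agent.Lib.MP_2619d0_ag.Q6.T21
import Pool.Agent.Lib.MP_2619d0_ag.Q7.T6

/-!
Row q7-T8a: base points, the bound for the vertex
-/

set_option autoImplicit false

namespace MP2619.Q6

open scoped NNReal
open IntermediateField MP2619.R MP2619.N Pool.Agent.Lib.MP_2619d0_ag Pool.Agent.Lib.MP_2619d0_ag.T
  MP2619.Q5

variable {k0 B M L : Type} [Field k0] [Field B] [Field M] [Field L]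
  [Algebra k0 B] [Algebra k0 M] [Algebra k0 L]
  [Algebra B M] [Algebra B L] [IsScalarTower k0 B M] [IsScalarTower k0 B L] {m N s : ℕ}
  {K : Bk m N s} {f : Fin (m + 2) → MvPolynomial (Fin N) k0} {G : Fin N → Fin N → B} {ε : M}
  {t : Fin m → M} {α β : M} {σ : M ≃ₐ[B] M} {P : ValuationSubring M} {φ : P →+* L}
  {x y : Fin (m + 2) → P} {w : B} {a : Fin (m + 2)}

private theorem T8aB_mono {R : Type} [Field R] [Algebra B R]
    {K0 K1 : IntermediateField B R} (h : K0 ≤ K1) : Algebra.trdeg B K0 ≤ Algebra.trdeg B K1 :=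
  _root_.trdeg_le_of_injective (IntermediateField.inclusion h)
    (IntermediateField.inclusion h).injective

/-- Copy of `esc_tr1` (Q6/T8a.lean). `T = K.T t`, `U = K.nm J T`. `K.rt B T` has transcendence degree `≤ m = D + 1` (`K.trdeg_rt_le`) and contains all `U j`
(`K.nm_mem_rt`). By `E.x0` some `f i (p) ≠ 0`, so `g = f i (pt (K.bd G) U) ≠ 0` (`K.fe_dg_nm` with `h = 0`), `g ∈ K.rt B T` (`fe_mem`, `pt_mem`), its residue is
`f i (pt (K.bd G) τ) = 0` (`fe_res`, `pt_res`), so its value is `< 1`: `trdeg_resI_lt` for `K.rt B T`. The `τ j` are in `resI rm (K.rt B T)`, so are all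
`dv f i0 (pt (K.bd G) τ) i` (`aeval_mem`). -/
theorem esc_tr1B (D : ℕ) (hm : m = D + 1) (E : K.Esc f G ε t α β σ P φ x y w a)
    (J : Fin s → Fin N) (hJ : ∀ i, K.bl (J i) = i) (hJ0 : ∀ i, K.T t (J i) ≠ 0)
    (hT : ∀ j, K.nm J (K.T t) j ∈ P)
    (hz : fe f (pt (K.bd G) (fun j => φ ⟨_, hT j⟩)) = 0) (i0 : Fin N) :
    Algebra.trdeg B (rat B (dv f i0 (pt (K.bd G) (fun j => φ ⟨_, hT j⟩)))) ≤ D := by
  obtain ⟨d, hd⟩ := E.hom
  have rm0 : RMap k0 P φ := RMap.restrict E.rm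
  -- some value is not zero
  obtain ⟨i, hi⟩ := Function.ne_iff.1 E.x0
  rw [Pi.zero_apply] at hi
  have hpA : K.pA G t 0 = pt (K.bd G) (K.dg 0 (K.T t)) := rfl
  rw [hpA, K.fe_dg_nm f hd G J (K.T t) hJ0 0 i, K.dg_zero] at hi
  have hg0 : fe f (pt (K.bd G) (K.nm J (K.T t))) i ≠ 0 := right_ne_zero_of_mul hi
  -- membership
  have hUm : ∀ j, K.nm J (K.T t) j ∈ K.rt B (K.T t) := fun j => K.nm_mem_rt J hJ _ j
  have hpm : ∀ j, pt (K.bd G) (K.nm J (K.T t)) j ∈ K.rt B (K.T t) :=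
    pt_mem (K.rt B (K.T t)) (K.bd G) _ hUm
  have hgm : fe f (pt (K.bd G) (K.nm J (K.T t))) i ∈ K.rt B (K.T t) := by
    have h1 := fe_mem f ((K.rt B (K.T t)).restrictScalars k0) (pt (K.bd G) (K.nm J (K.T t)))
      (fun j => (IntermediateField.mem_restrictScalars k0).2 (hpm j)) i
    exact (IntermediateField.mem_restrictScalars k0).1 h1
  -- the value is less than one
  choose p hp1 hp2 using fun i =>
    pt_res E.rm (K.bd G) (fun j => (⟨K.nm J (K.T t) j, hT j⟩ : P)) i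
  obtain ⟨g, hg1, hg2⟩ := fe_res f rm0 p i
  have hg3 : (g : M) = fe f (pt (K.bd G) (K.nm J (K.T t))) i := by
    rw [hg1]
    congr 2
    funext j
    exact hp1 j
  have hg4 : φ g = 0 := by
    rw [hg2]
    have h1 : (fun j => φ (p j)) = pt (K.bd G) (fun j => φ ⟨K.nm J (K.T t) j, hT j⟩) :=
      funext hp2
    rw [h1, hz]
    rfl
  have hg5 : P.valuation (fe f (pt (K.bd G) (K.nm J (K.T t))) i) < 1 := by
    rw [← hg3]
    exact (E.rm.zero g).1 hg4
  have htr : Algebra.trdeg B (K.rt B (K.T t)) ≤ (D + 1 : ℕ) := by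
    rw [← hm]
    exact K.trdeg_rt_le (K.T t)
  have hres := trdeg_resI_lt E.rm (K.rt B (K.T t)) D htr _ hgm hg0 hg5
  refine le_trans (T8aB_mono ?_) hres
  have hτ : ∀ j, φ ⟨K.nm J (K.T t) j, hT j⟩ ∈ resI E.rm (K.rt B (K.T t)) := fun j =>
    (mem_resI E.rm _ _).2 ⟨_, hUm j, rfl⟩
  have hpτ : ∀ j, pt (K.bd G) (fun j => φ ⟨K.nm J (K.T t) j, hT j⟩) j ∈
      resI E.rm (K.rt B (K.T t)) :=
    pt_mem _ (K.bd G) _ hτ
  have hdv : ∀ i, dv f i0 (pt (K.bd G) (fun j => φ ⟨K.nm J (K.T t) j, hT j⟩)) i ∈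
      resI E.rm (K.rt B (K.T t)) := by
    intro i
    have h1 := aeval_mem ((resI E.rm (K.rt B (K.T t))).restrictScalars k0)
      (MvPolynomial.pderiv i0 (f i)) (pt (K.bd G) (fun j => φ ⟨K.nm J (K.T t) j, hT j⟩))
      (fun j => (IntermediateField.mem_restrictScalars k0).2 (hpτ j))
    exact (IntermediateField.mem_restrictScalars k0).1 h1
  rw [rat, adjoin_le_iff]
  rintro _ ⟨i, j, rfl⟩
  exact div_mem (hdv i) (hdv j)

end MP2619.Q6
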