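import Pool.Agent.Lib.MP_2619d0_ag.Q5.G1
import Pool.Agent.Lib.MP_2619d0_ag.Q5.G2
import Pool.Agent.Lib.MP_2619d0_ag.Q6.T21
import Pool.Agent.Lib.MP_2619d0_ag.Q7.T6

/-!
Row q7-T8b: the bound for the three points
-/

set_option autoImplicit false

namespace MP2619.Q6

open scoped NNReal
open IntermediateField MP2619.R MP2619.N Pool.Agent.Lib.MP_2619d0_ag Pool.Agent.Lib.MP_2619d0_ag.T
  MP2619.Q5

variable {k0 B M L : Type} [Field k0] [Field B] [Field M] [Field L]
  [Algebra k0 B] [Algebra k0 M] [Algebra k0 L]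
  [Algebra B M] [Algebra B L] [IsScalarTower k0 B M] [IsScalarTower k0 B L] {m N s : ℕ}
  {K : Bk m N s} {f : Fin (m + 2) → MvPolynomial (Fin N) k0} {G : Fin N → Fin N → B} {ε : M}
  {t : Fin m → M} {α β : M} {σ : M ≃ₐ[B] M} {P : ValuationSubring M} {φ : P →+* L}
  {x y : Fin (m + 2) → P} {w : B} {a : Fin (m + 2)}

private theorem T8bB_le (E : K.Esc f G ε t α β σ P φ x y w a) (J : Fin s → Fin N)
    (hJ0 : ∀ i, K.T t (J i) ≠ 0) (L : IntermediateField B M)
    (hL : ∀ j, K.nm J (K.T t) j ∈ L)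
    (h c : M) (hh : h ∈ L) : rat B (fun i => c * fe f (K.pA G t h) i) ≤ L := by
  obtain ⟨d, hd⟩ := E.hom
  have h2 : ∀ i, c * fe f (K.pA G t h) i = (c * ∏ l, K.T t (J l) ^ d l) *
      fe f (pt (K.bd G) (K.dg h (K.nm J (K.T t)))) i := by
    intro i
    unfold Bk.pA
    rw [K.fe_dg_nm f hd G J (K.T t) hJ0 h i]
    ring
  have h3 : (fun i => c * fe f (K.pA G t h) i) =
      fun i => (c * ∏ l, K.T t (J l) ^ d l) *
        fe f (pt (K.bd G) (K.dg h (K.nm J (K.T t)))) i := funext h2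
  rw [h3]
  refine (rat_smul_le _ _).trans ?_
  have h4 : ∀ j, K.dg h (K.nm J (K.T t)) j ∈ L := by
    intro j
    unfold Bk.dg
    exact L.mul_mem (pow_mem (L.add_mem L.one_mem hh) _) (hL j)
  have h5 : ∀ i, fe f (pt (K.bd G) (K.dg h (K.nm J (K.T t)))) i ∈ L := by
    intro i
    have h6 : fe f (pt (K.bd G) (K.dg h (K.nm J (K.T t)))) i ∈ L.restrictScalars k0 :=
      fe_mem f (L.restrictScalars k0) _ (fun j => pt_mem L _ _ h4 j) i
    exact h6
  conv_lhs => unfold rat
  rw [IntermediateField.adjoin_le_iff]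
  rintro _ ⟨i, l, rfl⟩
  exact L.div_mem (h5 i) (h5 l)

/-- Copy of `esc_tr2` (Q6/T8b.lean). `L0 = adjoin B` of the finite set of the `U j = K.nm J (K.T t) j`, `j ≠ J (bl j)`, and `ε`: at most `N - s + 1 = m + 1` elements
(`K.card`, `J` injective), `trdeg_adjoin_finset`; `ε ∈ L0` is small: `trdeg_resI_lt`: `trdeg B (resI rm L0) ≤ m`. It contains `rat B x̄`, `rat B ȳ` (`rat_resI`,
`K.fe_dg_nm`, `rat_smul_le`) and the `τ j`, so `rat B (dv ..)`. -/
theorem esc_tr2B (E : K.Esc f G ε t α β σ P φ x y w a)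
    (J : Fin s → Fin N) (hJ : ∀ i, K.bl (J i) = i) (hJ0 : ∀ i, K.T t (J i) ≠ 0)
    (hT : ∀ j, K.nm J (K.T t) j ∈ P) (i0 : Fin N) :
    Algebra.trdeg B (rat B (dv f i0 (pt (K.bd G) (fun j => φ ⟨_, hT j⟩))) ⊔
      rat B (fun i => φ (x i)) ⊔ rat B (fun i => φ (y i)) : IntermediateField B L) ≤ m := by
  classical
  have hJi : Function.Injective J := fun a b hab => by rw [← hJ a, ← hJ b, hab]
  let S : Finset M := insert ε ((Finset.univ \ Finset.univ.image J).image
    fun j => K.nm J (K.T t) j)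
  have hs : S.card ≤ m + 1 := by
    refine (Finset.card_insert_le _ _).trans ?_
    have h1 := Finset.card_image_le (s := Finset.univ \ Finset.univ.image J)
      (f := fun j => K.nm J (K.T t) j)
    rw [Finset.card_sdiff_of_subset (Finset.subset_univ _), Finset.card_image_of_injective _ hJi,
      Finset.card_univ, Finset.card_univ, Fintype.card_fin, Fintype.card_fin] at h1
    have h2 := K.card
    omega
  set L0 : IntermediateField B M := adjoin B (S : Set M) with hLdef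
  have hLtr : Algebra.trdeg B L0 ≤ (m + 1 : ℕ) := by
    refine (trdeg_adjoin_finset S).trans ?_
    exact_mod_cast hs
  have hε : ε ∈ L0 := subset_adjoin B _ (by
    rw [Finset.mem_coe]
    exact Finset.mem_insert_self _ _)
  have hL : ∀ j, K.nm J (K.T t) j ∈ L0 := by
    intro j
    by_cases hj : j ∈ Finset.univ.image J
    · obtain ⟨i, -, rfl⟩ := Finset.mem_image.1 hj
      rw [K.nm_J J hJ _ hJ0]
      exact one_mem _
    · refine subset_adjoin B _ ?_
      rw [Finset.mem_coe]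
      exact Finset.mem_insert_of_mem (Finset.mem_image.2
        ⟨j, Finset.mem_sdiff.2 ⟨Finset.mem_univ _, hj⟩, rfl⟩)
  have htr := trdeg_resI_lt E.rm L0 m hLtr ε hε E.e0 E.eps
  have hx : rat B (fun i => φ (x i)) ≤ resI E.rm L0 := by
    refine rat_resI E.rm x L0 ?_
    have h1 : (fun i => (x i : M)) = fun i => α * fe f (K.pA G t 0) i := funext E.x_eq
    rw [h1]
    exact T8bB_le E J hJ0 L0 hL 0 α (zero_mem _)
  have hy : rat B (fun i => φ (y i)) ≤ resI E.rm L0 := by
    refine rat_resI E.rm y L0 ?_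
    have h1 : (fun i => (y i : M)) = fun i => β * fe f (K.pA G t ε) i := funext E.y_eq
    rw [h1]
    exact T8bB_le E J hJ0 L0 hL ε β hε
  have hd : rat B (dv f i0 (pt (K.bd G) (fun j => φ ⟨_, hT j⟩))) ≤ resI E.rm L0 := by
    have h1 : ∀ j, φ ⟨_, hT j⟩ ∈ resI E.rm L0 := fun j =>
      (mem_resI E.rm L0 _).2 ⟨⟨_, hT j⟩, hL j, rfl⟩
    have h2 : ∀ j, pt (K.bd G) (fun j => φ ⟨_, hT j⟩) j ∈ resI E.rm L0 := fun j =>
      pt_mem _ _ _ h1 j
    have h3 : ∀ i, dv f i0 (pt (K.bd G) (fun j => φ ⟨_, hT j⟩)) i ∈ resI E.rm L0 := by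
      intro i
      have h4 : dv f i0 (pt (K.bd G) (fun j => φ ⟨_, hT j⟩)) i ∈
          (resI E.rm L0).restrictScalars k0 :=
        aeval_mem ((resI E.rm L0).restrictScalars k0) _ _ h2
      exact h4
    conv_lhs => unfold rat
    rw [IntermediateField.adjoin_le_iff]
    rintro _ ⟨i, l, rfl⟩
    exact (resI E.rm L0).div_mem (h3 i) (h3 l)
  have hle : (rat B (dv f i0 (pt (K.bd G) (fun j => φ ⟨_, hT j⟩))) ⊔
      rat B (fun i => φ (x i)) ⊔ rat B (fun i => φ (y i)) : IntermediateField B L) ≤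
      resI E.rm L0 := sup_le (sup_le hd hx) hy
  exact (_root_.trdeg_le_of_injective (IntermediateField.inclusion hle)
    (IntermediateField.inclusion hle).injective).trans htr

end MP2619.Q6
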