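import Pool.Agent.Lib.MP_2619d0_ag.Q5.G1
import Pool.Agent.Lib.MP_2619d0_ag.Q5.G2
import Pool.Agent.Lib.MP_2619d0_ag.Q6.C10b
import Pool.Agent.Lib.MP_2619d0_ag.Q6.T21
import Pool.Agent.Lib.MP_2619d0_ag.Q7.T6

/-!
Row q7-T8c: the automorphism of the residue field
-/

set_option autoImplicit false

namespace MP2619.Q6

open scoped NNReal
open IntermediateField MP2619.R MP2619.N Pool.Agent.Lib.MP_2619d0_ag Pool.Agent.Lib.MP_2619d0_ag.T
  MP2619.Q5

variable {k0 B M L : Type} [Field k0] [Field B] [Field M] [Field L]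
  [Algebra k0 B] [Algebra k0 M] [Algebra k0 L]
  [Algebra B M] [Algebra B L] [IsScalarTower k0 B M] [IsScalarTower k0 B L] {m N s : ℕ}
  {K : Bk m N s} {f : Fin (m + 2) → MvPolynomial (Fin N) k0} {G : Fin N → Fin N → B} {ε : M}
  {t : Fin m → M} {α β : M} {σ : M ≃ₐ[B] M} {P : ValuationSubring M} {φ : P →+* L}
  {x y : Fin (m + 2) → P} {w : B} {a : Fin (m + 2)}

private theorem T8cB_aeval {k' B' M' : Type} [Field k'] [Field B'] [Field M'] [Algebra k' B']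
    [Algebra k' M'] [Algebra B' M'] [IsScalarTower k' B' M'] {r : ℕ} (σ' : M' ≃ₐ[B'] M')
    (q : MvPolynomial (Fin r) k') (p : Fin r → M') :
    σ' (MvPolynomial.aeval p q) = MvPolynomial.aeval (fun j => σ' (p j)) q := by
  have h := MvPolynomial.comp_aeval_apply (R := k') p
    ((σ'.toAlgHom : M' →ₐ[B'] M').restrictScalars k') q
  exact h

omit [Algebra k0 L] [IsScalarTower k0 B M] [IsScalarTower k0 B L] in
private theorem T8cB_T (E : K.Esc f G ε t α β σ P φ x y w a) (j : Fin N) :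
    σ (K.T t j) = (1 + ε) ^ (K.wt j) * K.T t j := by
  by_cases h : K.wt j ≠ 0
  · rw [K.T_of t j h, E.s_t]
    congr 3
    rw [K.ix.symm_apply_apply]
  · rw [not_not] at h
    rw [h, pow_zero, one_mul]
    unfold Bk.T
    rw [dif_neg (not_not.2 h), map_one]

omit [Algebra k0 L] [IsScalarTower k0 B M] [IsScalarTower k0 B L] in
private theorem T8cB_pA (E : K.Esc f G ε t α β σ P φ x y w a) (i : Fin N) :
    σ (K.pA G t 0 i) = K.pA G t ε i := by
  rw [K.pA_zero]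
  unfold Bk.pA pt Bk.dg
  rw [map_sum]
  refine Finset.sum_congr rfl fun j _ => ?_
  rw [map_mul, σ.commutes, T8cB_T E j]

private theorem T8cB_x (E : K.Esc f G ε t α β σ P φ x y w a) (i : Fin (m + 2)) :
    σ (x i : M) = y i := by
  have h1 : (fun j => σ (K.pA G t 0 j)) = K.pA G t ε := by
    funext j
    exact T8cB_pA E j
  have h2 := T8cB_aeval (k' := k0) σ (f i) (K.pA G t 0)
  rw [h1] at h2
  rw [E.x_eq, E.y_eq, map_mul, E.s_a]
  congr 1

omit [Algebra k0 L] [IsScalarTower k0 B M] [IsScalarTower k0 B L] in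
private theorem T8cB_one (E : K.Esc f G ε t α β σ P φ x y w a) (n : ℕ) :
    ∃ h : (1 + ε) ^ n ∈ P, φ ⟨(1 + ε) ^ n, h⟩ = 1 := by
  have he : ε ∈ P := (P.valuation_le_one_iff _).1 E.eps.le
  have h1 : φ ⟨ε, he⟩ = 0 := (E.rm.zero _).2 E.eps
  refine ⟨pow_mem (add_mem (one_mem P) he) n, ?_⟩
  have h2 : (⟨(1 + ε) ^ n, pow_mem (add_mem (one_mem P) he) n⟩ : P) = (1 + ⟨ε, he⟩) ^ n :=
    Subtype.ext (by simp)
  rw [h2, map_pow, map_add, map_one, h1, add_zero, one_pow]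

/-- Copy of `esc_theta` (Q6/T8c.lean). `θ` = `exists_res_aut` (C10b) for `σ`: `θ (φ z) = φ (σ z)`. `σ (T j) = (1 + ε)^(wt j) T j` (`E.s_t`, `K.T_of`, `σ 1 = 1`), so
`σ (p) = p'`, `σ (x i) = y i`; `σ (y i) = x i` by `E.s_s`. `σ (U j) * (1 + ε)^(wt (J (bl j))) = (1 + ε)^(wt j) * U j`, `φ (1 + ε) = 1`, so `θ (τ j) = τ j`. -/
theorem esc_thetaB (E : K.Esc f G ε t α β σ P φ x y w a)
    (J : Fin s → Fin N) (hJ : ∀ i, K.bl (J i) = i) (hJ0 : ∀ i, K.T t (J i) ≠ 0)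
    (hT : ∀ j, K.nm J (K.T t) j ∈ P) :
    ∃ θ : L ≃ₐ[B] L, (∀ i, θ (φ (x i)) = φ (y i)) ∧ (∀ i, θ (φ (y i)) = φ (x i)) ∧
      (∀ z, θ (θ z) = z) ∧ ∀ j, θ (φ ⟨_, hT j⟩) = φ ⟨_, hT j⟩ := by
  obtain ⟨θ, hθ⟩ := exists_res_aut σ P E.sig φ E.rm
  refine ⟨θ, fun i => ?_, fun i => ?_, fun z => ?_, fun j => ?_⟩
  · rw [hθ]
    congr 1
    exact Subtype.ext (T8cB_x E i)
  · rw [hθ]
    congr 1
    refine Subtype.ext ?_
    change σ (y i : M) = x i
    rw [← T8cB_x E i, E.s_s]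
  · obtain ⟨b, rfl⟩ := E.rm.surj z
    rw [hθ, hθ]
    congr 1
    exact Subtype.ext (E.s_s _)
  · obtain ⟨h1, h2⟩ := T8cB_one E (K.wt (J (K.bl j)))
    obtain ⟨h3, h4⟩ := T8cB_one E (K.wt j)
    rw [hθ]
    set U : P := ⟨_, hT j⟩ with hU
    have hs : σ (U : M) ∈ P := (E.sig _).2 U.2
    have h5 : (⟨σ (U : M), hs⟩ : P) * ⟨_, h1⟩ = ⟨_, h3⟩ * U := by
      refine Subtype.ext ?_
      change σ (U : M) * (1 + ε) ^ (K.wt (J (K.bl j))) = (1 + ε) ^ (K.wt j) * (U : M)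
      have h6 : (U : M) = K.T t j / K.T t (J (K.bl j)) := rfl
      have h7 : (1 + ε) ^ (K.wt (J (K.bl j))) ≠ 0 := by
        intro h8
        have h9 : σ (K.T t (J (K.bl j))) = 0 := by
          rw [T8cB_T E, h8, zero_mul]
        exact hJ0 _ ((map_eq_zero σ).1 h9)
      rw [h6, map_div₀, T8cB_T E j, T8cB_T E (J (K.bl j))]
      field_simp
    have h6 := congrArg φ h5
    rw [map_mul, map_mul, h2, h4, mul_one, one_mul] at h6
    exact h6

end MP2619.Q6
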