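import Pool.Agent.Lib.MP_2619d0_ag.Q5.Lex
import Pool.Agent.Lib.MP_2619d0_ag.Q6.C7a
import Pool.Agent.Lib.MP_2619d0_ag.Q6.C12
import Pool.Agent.Lib.MP_2619d0_ag.Q6.CL9
import Pool.Agent.Lib.MP_2619d0_ag.Q7.T20

/-!
Row q7-M7a: one place over zero
-/

set_option autoImplicit false

namespace MP2619.Q6

open scoped NNReal
open IntermediateField MP2619.R MP2619.N Pool.Agent.Lib.MP_2619d0_ag Pool.Agent.Lib.MP_2619d0_ag.T
  MP2619.Q5

variable {m N s : ℕ} {F : MvPolynomial (Fin (m + 2)) ℂ} {J : Type} {z : Exp3 (m + 2) ⊕ J → ℂ}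
  {A : Type} [Field A] [CharZero A] [Algebra ℂ A] {u l : Fin (m + 2) → A}
  {v2 : Valuation ℚ ℝ≥0} {V : Valuation A ℝ≥0}

variable {k0 B M : Type} [Field k0] [Field B] [Field M] [Algebra k0 B]
  [Algebra k0 M] [Algebra B M] [IsScalarTower k0 B M]

/-- Copy of `path_esc` (Q6/M7a.lean), with `escB`. -/
theorem path_escB (K : Bk m N s) (hm3 : 3 ≤ m) (S : St F z u l v2 V)
    (k1 : IntermediateField (Qz z) ℂ)
    (hk1 : FiniteDimensional (Qz z) k1) (w : k1)
    [Algebra B k1] [Algebra B A] [Algebra k1 M] [IsScalarTower B k1 M] [IsScalarTower B k1 A]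
    (e : k1) (j : J) (hB : BE z k1 B e j) (hB' : BE z k1 B e⁻¹ j) (wB : B)
    (hw : algebraMap B k1 wB = w)
    (f : Fin (m + 2) → MvPolynomial (Fin N) k0) (hd : ∃ d, ∀ i, K.MH (f i) d)
    (hmu : K.Mult1 f) (F0 : MvPolynomial (Fin (m + 2)) k0) (h3 : F0.IsHomogeneous 3)
    (h0 : MvPolynomial.aeval f F0 = 0)
    (hF0 : MvPolynomial.map ((algebraMap k1 ℂ).comp (algebraMap B k1))
      (MvPolynomial.map (algebraMap k0 B) F0) = F)
    (G : Fin N → Fin N → B)
    (hG : AlgebraicIndependent k0 (fun q : Fin N × Fin N => G q.1 q.2))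
    (t : Fin m → M) (α β : M) (hα : α ≠ 0)
    (hβ : β ≠ 0) (hf0 : fe f (K.pA G t 0) ≠ 0) (x y : Fin (m + 2) → M)
    (hx : ∀ i, x i = α * fe f (K.pA G t 0) i)
    (hy : ∀ i, y i = β * fe f (K.pA G t (algebraMap k1 M e)) i) (hD : Dat F z k1 w x y)
    (σ : M ≃ₐ[B] M) (h1 : σ (algebraMap k1 M e) * (1 + algebraMap k1 M e) = - algebraMap k1 M e)
    (h2 : ∀ l, σ (t l) = (1 + algebraMap k1 M e) ^ (K.wt (K.ix.symm l).1) * t l) (h4 : σ α = β)
    (h5 : σ β = α) (h6 : ∀ z, σ (σ z) = z) (a : Fin (m + 2)) (P : ValuationSubring M)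
    (hP : EP B (algebraMap k1 M e) x y P) (hs : ∀ z : M, σ z ∈ P ↔ z ∈ P)
    (hne : ¬ ∀ b ∈ adjoin B (Set.range t ∪ {α, β}), b ∈ P) :
    Even (gr V wB u x y P (Pi.single a 1)) := by
  by_contra hodd
  have hne0 : gr V wB u x y P (Pi.single a 1) ≠ 0 := by
    intro h0
    exact hodd (by rw [h0]; exact Even.zero)
  obtain ⟨N', iN, aBN, φ, hφ⟩ := exists_RMap P hP.cst
  obtain ⟨hind, hfin, -⟩ := gr_data S k1 w x y hD e j hB wB hw P hP φ hφ (Pi.single a 1) hne0
  let ak0N : Algebra k0 N' := ((algebraMap B N').comp (algebraMap k0 B)).toAlgebra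
  have t2 : IsScalarTower k0 B N' := IsScalarTower.of_algebraMap_eq fun _ => rfl
  have cB : CharZero B := (algebraMap B k1).charZero
  have cN : CharZero N' := charZero_of_injective_algebraMap (algebraMap B N').injective
  have he0 : algebraMap k1 M e ≠ 0 := by
    intro h0
    have h0' : e = 0 := (map_eq_zero _).1 h0
    have h6 := BE_trans S k1 e j hB
    rw [h0', map_zero] at h6
    exact h6 isAlgebraic_zero
  have E : K.Esc f G (algebraMap k1 M e) t α β σ P φ (fun i => ⟨x i, hP.x_mem i⟩)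
      (fun i => ⟨y i, hP.y_mem i⟩) wB a :=
    { hom := hd
      indG := hG
      rm := hφ
      dv := hP.dv
      e0 := he0
      a0 := hα
      b0 := hβ
      x0 := hf0
      x_eq := hx
      y_eq := hy
      s_e := h1
      s_t := h2
      s_a := h4
      s_b := h5
      s_s := h6
      eps := hP.pos
      sig := hs
      ind := hind }
  rcases escB (m - 1) (by omega) E hmu F0 h3 h0 with h7 | ⟨av, θ, h7⟩
  · exact hne h7
  · apply hodd
    rw [gr_eq V wB u x y P φ hφ hP.x_mem hP.y_mem]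
    exact CL (by omega) S k1 hk1 w hD.om e j hB hB' wB hw
      (MvPolynomial.map (algebraMap k0 B) F0) hF0 a _ _ av θ h7.x_y h7.y_x h7.a_a h7.ne h7.line
      h7.tr1 h7.tr2 ⟨_, hind, hfin⟩

end MP2619.Q6
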