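import Pool.Agent.Lib.MP_2619d0_ag.Q5.M6a
import Pool.Agent.Lib.MP_2619d0_ag.Q6.M6c
import Pool.Agent.Lib.MP_2619d0_ag.Q7.M6b
import Pool.Agent.Lib.MP_2619d0_ag.Q7.M7a

/-!
Row q7-M7: the torus path at zero
-/

set_option autoImplicit false

namespace MP2619.Q6

open scoped NNReal
open IntermediateField MP2619.R MP2619.N Pool.Agent.Lib.MP_2619d0_ag Pool.Agent.Lib.MP_2619d0_ag.T
  MP2619.Q5

private theorem T7M_val {M N : Type} [Field M] [Field N] {k : Type} [Field k] [Algebra k M]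
    [Algebra k N] {P : ValuationSubring M} {φ : P →+* N} (rm : RMap k P φ) (a : P) (h : φ a ≠ 0) :
    P.valuation (a : M) = 1 :=
  le_antisymm ((P.valuation_le_one_iff _).2 a.2) (not_lt.1 fun h2 => h ((rm.zero a).2 h2))

private theorem T7M_poly {B M N : Type} [Field B] [Field M] [Field N] [Algebra B M] [Algebra B N]
    {P : ValuationSubring M} {φ : P →+* N} (rm : RMap B P φ) {ι : Type} (a : ι → P)
    (Q : MvPolynomial ι B) : ∃ z : P, (z : M) = MvPolynomial.aeval (fun i => (a i : M)) Q ∧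
      φ z = MvPolynomial.aeval (fun i => φ (a i)) Q := by
  induction Q using MvPolynomial.induction_on with
  | C b =>
    exact ⟨⟨algebraMap B M b, rm.cst b⟩, by rw [MvPolynomial.aeval_C],
      by rw [MvPolynomial.aeval_C, rm.alg]⟩
  | add p q hp hq =>
    obtain ⟨z1, h1, h1'⟩ := hp
    obtain ⟨z2, h2, h2'⟩ := hq
    refine ⟨z1 + z2, ?_, ?_⟩
    · rw [map_add, ← h1, ← h2]
      rfl
    · rw [map_add, map_add, h1', h2']
  | mul_X p i hp =>
    obtain ⟨z1, h1, h1'⟩ := hp
    refine ⟨z1 * a i, ?_, ?_⟩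
    · rw [map_mul, ← h1, MvPolynomial.aeval_X]
      rfl
    · rw [map_mul, map_mul, h1', MvPolynomial.aeval_X]

private theorem T7M_adj {B M N : Type} [Field B] [Field M] [Field N] [Algebra B M] [Algebra B N]
    {P : ValuationSubring M} {φ : P →+* N} (rm : RMap B P φ) {ι : Type} (a : ι → P)
    (h : AlgebraicIndependent B (fun i => φ (a i))) :
    ∀ b ∈ adjoin B (Set.range fun i => (a i : M)), b ∈ P := by
  intro b hb
  rw [mem_adjoin_range_iff] at hb
  obtain ⟨r, s, rfl⟩ := hb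
  obtain ⟨z1, h1, -⟩ := T7M_poly rm a r
  obtain ⟨z2, h2, h2'⟩ := T7M_poly rm a s
  rw [← h1, ← h2, div_eq_mul_inv]
  refine P.mul_mem _ _ z1.2 ?_
  by_cases hs : s = 0
  · have h3 : (z2 : M) = 0 := by rw [h2, hs, map_zero]
    rw [h3, inv_zero]
    exact P.zero_mem
  · have h3 : φ z2 ≠ 0 := by
      rw [h2']
      intro h0
      exact hs (h.eq_zero_of_aeval_eq_zero s h0)
    rw [← P.valuation_le_one_iff, map_inv₀, T7M_val rm z2 h3, inv_one]

private theorem T7M_pt {C M N : Type} [Field C] [Field M] [Field N] [Algebra C M] [Algebra C N]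
    {s : ℕ} (G : Fin s → Fin s → C) (T : Fin s → M) (g : M →ₐ[C] N) (i : Fin s) :
    g (pt G T i) = pt G (fun j => g (T j)) i := by
  unfold pt
  rw [map_sum]
  refine Finset.sum_congr rfl fun j _ => ?_
  rw [map_mul, g.commutes]

private theorem T7M_fe {k M N : Type} [Field k] [Field M] [Field N] [Algebra k M] [Algebra k N]
    {n s : ℕ} (f : Fin n → MvPolynomial (Fin s) k) (g : M →ₐ[k] N) (p : Fin s → M) (i : Fin n) :
    g (fe f p i) = fe f (fun j => g (p j)) i := by
  unfold fe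
  rw [← AlgHom.comp_apply, MvPolynomial.comp_aeval]

private theorem T7M_one {M : Type} [Field M] (P : ValuationSubring M) (ε : M)
    (h : P.valuation ε < 1) : P.valuation (1 + ε) = 1 := by
  have h1 : P.valuation ε < P.valuation (1 : M) := by rwa [map_one]
  rw [Valuation.map_add_eq_of_lt_left _ h1, map_one]

private theorem T7M_sig {M : Type} [Field M] (P : ValuationSubring M) (ε η : M)
    (h : P.valuation ε < 1) (h1 : η * (1 + ε) = - ε) : P.valuation η = P.valuation ε := by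
  have h2 := congrArg P.valuation h1
  rwa [map_mul, T7M_one P ε h, mul_one, Valuation.map_neg] at h2

private theorem T7M_ord {M : Type} [Field M] (P : ValuationSubring M) (hP : DV P) (ε η : M)
    (h : P.valuation ε < 1) (h1 : η * (1 + ε) = - ε) : ord P η = ord P ε := by
  have h3 := T7M_one P ε h
  have h4 : (1 : M) + ε ≠ 0 := by
    intro h5
    rw [h5, map_zero] at h3
    exact zero_ne_one h3
  by_cases h0 : ε = 0
  · have h5 : η = 0 := by
      rw [h0, neg_zero, add_zero, mul_one] at h1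
      exact h1
    rw [h5, h0]
  · have h5 : η ≠ 0 := by
      intro h6
      rw [h6, zero_mul] at h1
      exact h0 (neg_eq_zero.1 h1.symm)
    have h6 : ord P (η * (1 + ε)) = ord P ε := by rw [h1, ord_neg]
    rw [ord_mul hP h5 h4, (unit_iff hP h4).1 h3, add_zero] at h6
    exact h6

variable {m N s : ℕ} {F : MvPolynomial (Fin (m + 2)) ℂ} {J : Type} {z : Exp3 (m + 2) ⊕ J → ℂ}
  {A : Type} [Field A] [CharZero A] [Algebra ℂ A] {u l : Fin (m + 2) → A}
  {v2 : Valuation ℚ ℝ≥0} {V : Valuation A ℝ≥0}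

variable {k0 B M : Type} [Field k0] [Field B] [Field M] [Algebra k0 B]
  [Algebra k0 M] [Algebra B M] [IsScalarTower k0 B M]

/-- Copy of `path_zero` (Q6/M7.lean), with `exists_sigmaB` (weights `K.wt (K.ix.symm l).1`), `K.T t` instead of `Fin.cons 1 t`, `K.dg` instead of `dg`, `path_escB`. -/
theorem path_zeroB (K : Bk m N s) (hm3 : 3 ≤ m) (S : St F z u l v2 V)
    (k1 : IntermediateField (Qz z) ℂ)
    (hk1 : FiniteDimensional (Qz z) k1) (w : k1)
    [Algebra B k1] [Algebra B A] [Algebra k1 M] [IsScalarTower B k1 M] [IsScalarTower B k1 A]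
    (e : k1) (j : J) (hB : BE z k1 B e j) (hB' : BE z k1 B e⁻¹ j) (wB : B)
    (hw : algebraMap B k1 wB = w)
    (f : Fin (m + 2) → MvPolynomial (Fin N) k0) (hd : ∃ d, ∀ i, K.MH (f i) d)
    (hmu : K.Mult1 f) (F0 : MvPolynomial (Fin (m + 2)) k0) (h3 : F0.IsHomogeneous 3)
    (h0 : MvPolynomial.aeval f F0 = 0)
    (hF0 : MvPolynomial.map ((algebraMap k1 ℂ).comp (algebraMap B k1))
      (MvPolynomial.map (algebraMap k0 B) F0) = F)
    (G : Fin N → Fin N → B)
    (hG : AlgebraicIndependent k0 (fun q : Fin N × Fin N => G q.1 q.2))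
    (t : Fin m → M) (α β : M)
    (hv : AlgebraicIndependent k1 (Fin.cons α (Fin.cons β t) : Fin (m + 2) → M))
    (hgen : adjoin k1 (Set.range (Fin.cons α (Fin.cons β t) : Fin (m + 2) → M)) = ⊤)
    (hf0 : fe f (K.pA G t 0) ≠ 0) (x y : Fin (m + 2) → M)
    (hx : ∀ i, x i = α * fe f (K.pA G t 0) i)
    (hy : ∀ i, y i = β * fe f (K.pA G t (algebraMap k1 M e)) i) (hD : Dat F z k1 w x y)
    (a : Fin (m + 2))
    (hodd : ∀ x0 y0 : Fin (m + 2) →
        adjoin B (Set.range (Fin.cons α (Fin.cons β t) : Fin (m + 2) → M)),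
      (∀ i, (x0 i : M) = α * fe f (K.pA G t 0) i) → (∀ i, (y0 i : M) = β * fe f (K.pA G t 0) i) →
      Odd (gc V wB u x0 y0 (Pi.single a 1))) :
    Odd (gc V w u x y (Pi.single a 1)) := by
  classical
  -- transcendence of `e`
  have he : Transcendental B e := by
    have h1 := BE_trans S k1 e j hB
    intro halg
    have h2 : IsAlgebraic B (algebraMap k1 A e) := halg.algebraMap
    have h3 : IsAlgebraic (adjoin B (Set.range u)) (algebraMap k1 A e) :=
      h2.tower_top (adjoin B (Set.range u))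
    have h4 : algebraMap k1 A e ∈ algebraicClosure (adjoin B (Set.range u)) A :=
      mem_algebraicClosure_iff.mpr h3
    exact h1 (isAlgebraic_algebraMap
      (⟨algebraMap k1 A e, h4⟩ : algebraicClosure (adjoin B (Set.range u)) A))
  obtain ⟨hi1, hi2, hi3, hi4, hi5⟩ := ind7 e he hB.gen _ hv hgen
  set ε : M := algebraMap k1 M e with hε
  obtain ⟨σ, s1, s2, s4, s5, s6⟩ := exists_sigmaB (fun l => K.wt (K.ix.symm l).1) ε t α β hi1 hi2
  set v : Fin (m + 2) → M := Fin.cons α (Fin.cons β t) with hvdef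
  obtain ⟨P0, φ, rm, dv, ho, hlt, hE, huniq⟩ := place0 (adjoin B (Set.range v)) ε hi3 hi4
  have rm0 : RMap k0 P0 φ := rm.restrict
  have hα0 : α ≠ 0 := hv.ne_zero 0
  have hβ0 : β ≠ 0 := hv.ne_zero 1
  have hvE : ∀ i, v i ∈ adjoin B (Set.range v) := fun i => subset_adjoin _ _ ⟨i, rfl⟩
  have hαE : α ∈ adjoin B (Set.range v) := hvE 0
  have hβE : β ∈ adjoin B (Set.range v) := hvE 1
  have htE : ∀ j, t j ∈ adjoin B (Set.range v) := fun j => hvE j.succ.succ
  have hTE : ∀ j, K.T t j ∈ adjoin B (Set.range v) := by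
    intro j
    by_cases hj : K.wt j = 0
    · unfold Bk.T
      rw [dif_neg (not_not.2 hj)]
      exact one_mem _
    · rw [K.T_of t j hj]
      exact htE _
  have hEP : ∀ b ∈ adjoin B (Set.range v), b ∈ P0 := fun b hb => (hE ⟨b, hb⟩).1
  have hφE : ∀ (b : M) (hb : b ∈ adjoin B (Set.range v)), φ ⟨b, hEP b hb⟩ = ⟨b, hb⟩ :=
    fun b hb => (hE ⟨b, hb⟩).2
  have hεP : ε ∈ P0 := (P0.valuation_le_one_iff _).1 hlt.le
  have hφε : φ ⟨ε, hεP⟩ = 0 := (rm.zero _).2 hlt
  obtain ⟨η, hη, hφη⟩ : ∃ η : P0, (η : M) = 1 + ε ∧ φ η = 1 := by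
    refine ⟨1 + ⟨ε, hεP⟩, rfl, ?_⟩
    rw [map_add, map_one, hφε, add_zero]
  have hpE : ∀ j, K.pA G t 0 j ∈ adjoin B (Set.range v) := by
    intro j
    unfold Bk.pA
    rw [K.dg_zero]
    exact pt_mem _ (K.bd G) _ hTE j
  have hfE : ∀ i, fe f (K.pA G t 0) i ∈ adjoin B (Set.range v) := by
    intro i
    exact fe_mem f ((adjoin B (Set.range v)).restrictScalars k0) _ hpE i
  have hxE : ∀ i, x i ∈ adjoin B (Set.range v) := by
    intro i
    rw [hx]
    exact mul_mem hαE (hfE i)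
  have hxP : ∀ i, x i ∈ P0 := fun i => hEP _ (hxE i)
  -- the second point
  have hq : ∀ j, ∃ q : P0, (q : M) = K.pA G t ε j ∧ φ q = ⟨K.pA G t 0 j, hpE j⟩ := by
    intro j
    obtain ⟨q, hq1, hq2⟩ := pt_res rm (K.bd G)
      (fun j => η ^ (K.wt j) * ⟨K.T t j, hEP _ (hTE j)⟩) j
    refine ⟨q, ?_, ?_⟩
    · rw [hq1]
      unfold Bk.pA
      congr 1
      funext i
      unfold Bk.dg
      rw [← hη]
      rfl
    · rw [hq2]
      apply Subtype.ext
      have h1 := T7M_pt (K.bd G) (fun j => φ (η ^ (K.wt j) *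
        ⟨K.T t j, hEP _ (hTE j)⟩)) (adjoin B (Set.range v)).val j
      change ((pt (K.bd G) (fun j => φ (η ^ (K.wt j) *
        ⟨K.T t j, hEP _ (hTE j)⟩)) j :
          adjoin B (Set.range v)) : M) = _ at h1
      rw [h1]
      show _ = K.pA G t 0 j
      unfold Bk.pA
      rw [K.dg_zero]
      congr 1
      funext i
      rw [map_mul, map_pow, hφη, one_pow, one_mul, hφE _ (hTE i)]
      rfl
  choose q hq1 hq2 using hq
  have hyr : ∀ i, ∃ b : P0, (b : M) = y i ∧ φ b = ⟨β, hβE⟩ * ⟨fe f (K.pA G t 0) i, hfE i⟩ := by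
    intro i
    obtain ⟨c, hc1, hc2⟩ := fe_res f rm0 q i
    refine ⟨⟨β, hEP _ hβE⟩ * c, ?_, ?_⟩
    · change β * (c : M) = y i
      rw [hy, hc1]
      have h1 : (fun j => (q j : M)) = K.pA G t ε := funext hq1
      rw [h1]
    · rw [map_mul, hφE _ hβE, hc2]
      congr 1
      apply Subtype.ext
      have h1 := T7M_fe f ((adjoin B (Set.range v)).val.restrictScalars k0) (fun j => φ (q j)) i
      change ((fe f (fun j => φ (q j)) i : adjoin B (Set.range v)) : M) = _ at h1
      rw [h1]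
      congr 1
      funext j
      rw [hq2]
      rfl
  have hyP : ∀ i, y i ∈ P0 := by
    intro i
    obtain ⟨b, hb, -⟩ := hyr i
    rw [← hb]
    exact b.2
  have hg0 : Odd (gr V wB u x y P0 (Pi.single a 1)) := by
    rw [gr_eq V wB u x y P0 φ rm hxP hyP]
    refine hodd _ _ (fun i => ?_) (fun i => ?_)
    · rw [hφE _ (hxE i), ← hx]
    · obtain ⟨b, hb1, hb2⟩ := hyr i
      have h1 : b = ⟨y i, hyP i⟩ := Subtype.ext hb1
      rw [← h1, hb2]
      rfl
  -- the symmetry
  have hσT : ∀ j, σ (K.T t j) = K.dg ε (K.T t) j := by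
    intro j
    unfold Bk.dg
    by_cases hj : K.wt j = 0
    · have h1 : K.T t j = 1 := by
        unfold Bk.T
        rw [dif_neg (not_not.2 hj)]
      rw [h1, hj, map_one, pow_zero, mul_one]
    · rw [K.T_of t j hj, s2]
      simp only [Equiv.symm_apply_apply]
  have hσp : ∀ j, σ (K.pA G t 0 j) = K.pA G t ε j := by
    intro j
    unfold Bk.pA
    rw [K.dg_zero]
    have h1 := T7M_pt (K.bd G) (K.T t) (σ : M →ₐ[B] M) j
    change σ (pt (K.bd G) (K.T t) j) = pt (K.bd G) (fun j => σ (K.T t j)) j at h1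
    rw [h1, funext hσT]
  have hσx : ∀ i, σ (x i) = y i := by
    intro i
    rw [hx, hy, map_mul, s4]
    have h1 := T7M_fe f ((σ : M →ₐ[B] M).restrictScalars k0) (K.pA G t 0) i
    change σ (fe f (K.pA G t 0) i) = fe f (fun j => σ (K.pA G t 0 j)) i at h1
    rw [h1, funext hσp]
  have hσy : ∀ i, σ (y i) = x i := by
    intro i
    rw [← hσx, s6]
  have hs0 : ∀ m : M, σ m ∈ P0 ↔ m ∈ P0 := by
    have hP' : ∀ m : M, m ∈ P0.comap (σ : M →+* M) ↔ σ m ∈ P0 := fun m => Iff.rfl
    have hav : ∀ i : Fin (m + 2), ∃ b : P0, (b : M) = σ (v i) ∧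
        ((φ b : adjoin B (Set.range v)) : M) = v (Equiv.swap 0 1 i) := by
      intro i
      refine Fin.cases ?_ (fun i => ?_) i
      · refine ⟨⟨β, hEP _ hβE⟩, ?_, ?_⟩
        · exact s4.symm
        · rw [hφE _ hβE, Equiv.swap_apply_left]
          rfl
      refine Fin.cases ?_ (fun i => ?_) i
      · refine ⟨⟨α, hEP _ hαE⟩, ?_, ?_⟩
        · exact s5.symm
        · rw [hφE _ hαE]
          change α = v (Equiv.swap 0 1 1)
          rw [Equiv.swap_apply_right]
          rfl
      refine ⟨η ^ (K.wt (K.ix.symm i).1) * ⟨t i, hEP _ (htE i)⟩, ?_, ?_⟩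
      · change (η : M) ^ (K.wt (K.ix.symm i).1) * t i = σ (t i)
        rw [s2, hη]
      · rw [map_mul, map_pow, hφη, one_pow, one_mul, hφE _ (htE _), Equiv.swap_apply_of_ne_of_ne]
        · rfl
        · exact Fin.succ_ne_zero _
        · intro h1
          have h2 := congrArg Fin.val h1
          simp only [Fin.val_succ, Fin.val_one] at h2
          omega
    choose b hb1 hb2 using hav
    have hbi : AlgebraicIndependent B (fun i => φ (b i)) := by
      rw [← AlgHom.algebraicIndependent_iff (adjoin B (Set.range v)).val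
        (adjoin B (Set.range v)).val.injective]
      have h1 : ((adjoin B (Set.range v)).val ∘ fun i => φ (b i)) =
          v ∘ (Equiv.swap (0 : Fin (m + 2)) 1) := funext hb2
      rw [h1]
      exact hi5.comp _ (Equiv.injective _)
    have h1 := T7M_adj rm b hbi
    have h2 : ∀ m ∈ adjoin B (Set.range v), σ m ∈ P0 := by
      intro m hm
      refine h1 _ ?_
      have h3 : (Set.range fun i => (b i : M)) = (σ : M →ₐ[B] M) '' Set.range v := by
        rw [← Set.range_comp]
        congr 1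
        exact funext hb1
      rw [h3, ← adjoin_map]
      exact ⟨m, hm, rfl⟩
    have h3 : ∀ m : M, σ.symm m ∈ P0.comap (σ : M →+* M) ↔ m ∈ P0 := by
      intro m
      rw [hP', σ.apply_symm_apply]
    obtain ⟨-, -, h4⟩ := ord_map σ.symm P0 (P0.comap (σ : M →+* M)) h3 dv
    have h5 : (P0.comap (σ : M →+* M)).valuation ε < 1 := by
      have h7 := (h4 (σ ε)).2 (by rw [T7M_sig P0 ε (σ ε) hlt s1]; exact hlt)
      rw [σ.symm_apply_apply] at h7
      exact h7
    have h6 : P0.comap (σ : M →+* M) = P0 := huniq _ (fun m hm => (hP' m).2 (h2 m hm)) h5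
    intro m
    rw [← hP', h6]
  -- odd powers of the symmetry
  have hpow : ∀ r : ℕ, Odd r → ∀ z : M, (σ ^ r) z = σ z := by
    rintro r ⟨i, rfl⟩ z
    have h2 : σ ^ 2 = 1 := by
      ext z
      rw [pow_two]
      exact s6 z
    rw [pow_succ, pow_mul, h2, one_pow, one_mul]
  -- the end
  have hlex := lex_pairs (by omega) S k1 w x y hD e j hB wB hw a
    (lex S.ctx v2 S.two V S.wt k1 w x y hD _ e j hB wB hw) σ
    (fun P hP h => ⟨by rw [T7M_sig P ε (σ ε) h s1]; exact h, T7M_ord P hP ε (σ ε) h s1⟩)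
    hσx hσy {P0} (fun P hP => by
      rw [Finset.mem_singleton] at hP
      rw [hP]
      exact ⟨⟨dv, rm.cst, hlt, hxP, hyP⟩, hs0⟩) (by
      intro r hr P hP hs hne
      rw [Finset.mem_singleton] at hne
      have hs' : ∀ z : M, σ z ∈ P ↔ z ∈ P := by
        intro z
        rw [← hpow r hr z]
        exact hs z
      refine path_escB K hm3 S k1 hk1 w e j hB hB' wB hw f hd hmu F0 h3 h0 hF0 G hG t α β hα0 hβ0
        hf0 x y hx hy hD σ s1 s2 s4 s5 s6 a P hP hs' ?_
      intro hall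
      refine hne (huniq P (fun b hb => hall b ?_) hP.pos)
      refine adjoin.mono B _ _ ?_ hb
      rintro _ ⟨i, rfl⟩
      refine Fin.cases ?_ (fun i => ?_) i
      · exact .inr (.inl rfl)
      refine Fin.cases ?_ (fun i => ?_) i
      · exact .inr (.inr rfl)
      · exact .inl ⟨i, rfl⟩)
  rw [Finset.sum_singleton, ho] at hlex
  change Even (gc V w u x y (Pi.single a 1) + 1 * gr V wB u x y P0 (Pi.single a 1)) at hlex
  rw [one_mul] at hlex
  by_contra h1
  rw [Nat.not_odd_iff_even] at h1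
  exact Nat.not_even_iff_odd.2 hg0 ((Nat.even_add.1 hlex).1 h1)

end MP2619.Q6
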