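import Pool.Agent.Lib.MP_2619d0_ag.Q5.G1
import Pool.Agent.Lib.MP_2619d0_ag.Q5.G2
import Pool.Agent.Lib.MP_2619d0_ag.Q6.T21
import Pool.Agent.Lib.MP_2619d0_ag.Q6.C6
import Pool.Agent.Lib.MP_2619d0_ag.Q7.T6

/-!
Row q7-T7: not a base point
-/

set_option autoImplicit false

namespace MP2619.Q6

open scoped NNReal
open IntermediateField MP2619.R MP2619.N Pool.Agent.Lib.MP_2619d0_ag Pool.Agent.Lib.MP_2619d0_ag.T
  MP2619.Q5

variable {k0 B M L : Type} [Field k0] [Field B] [Field M] [Field L]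
  [Algebra k0 B] [Algebra k0 M] [Algebra k0 L]
  [Algebra B M] [Algebra B L] [IsScalarTower k0 B M] [IsScalarTower k0 B L] {m N s : ℕ}
  {K : Bk m N s} {f : Fin (m + 2) → MvPolynomial (Fin N) k0} {G : Fin N → Fin N → B} {ε : M}
  {t : Fin m → M} {α β : M} {σ : M ≃ₐ[B] M} {P : ValuationSubring M} {φ : P →+* L}
  {x y : Fin (m + 2) → P} {w : B} {a : Fin (m + 2)}

private theorem T7B_fe (K : Bk m N s) (rm : RMap B P φ) (G : Fin N → Fin N → B) (T : Fin N → P)
    (e : P) (he : φ e = 0) :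
    ∃ X : Fin (m + 2) → P,
      (∀ i, (X i : M) = fe f (pt (K.bd G) (K.dg (e : M) (fun j => (T j : M)))) i) ∧
      ∀ i, φ (X i) = fe f (pt (K.bd G) (fun j => φ (T j))) i := by
  let T' : Fin N → P := fun j => (1 + e) ^ (K.wt j) * T j
  have hT' : ∀ j, (T' j : M) = K.dg (e : M) (fun j => (T j : M)) j := fun j => rfl
  have hT'' : ∀ j, φ (T' j) = φ (T j) := fun j => by
    show φ ((1 + e) ^ (K.wt j) * T j) = φ (T j)
    rw [map_mul, map_pow, map_add, map_one, he, add_zero, one_pow, one_mul]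
  choose p hp hp' using fun i => pt_res rm (K.bd G) T' i
  have rm0 : RMap k0 P φ := rm.restrict
  choose X hX hX' using fun i => fe_res f rm0 p i
  refine ⟨X, fun i => ?_, fun i => ?_⟩
  · rw [hX i]
    congr 1
    funext j
    rw [hp j]
    rfl
  · rw [hX' i]
    congr 1
    funext j
    rw [hp' j]
    congr 1
    funext l
    exact hT'' l

private theorem T7B_trdeg_mono {K1 K2 : IntermediateField B L} (h : K1 ≤ K2) :
    Algebra.trdeg B K1 ≤ Algebra.trdeg B K2 :=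
  trdeg_le_of_injective (IntermediateField.inclusion h) (IntermediateField.inclusion_injective h)

private theorem T7B_rat_le (K : Bk m N s) (hd : ∃ d, ∀ i, K.MH (f i) d) (G : Fin N → Fin N → B)
    (T : Fin N → L) (c : L) {x : Fin (m + 2) → L} (hx : ∀ i, x i = c * fe f (pt (K.bd G) T) i) :
    rat B x ≤ K.rt B T := by
  obtain ⟨d, hd⟩ := hd
  have e1 : x = fun i => c * fe f (pt (K.bd G) T) i := funext hx
  have e2 : fe f (pt (K.bd G) T) =
      fe (fun i => MvPolynomial.map (algebraMap k0 B) (f i)) (pt (K.bd G) T) := by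
    funext i
    exact (MvPolynomial.aeval_map_algebraMap B (pt (K.bd G) T) (f i)).symm
  rw [e1]
  refine (rat_smul_le c _).trans ?_
  rw [e2]
  refine (K.rat_fe_le _ (d := d) (fun i => Bk.MH.map K (algebraMap k0 B) (hd i)) _).trans ?_
  exact K.rt_pt_le _ T

private theorem T7B_trdeg (K : Bk m N s) (D : ℕ) (hm : m = D + 1) (J : Fin s → Fin N)
    (hJ : ∀ i, K.bl (J i) = i) (p : Fin N → L) (hp : ∀ i, p (J i) ≠ 0) (i0 : Fin s)
    (h0 : p (K.o i0) = 0) : Algebra.trdeg B (K.rt B p) ≤ D := by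
  classical
  have hJi : Function.Injective J := fun a b hab => by rw [← hJ a, ← hJ b, hab]
  have hno : K.o i0 ∉ Finset.univ.image J := by
    intro h
    obtain ⟨i, -, hi⟩ := Finset.mem_image.1 h
    exact hp i (by rw [hi, h0])
  let A : Finset (Fin N) := insert (K.o i0) (Finset.univ.image J)
  let S : Finset L := (Finset.univ \ A).image fun j => p j / p (J (K.bl j))
  have hS : S.card ≤ D := by
    refine Finset.card_image_le.trans ?_
    rw [Finset.card_sdiff_of_subset (Finset.subset_univ _), Finset.card_insert_of_notMem hno,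
      Finset.card_image_of_injective _ hJi, Finset.card_univ, Finset.card_univ, Fintype.card_fin,
      Fintype.card_fin]
    have := K.card
    omega
  have hle : K.rt B p ≤ adjoin B (S : Set L) := by
    have h1 : ∀ j, p j / p (J (K.bl j)) ∈ adjoin B (S : Set L) := by
      intro j
      by_cases hj : j ∈ A
      · rcases Finset.mem_insert.1 hj with rfl | hj
        · rw [h0, zero_div]
          exact zero_mem _
        · obtain ⟨i, -, rfl⟩ := Finset.mem_image.1 hj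
          rw [hJ, div_self (hp i)]
          exact one_mem _
      · refine subset_adjoin _ _ ?_
        rw [Finset.mem_coe]
        exact Finset.mem_image.2 ⟨j, Finset.mem_sdiff.2 ⟨Finset.mem_univ _, hj⟩, rfl⟩
    refine K.rt_le _ _ fun i j hij => ?_
    have h3 := div_mem (h1 i) (h1 j)
    rw [hij, div_div_div_cancel_right₀ (hp _)] at h3
    exact h3
  have h4 : Algebra.trdeg B (K.rt B p) ≤ Algebra.trdeg B (adjoin B (S : Set L)) :=
    _root_.trdeg_le_of_injective (IntermediateField.inclusion hle)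
      (IntermediateField.inclusion hle).injective
  refine h4.trans ((trdeg_adjoin_finset S).trans ?_)
  exact_mod_cast hS

/-- Copy of `esc_main` (Q6/T7.lean) with blocks. `T = K.T t`, `τ j` = residue of `U j = K.nm J T j`, `P0 = pt (K.bd G) τ`. `x = α f(p)`, `f(p) = (∏ T(J l)^d l) f(pt (K.bd G) U)`
(`K.fe_dg_nm`), so `x̄` is a multiple of `f(P0)` (`res_par`, `fe_res`), and `ȳ` too (`1 + ε` has the residue `1`). So `rat B x̄ ⊔ rat B ȳ ≤ K.rt B P0 ≤ K.rt B τ`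
(`K.rat_fe_le` for `map f`, `K.rt_pt_le`). By `trdeg_rat_rat` (C6) and `E.ind` its transcendence degree is at least `m = D + 1`. So `τ (K.o i) ≠ 0` for every block `i`
(otherwise `K.rt B τ` is generated by `≤ D` elements: the `τ j / τ (J (bl j))`, `j ≠ J (bl j)`, `j ≠ K.o i`), so the `T (J i)` are units and `t l ∈ P`.
`f(p̄) ≠ 0`; `main_of_ind` (Q6/T21). -/
theorem esc_mainB (D : ℕ) (hm : m = D + 1) (E : K.Esc f G ε t α β σ P φ x y w a)
    (J : Fin s → Fin N) (hJ : ∀ i, K.bl (J i) = i) (hJ0 : ∀ i, K.T t (J i) ≠ 0)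
    (hT : ∀ j, K.nm J (K.T t) j ∈ P)
    (hne : fe f (pt (K.bd G) (fun j => φ ⟨_, hT j⟩)) ≠ 0) :
    ∀ b ∈ adjoin B (Set.range t ∪ {α, β}), b ∈ P := by
  obtain ⟨d, hd⟩ := E.hom
  have rm := E.rm
  have hz : ∀ a : P, P.valuation (a : M) < 1 → φ a = 0 := fun a ha => (rm.zero a).2 ha
  set T : Fin N → M := K.T t with hTdef
  have hT0 : ∀ i, T (K.o i) = 1 := fun i => K.T_o t i
  -- step 1
  have hpAx : ∀ (h : M) (i : Fin (m + 2)), fe f (K.pA G t h) i = (∏ l, T (J l) ^ d l) *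
      fe f (pt (K.bd G) (K.dg h (K.nm J T))) i := fun h i => K.fe_dg_nm f hd G J T hJ0 h i
  have hεP : ε ∈ P := (P.valuation_le_one_iff _).1 E.eps.le
  obtain ⟨X1, hX1, hX1'⟩ := T7B_fe (f := f) K rm G (fun j => ⟨K.nm J T j, hT j⟩) 0 (map_zero φ)
  obtain ⟨Y1, hY1, hY1'⟩ := T7B_fe (f := f) K rm G (fun j => ⟨K.nm J T j, hT j⟩) ⟨ε, hεP⟩
    (hz _ E.eps)
  obtain ⟨i1, hi1⟩ : ∃ i, fe f (pt (K.bd G) (fun j => φ ⟨_, hT j⟩)) i ≠ 0 := by
    by_contra hcon
    exact hne (funext fun i => not_not.1 fun h => hcon ⟨i, h⟩)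
  obtain ⟨c0, hc0⟩ := res_par rm x X1 (α * ∏ l, T (J l) ^ d l) (fun i => by
    rw [E.x_eq, hpAx, hX1, mul_assoc, ZeroMemClass.coe_zero]) ⟨i1, by rw [hX1']; exact hi1⟩
  obtain ⟨c1, hc1⟩ := res_par rm y Y1 (β * ∏ l, T (J l) ^ d l) (fun i => by
    rw [E.y_eq, hpAx, hY1, mul_assoc]) ⟨i1, by rw [hY1']; exact hi1⟩
  have hratx : rat B (fun i => φ (x i)) ≤ K.rt B (fun j => φ ⟨_, hT j⟩) :=
    T7B_rat_le K ⟨d, hd⟩ G _ c0 (fun i => by rw [hc0, hX1'])
  have hraty : rat B (fun i => φ (y i)) ≤ K.rt B (fun j => φ ⟨_, hT j⟩) :=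
    T7B_rat_le K ⟨d, hd⟩ G _ c1 (fun i => by rw [hc1, hY1'])
  have htr : ¬ Algebra.trdeg B (K.rt B (fun j => φ ⟨_, hT j⟩)) ≤ D := fun h =>
    trdeg_rat_rat D (by omega) w _ _ _ ((T7B_trdeg_mono (sup_le hratx hraty)).trans h) E.ind
  have hφJ : ∀ i, φ ⟨_, hT (J i)⟩ = 1 := fun i => by
    have e : (⟨K.nm J T (J i), hT (J i)⟩ : P) = 1 := Subtype.ext (K.nm_J J hJ T hJ0 i)
    rw [e, map_one]
  -- step 2
  have hT0' : ∀ i, φ ⟨_, hT (K.o i)⟩ ≠ 0 := by
    intro i h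
    exact htr (T7B_trdeg K D hm J hJ (fun j => φ ⟨_, hT j⟩)
      (fun i => by rw [hφJ]; exact one_ne_zero) i h)
  have hvJ : ∀ i, P.valuation (T (J i)) = 1 := by
    intro i
    have hv0 : P.valuation (K.nm J T (K.o i)) = 1 :=
      le_antisymm ((P.valuation_le_one_iff _).2 (hT (K.o i)))
        (not_lt.1 fun h => hT0' i ((rm.zero ⟨_, hT (K.o i)⟩).2 h))
    unfold Bk.nm at hv0
    rw [hT0, K.bo, map_div₀, map_one, one_div] at hv0
    exact inv_eq_one.1 hv0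
  have hJP : ∀ i, T (J i) ∈ P := fun i => (P.valuation_le_one_iff _).1 (hvJ i).le
  have hTP : ∀ j, T j ∈ P := fun j => by
    rw [← K.nm_mul J T hJ0 j]
    exact P.mul_mem _ _ (hJP _) (hT j)
  have hφj : ∀ i, φ ⟨T (J i), hJP i⟩ ≠ 0 := fun i h => by
    have h1 := (rm.zero ⟨T (J i), hJP i⟩).1 h
    rw [hvJ] at h1
    exact lt_irrefl _ h1
  -- step 3
  obtain ⟨X, hX, hX'⟩ := T7B_fe (f := f) K rm G (fun j => ⟨T j, hTP j⟩) 0 (map_zero φ)
  obtain ⟨Y, hY, hY'⟩ := T7B_fe (f := f) K rm G (fun j => ⟨T j, hTP j⟩) ⟨ε, hεP⟩ (hz _ E.eps)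
  have hpt : pt (K.bd G) (fun j => φ ⟨T j, hTP j⟩) =
      fun i => φ ⟨T (J (K.bl i)), hJP (K.bl i)⟩ * pt (K.bd G) (fun j => φ ⟨_, hT j⟩) i := by
    rw [← K.pt_bsmul G (fun i => φ ⟨T (J i), hJP i⟩)]
    congr 1
    funext j
    have e : (⟨T j, hTP j⟩ : P) = ⟨T (J (K.bl j)), hJP (K.bl j)⟩ * ⟨_, hT j⟩ :=
      Subtype.ext (K.nm_mul J T hJ0 j).symm
    rw [e, map_mul]
  have hfe : fe f (pt (K.bd G) (fun j => φ ⟨T j, hTP j⟩)) i1 ≠ 0 := by
    rw [hpt, K.fe_bsmul f hd (fun i => φ ⟨T (J i), hJP i⟩)]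
    exact mul_ne_zero (Finset.prod_ne_zero_iff.2 fun l _ => pow_ne_zero _ (hφj l)) hi1
  have ht : ∀ l, t l ∈ P := fun l => by
    have h1 := hTP (K.ix.symm l).1
    rw [hTdef, K.T_ix] at h1
    exact h1
  have hmem : ∀ i, fe f (pt (K.bd G) (fun j => φ ⟨T j, hTP j⟩)) i ∈
      adjoin B (Set.range fun j => φ ⟨t j, ht j⟩) := by
    intro i
    have h1 : fe f (pt (K.bd G) (fun j => φ ⟨T j, hTP j⟩)) i ∈
        (adjoin B (Set.range fun j => φ ⟨t j, ht j⟩)).restrictScalars k0 := by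
      refine fe_mem f _ _ (fun l => ?_) i
      rw [mem_restrictScalars]
      refine pt_mem _ (K.bd G) _ (fun j => ?_) l
      by_cases hj : K.wt j = 0
      · have e : (⟨T j, hTP j⟩ : P) = 1 := Subtype.ext (by
          show T j = 1
          rw [K.wt_eq_zero j hj]
          exact hT0 _)
        rw [e, map_one]
        exact one_mem _
      · have e : (⟨T j, hTP j⟩ : P) = ⟨t (K.ix ⟨j, hj⟩), ht _⟩ := Subtype.ext (K.T_of t j hj)
        rw [e]
        exact subset_adjoin _ _ ⟨K.ix ⟨j, hj⟩, rfl⟩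
    exact (mem_restrictScalars k0).1 h1
  refine main_of_ind rm t α β ht x y X Y (fun i => ?_) (fun i => ?_) (fun i => ?_) ⟨i1, ?_⟩ (fun i => ?_)
    ⟨i1, ?_⟩ w a E.ind
  · rw [E.x_eq, hX, ZeroMemClass.coe_zero]
    rfl
  · rw [E.y_eq, hY]
    rfl
  · rw [hX']
    exact hmem i
  · rw [hX']
    exact hfe
  · rw [hY']
    exact hmem i
  · rw [hY']
    exact hfe

end MP2619.Q6
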